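import Pool.Agent.H313.ZC.Fin
import Pool.Graph.R_seed8.TH223.AP.A3

set_option autoImplicit false

/-! # Almost periodicity of `M(e^v) e^(-v/2)` -/

namespace Pool.Agent.H313.ZC

open MeasureTheory Filter Topology Set
open Pool.Agent.W120.WM (Mx gk Sm EE GG NT T_UNS)
open Pool.Agent.H295R2 (II JJ ww ee GR)
open Pool.Agent.TH223.AP

/-- a finite set of zeros as a finset of complex numbers -/
def fz (s : Finset NT) : Finset ℂ := s.map ⟨Subtype.val, Subtype.val_injective⟩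

lemma fz_mem {s : Finset NT} {ρ : ℂ} (h : ρ ∈ fz s) : ρ ∈ NT := by
  unfold fz at h
  rw [Finset.mem_map] at h
  obtain ⟨⟨z, hz⟩, _, rfl⟩ := h
  exact hz

lemma fz_sum (s : Finset NT) : ∑ ρ ∈ fz s, ‖ww ρ‖ ^ 2 = ∑ ρ ∈ s, aa (ρ : ℂ) := by
  unfold fz
  rw [Finset.sum_map]
  exact Finset.sum_congr rfl fun ρ _ => (aa_eq _).symm

/-- the mean square distance to the partial sums -/
theorem dist_fin (hHS : HS) (hsum : Summable (fun ρ : NT => aa ρ)) (Z : Finset ℂ) (hZ : ∀ ρ ∈ Z, ρ ∈ NT) :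
    Tendsto (mn fun v => ‖((ft v : ℝ) : ℂ) - ∑ ρ ∈ Z, ww ρ * ee ρ v‖ ^ 2) atTop
      (𝓝 (∑' ρ : NT, aa ρ - ∑ ρ ∈ Z, ‖ww ρ‖ ^ 2)) :=
  dist_lim (lim_JJ hHS hsum) Z fun ρ hρ => ⟨(hHS ρ (hZ ρ hρ)).1, (hZ ρ hρ).1, (hHS ρ (hZ ρ hρ)).2⟩

/-- partial sums close to the limit -/
lemma exists_fz (hsum : Summable (fun ρ : NT => aa ρ)) {ε : ℝ} (hε : 0 < ε) :
    ∃ s : Finset NT, ∀ t : Finset NT, s ⊆ t → ∑' ρ : NT, aa ρ - ε < ∑ ρ ∈ t, aa (ρ : ℂ) := by
  have h1 : ∀ᶠ s : Finset NT in atTop, (∑' ρ : NT, aa ρ) - ε < ∑ ρ ∈ s, aa ρ :=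
    hsum.hasSum.eventually (lt_mem_nhds (by linarith))
  obtain ⟨s, hs⟩ := eventually_atTop.1 h1
  exact ⟨s, fun t ht => hs t ht⟩

theorem ft_B2 (hHS : HS) (hsum : Summable (fun ρ : NT => aa ρ)) : B2 ft := by
  intro ε hε
  obtain ⟨s, hs⟩ := exists_fz hsum hε
  refine ⟨(fz s).image Complex.im, fun l => ww (⟨1 / 2, l⟩ : ℂ), ?_⟩
  have h1 := dist_fin hHS hsum (fz s) fun ρ hρ => fz_mem hρ
  have h2 := hs s subset_rfl
  rw [fz_sum] at h1
  filter_upwards [h1.eventually (gt_mem_nhds (show ∑' ρ : NT, aa ρ - ∑ ρ ∈ s, aa (ρ : ℂ) < ε by linarith))]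
    with V hV
  have h3 : (fun v => ‖((ft v : ℝ) : ℂ) - trig ((fz s).image Complex.im) (fun l => ww (⟨1 / 2, l⟩ : ℂ)) v‖ ^ 2) =
      fun v => ‖((ft v : ℝ) : ℂ) - ∑ ρ ∈ fz s, ww ρ * ee ρ v‖ ^ 2 := by
    funext v
    rw [sum_trig (fz s) (fun ρ hρ => (hHS ρ (fz_mem hρ)).1) v]
  rw [h3]
  exact hV.le

theorem of_bdd {C : ℝ} (hC : ∀ V : ℝ, 1 ≤ V → mn (fun v => ft v ^ 2) V ≤ C) :
    HS ∧ Summable (fun ρ : NT => aa ρ) := by
  have h1 : ∃ᶠ x in atTop, II x ≤ C * Real.log x := by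
    refine Eventually.frequently ?_
    filter_upwards [eventually_ge_atTop (Real.exp 1)] with x hx
    have hx0 : 0 < x := (Real.exp_pos 1).trans_le hx
    have h2 : 1 ≤ Real.log x := (Real.le_log_iff_exp_le hx0).2 hx
    have h3 := hC _ h2
    rw [mn_sq (by linarith), div_le_iff₀ (by linarith), ← Pool.Agent.H295R2.II_eq] at h3
    · exact h3
    · have := Real.add_one_le_exp (1 : ℝ)
      linarith
  obtain ⟨h2, h3, -⟩ := conv h1
  exact ⟨h2, h3⟩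

theorem of_B2 (h : B2 ft) : HS ∧ Summable (fun ρ : NT => aa ρ) := by
  obtain ⟨C, -, hC⟩ := h.second ft_LB
  exact of_bdd hC

/-- the limiting distribution -/
theorem exists_mu (hHS : HS) (hsum : Summable (fun ρ : NT => aa ρ)) :
    ∃ μ : ProbabilityMeasure ℝ, ∀ (φ : ℝ → ℝ) (C : ℝ), Continuous φ → (∀ t, |φ t| ≤ C * (1 + t ^ 2)) →
      Integrable φ (μ : Measure ℝ) ∧
        Tendsto (mn fun v => φ (ft v)) atTop (𝓝 (∫ t, φ t ∂(μ : Measure ℝ))) := by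
  obtain ⟨μ, hμ⟩ := exists_law (ft_B2 hHS hsum) ft_LB
  exact ⟨μ, fun φ C hφ hC => limit_quad (ft_B2 hHS hsum) hμ hφ hC⟩

/-- the second moment -/
theorem second_lim (hHS : HS) (hsum : Summable (fun ρ : NT => aa ρ)) :
    Tendsto (mn fun v => ft v ^ 2) atTop (𝓝 (∑' ρ : NT, aa ρ)) := by
  refine (lim_JJ hHS hsum).congr' ?_
  filter_upwards [eventually_ge_atTop (0 : ℝ)] with V hV
  rw [mn_sq hV]

/-- `ζ` is negative on `(0, 1)` (proof copied from the library module R_seed8/H307R2/Sg6) -/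
lemma zeta_neg {x : ℝ} (h0 : 0 < x) (h1 : x < 1) :
    (riemannZeta (x : ℂ)).re < 0 ∧ (riemannZeta (x : ℂ)).im = 0 := by
  have hne : (x : ℂ) ≠ 1 := by
    intro h
    have : x = 1 := by exact_mod_cast h
    linarith
  have e0 := Pool.Agent.H307R2.zeta_eq (N := 1) le_rfl (s := (x : ℂ)) (by simpa using h0) hne
  have e1 : Pool.Agent.H307R2.TM 1 Pool.Agent.H307R2.Ez (x : ℂ) =
      ((∫ t in Ioi ((1 : ℕ) : ℝ), (-(Int.fract t)) * t ^ (-(x + 1)) : ℝ) : ℂ) := by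
    unfold Pool.Agent.H307R2.TM
    rw [← integral_complex_ofReal]
    refine MeasureTheory.setIntegral_congr_fun measurableSet_Ioi fun t ht => ?_
    have ht' : (1 : ℝ) < t := by simpa using ht
    have ht0 : 0 ≤ t := by linarith
    simp only [Pool.Agent.H307R2.Ez]
    rw [Complex.ofReal_mul, Complex.ofReal_cpow ht0]
    push_cast
    rfl
  have e2 : (∫ t in Ioi ((1 : ℕ) : ℝ), (-(Int.fract t)) * t ^ (-(x + 1)) : ℝ) ≤ 0 := by
    apply MeasureTheory.setIntegral_nonpos measurableSet_Ioi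
    intro t ht
    have ht' : (1 : ℝ) < t := by simpa using ht
    have : 0 ≤ Int.fract t * t ^ (-(x + 1)) :=
      mul_nonneg (Int.fract_nonneg t) (Real.rpow_nonneg (by linarith) _)
    linarith
  rw [e1] at e0
  set I := (∫ t in Ioi ((1 : ℕ) : ℝ), (-(Int.fract t)) * t ^ (-(x + 1)) : ℝ) with hI
  have e3 : riemannZeta (x : ℂ) = ((1 + 1 / (x - 1) + x * I : ℝ) : ℂ) := by
    rw [e0]
    push_cast
    simp
  rw [e3]
  constructor
  · rw [Complex.ofReal_re]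
    have h3 : 1 + 1 / (x - 1) = -(x / (1 - x)) := by
      have : x - 1 ≠ 0 := by linarith
      have : 1 - x ≠ 0 := by linarith
      field_simp
      ring
    have h4 : 0 < x / (1 - x) := div_pos h0 (by linarith)
    have h5 : x * I ≤ 0 := mul_nonpos_of_nonneg_of_nonpos h0.le e2
    linarith
  · exact Complex.ofReal_im _

lemma im_ne {ρ : ℂ} (hρ : ρ ∈ NT) : ρ.im ≠ 0 := by
  intro h
  have h1 : ρ = ((ρ.re : ℝ) : ℂ) := by
    apply Complex.ext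
    · simp
    · simp [h]
  have h2 := (zeta_neg hρ.2.1 hρ.2.2).1
  rw [← h1, hρ.1] at h2
  simp at h2

/-- the mean value is zero -/
theorem mean_zero (hHS : HS) (hsum : Summable (fun ρ : NT => aa ρ)) : Tendsto (mn ft) atTop (𝓝 0) := by
  rw [Metric.tendsto_nhds]
  intro ε hε
  obtain ⟨δ, hδ⟩ : ∃ δ : ℝ, δ = ε ^ 2 / 16 := ⟨_, rfl⟩
  have hδ0 : 0 < δ := by rw [hδ]; positivity
  obtain ⟨s, hs⟩ := exists_fz hsum hδ0
  set K : Finset ℝ := (fz s).image Complex.im with hK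
  set a : ℝ → ℂ := fun l => ww (⟨1 / 2, l⟩ : ℂ) with ha
  have h0 : (0 : ℝ) ∉ K := by
    rw [hK, Finset.mem_image]
    rintro ⟨ρ, hρ, h⟩
    exact im_ne (fz_mem hρ) h
  have h1 := dist_fin hHS hsum (fz s) fun ρ hρ => fz_mem hρ
  have h2 := hs s subset_rfl
  rw [fz_sum] at h1
  have h3 := h1.eventually (gt_mem_nhds (show ∑' ρ : NT, aa ρ - ∑ ρ ∈ s, aa (ρ : ℂ) < δ by linarith))
  have h4 := Metric.tendsto_nhds.1 (mean_trig_zero h0 a) (ε / 4) (by positivity)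
  filter_upwards [h3, h4, eventually_gt_atTop (0 : ℝ)] with V h5 h6 hV
  have hd : LB (fun v => ‖((ft v : ℝ) : ℂ) - trig K a v‖ ^ 2) := ft_LB.normsq (trig_cont K a)
  have e3 : (fun v => ‖((ft v : ℝ) : ℂ) - trig K a v‖ ^ 2) =
      fun v => ‖((ft v : ℝ) : ℂ) - ∑ ρ ∈ fz s, ww ρ * ee ρ v‖ ^ 2 := by
    funext v
    rw [sum_trig (fz s) (fun ρ hρ => (hHS ρ (fz_mem hρ)).1) v]
  have h7 := abs_mn_sub_le (g := ft) (h := rt K a)
    (k := fun v => 2 / ε * ‖((ft v : ℝ) : ℂ) - trig K a v‖ ^ 2 + ε / 8) hV (ft_LB.ii hV.le)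
    ((rt_cont K a).intervalIntegrable _ _) (((hd.const_mul _).ii hV.le).add
      (continuous_const.intervalIntegrable _ _)) (fun v _ => by
      have h8 : |ft v - rt K a v| ≤ ‖((ft v : ℝ) : ℂ) - trig K a v‖ := by
        have : ft v - rt K a v = (((ft v : ℝ) : ℂ) - trig K a v).re := by simp [rt]
        rw [this]
        exact Complex.abs_re_le_norm _
      refine h8.trans ?_
      set r := ‖((ft v : ℝ) : ℂ) - trig K a v‖
      have h9 : 2 / ε * r ^ 2 + ε / 8 - r = 2 / ε * (r - ε / 4) ^ 2 := by field_simp; ring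
      have h10 : 0 ≤ 2 / ε * (r - ε / 4) ^ 2 := by positivity
      linarith)
  rw [mn_add ((hd.const_mul _).ii hV.le) (continuous_const.intervalIntegrable _ _), mn_const_mul,
    mn_const _ hV, e3] at h7
  have h8 : 2 / ε * mn (fun v => ‖((ft v : ℝ) : ℂ) - ∑ ρ ∈ fz s, ww ρ * ee ρ v‖ ^ 2) V ≤ ε / 8 := by
    calc 2 / ε * mn (fun v => ‖((ft v : ℝ) : ℂ) - ∑ ρ ∈ fz s, ww ρ * ee ρ v‖ ^ 2) V ≤ 2 / ε * δ := by
          gcongr
      _ = ε / 8 := by rw [hδ]; field_simp; ring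
  rw [Real.dist_eq, sub_zero] at h6 ⊢
  calc |mn ft V| = |(mn ft V - mn (rt K a) V) + mn (rt K a) V| := by ring_nf
    _ ≤ |mn ft V - mn (rt K a) V| + |mn (rt K a) V| := abs_add_le _ _
    _ < ε := by linarith

end Pool.Agent.H313.ZC
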