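import Pool.Agent.H313.ZC.AP

set_option autoImplicit false

/-! # The autocorrelation of `M(e^v) e^(-v/2)` -/

namespace Pool.Agent.H313.ZC

open MeasureTheory Filter Topology Set
open Pool.Agent.W120.WM (Mx gk Sm EE GG NT T_UNS)
open Pool.Agent.H295R2 (II JJ ww ee GR)
open Pool.Agent.TH223.AP

lemma LB.shift {f : ℝ → ℝ} (hf : LB f) {h : ℝ} (h0 : 0 ≤ h) : LB (fun v => f (v + h)) := by
  refine ⟨hf.meas.comp (measurable_add_const h), fun V => ?_⟩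
  obtain ⟨B, hB⟩ := hf.bdd (V + h)
  exact ⟨B, fun v hv => hB _ ⟨by linarith [hv.1], by linarith [hv.2]⟩⟩

/-- the mean of a shifted nonnegative function -/
lemma mn_shift {g : ℝ → ℝ} (hg : LB g) (hg0 : ∀ v, 0 ≤ g v) {h V : ℝ} (h0 : 0 ≤ h) (hV : 0 < V) (hhV : h ≤ V) :
    mn (fun v => g (v + h)) V ≤ 2 * mn g (V + h) := by
  unfold mn
  rw [intervalIntegral.integral_comp_add_right (fun v => g v) h, zero_add]
  have h1 : ∫ v in h..(V + h), g v ≤ ∫ v in (0 : ℝ)..(V + h), g v := by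
    have i1 := hg.ii (V := h) h0
    have i2 := hg.ii (V := V + h) (by linarith)
    have h2 := intervalIntegral.integral_interval_sub_left i2 i1
    have h3 : 0 ≤ ∫ v in (0 : ℝ)..h, g v := intervalIntegral.integral_nonneg h0 fun v _ => hg0 v
    linarith
  have h4 : 0 ≤ ∫ v in (0 : ℝ)..(V + h), g v :=
    intervalIntegral.integral_nonneg (by linarith) fun v _ => hg0 v
  calc (∫ v in h..(V + h), g v) / V ≤ (∫ v in (0 : ℝ)..(V + h), g v) / V := by gcongr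
    _ ≤ 2 * ((∫ v in (0 : ℝ)..(V + h), g v) / (V + h)) := by
      rw [mul_div_assoc', div_le_div_iff₀ hV (by linarith)]
      nlinarith

/-- the limit of the shifted inner product of a finite sum -/
lemma corr_fin (Z : Finset ℂ) (hZ : ∀ ρ ∈ Z, ρ.re = 1 / 2) (h : ℝ) :
    Tendsto (mn fun v => ((starRingEnd ℂ) (∑ ρ ∈ Z, ww ρ * ee ρ v) * ∑ ρ ∈ Z, ww ρ * ee ρ (v + h)).re) atTop
      (𝓝 (∑ ρ ∈ Z, ‖ww ρ‖ ^ 2 * Real.cos (ρ.im * h))) := by
  classical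
  have h2 : Tendsto (fun V : ℝ => ∑ ρ ∈ Z, ∑ ρ' ∈ Z, (starRingEnd ℂ) (ww ρ) * ww ρ' * ee ρ' h * (GR (ρ' - ρ) V / V))
      atTop (𝓝 (∑ ρ ∈ Z, ∑ ρ' ∈ Z, (starRingEnd ℂ) (ww ρ) * ww ρ' * ee ρ' h * (if ρ' - ρ = 0 then 1 else 0))) := by
    refine tendsto_finsetSum _ fun ρ hρ => tendsto_finsetSum _ fun ρ' hρ' => ?_
    refine (GR_lim ?_).const_mul _
    rw [Complex.sub_re, hZ ρ hρ, hZ ρ' hρ', sub_self]
  have h3 := (Complex.continuous_re.tendsto _).comp h2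
  have e1 : (∑ ρ ∈ Z, ∑ ρ' ∈ Z, (starRingEnd ℂ) (ww ρ) * ww ρ' * ee ρ' h * (if ρ' - ρ = 0 then 1 else 0)).re =
      ∑ ρ ∈ Z, ‖ww ρ‖ ^ 2 * Real.cos (ρ.im * h) := by
    rw [Complex.re_sum]
    refine Finset.sum_congr rfl fun ρ hρ => ?_
    have e2 : ∑ ρ' ∈ Z, (starRingEnd ℂ) (ww ρ) * ww ρ' * ee ρ' h * (if ρ' - ρ = 0 then 1 else 0) =
        (starRingEnd ℂ) (ww ρ) * ww ρ * ee ρ h := by
      rw [Finset.sum_eq_single ρ]
      · simp
      · intro ρ' _ hne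
        rw [if_neg (sub_ne_zero.2 hne), mul_zero]
      · exact fun h => absurd hρ h
    rw [e2, ← Complex.normSq_eq_conj_mul_self, Complex.normSq_eq_norm_sq, Complex.re_ofReal_mul]
    congr 1
    unfold ee
    have e3 : (ρ - 1 / 2) * (h : ℂ) = ((ρ.im * h : ℝ) : ℂ) * Complex.I := by
      apply Complex.ext
      · simp [hZ ρ hρ]
      · simp
    rw [e3, Complex.exp_ofReal_mul_I_re]
  rw [e1] at h3
  refine h3.congr' ?_
  filter_upwards [eventually_gt_atTop (0 : ℝ)] with V hV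
  simp only [Function.comp]
  have e4 : ∀ v : ℝ, (starRingEnd ℂ) (∑ ρ ∈ Z, ww ρ * ee ρ v) * ∑ ρ ∈ Z, ww ρ * ee ρ (v + h) =
      ∑ ρ ∈ Z, ∑ ρ' ∈ Z, (starRingEnd ℂ) (ww ρ) * ww ρ' * ee ρ' h * Complex.exp ((ρ' - ρ) * v) := by
    intro v
    rw [map_sum, Finset.sum_mul_sum]
    refine Finset.sum_congr rfl fun ρ hρ => Finset.sum_congr rfl fun ρ' hρ' => ?_
    have e5 : (starRingEnd ℂ) (ee ρ v) * ee ρ' (v + h) = ee ρ' h * Complex.exp ((ρ' - ρ) * v) := by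
      have e6 := Pool.Agent.H295R2.ee_mul (ρ := ρ') (hZ ρ hρ) v
      have e7 : ee ρ' ((v + h : ℝ)) = ee ρ' v * ee ρ' h := by
        unfold ee
        rw [← Complex.exp_add]
        congr 1
        push_cast
        ring
      rw [e7, ← e6]
      ring
    rw [map_mul]
    calc (starRingEnd ℂ) (ww ρ) * (starRingEnd ℂ) (ee ρ v) * (ww ρ' * ee ρ' (v + h)) =
        (starRingEnd ℂ) (ww ρ) * ww ρ' * ((starRingEnd ℂ) (ee ρ v) * ee ρ' (v + h)) := by ring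
      _ = _ := by rw [e5]; ring
  unfold mn
  have e8 : ∫ v in (0 : ℝ)..V, ((starRingEnd ℂ) (∑ ρ ∈ Z, ww ρ * ee ρ v) * ∑ ρ ∈ Z, ww ρ * ee ρ (v + h)).re =
      (∑ ρ ∈ Z, ∑ ρ' ∈ Z, (starRingEnd ℂ) (ww ρ) * ww ρ' * ee ρ' h * GR (ρ' - ρ) V).re := by
    have e9 : (fun v : ℝ => ((starRingEnd ℂ) (∑ ρ ∈ Z, ww ρ * ee ρ v) * ∑ ρ ∈ Z, ww ρ * ee ρ (v + h)).re) =
        fun v : ℝ => (∑ ρ ∈ Z, ∑ ρ' ∈ Z, (starRingEnd ℂ) (ww ρ) * ww ρ' * ee ρ' h * Complex.exp ((ρ' - ρ) * v)).re := by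
      funext v
      rw [e4 v]
    rw [e9, intervalIntegral.integral_of_le hV.le]
    have i2 : IntegrableOn (fun v : ℝ => ∑ ρ ∈ Z, ∑ ρ' ∈ Z,
        (starRingEnd ℂ) (ww ρ) * ww ρ' * ee ρ' h * Complex.exp ((ρ' - ρ) * v)) (Ioc 0 V) :=
      Pool.Agent.H295R2.cont_iOn (by fun_prop) V
    have := integral_re i2
    simp only [RCLike.re_eq_complex_re] at this
    rw [this, integral_finsetSum]
    · congr 1
      refine Finset.sum_congr rfl fun ρ _ => ?_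
      rw [integral_finsetSum]
      · refine Finset.sum_congr rfl fun ρ' _ => ?_
        rw [integral_const_mul]; rfl
      · exact fun ρ' _ => Pool.Agent.H295R2.cont_iOn (by fun_prop) V
    · exact fun ρ _ => Pool.Agent.H295R2.cont_iOn (by fun_prop) V
  rw [e8]
  have h7 : (∑ ρ ∈ Z, ∑ ρ' ∈ Z, (starRingEnd ℂ) (ww ρ) * ww ρ' * ee ρ' h * (GR (ρ' - ρ) V / V)) =
      (∑ ρ ∈ Z, ∑ ρ' ∈ Z, (starRingEnd ℂ) (ww ρ) * ww ρ' * ee ρ' h * GR (ρ' - ρ) V) / ((V : ℝ) : ℂ) := by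
    rw [Finset.sum_div]
    refine Finset.sum_congr rfl fun ρ _ => ?_
    rw [Finset.sum_div]
    exact Finset.sum_congr rfl fun ρ' _ => by ring
  rw [h7, Complex.div_ofReal_re]

lemma am (η x y : ℝ) (hη : 0 < η) : x * y ≤ η / 2 * x ^ 2 + 1 / (2 * η) * y ^ 2 := by
  have h1 : η / 2 * x ^ 2 + 1 / (2 * η) * y ^ 2 - x * y = η / 2 * (x - y / η) ^ 2 := by
    field_simp
    ring
  have h2 : 0 ≤ η / 2 * (x - y / η) ^ 2 := by positivity
  linarith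

/-- pointwise comparison -/
lemma pw (x y : ℝ) (P Q : ℂ) {η : ℝ} (hη : 0 < η) :
    |x * y - ((starRingEnd ℂ) P * Q).re| ≤ η / 2 * x ^ 2 + η / 2 * y ^ 2 +
      ((1 / (2 * η) + 1 / 2) * ‖(x : ℂ) - P‖ ^ 2 + (1 / (2 * η) + 1 / 2) * ‖(y : ℂ) - Q‖ ^ 2) := by
  have e1 : x * y - ((starRingEnd ℂ) P * Q).re =
      ((x : ℂ) * ((y : ℂ) - Q) + (starRingEnd ℂ) ((x : ℂ) - P) * y - (starRingEnd ℂ) ((x : ℂ) - P) * ((y : ℂ) - Q)).re := by
    have e2 : (x : ℂ) * ((y : ℂ) - Q) + (starRingEnd ℂ) ((x : ℂ) - P) * y -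
        (starRingEnd ℂ) ((x : ℂ) - P) * ((y : ℂ) - Q) = ((x * y : ℝ) : ℂ) - (starRingEnd ℂ) P * Q := by
      rw [map_sub, Complex.conj_ofReal]
      push_cast
      ring
    rw [e2, Complex.sub_re, Complex.ofReal_re]
  rw [e1]
  refine (Complex.abs_re_le_norm _).trans ?_
  refine (norm_sub_le _ _).trans ?_
  refine (add_le_add (norm_add_le _ _) le_rfl).trans ?_
  rw [norm_mul, norm_mul, norm_mul, RCLike.norm_conj, Complex.norm_real, Complex.norm_real, Real.norm_eq_abs,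
    Real.norm_eq_abs]
  have a1 := am η |x| ‖(y : ℂ) - Q‖ hη
  have a2 := am η |y| ‖(x : ℂ) - P‖ hη
  have a3 := am 1 ‖(x : ℂ) - P‖ ‖(y : ℂ) - Q‖ one_pos
  rw [sq_abs] at a1 a2
  have e3 : (1 : ℝ) / (2 * 1) = 1 / 2 := by norm_num
  rw [e3] at a3
  linarith [mul_comm ‖(x : ℂ) - P‖ |y|]

/-- **the autocorrelation** -/
theorem corr (hHS : HS) (hsum : Summable (fun ρ : NT => aa ρ)) {h : ℝ} (h0 : 0 ≤ h) :
    Tendsto (mn fun v => ft v * ft (v + h)) atTop (𝓝 (∑' ρ : NT, aa ρ * Real.cos ((ρ : ℂ).im * h))) := by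
  rw [Metric.tendsto_nhds]
  intro ε hε
  set S : ℝ := ∑' ρ : NT, aa ρ with hS
  have hS0 : 0 ≤ S := tsum_nonneg fun ρ => aa_nonneg ρ
  have hsum2 : Summable (fun ρ : NT => aa ρ * Real.cos ((ρ : ℂ).im * h)) := by
    refine Summable.of_norm_bounded hsum fun ρ => ?_
    rw [norm_mul, Real.norm_of_nonneg (aa_nonneg _)]
    exact mul_le_of_le_one_right (aa_nonneg _) (by rw [Real.norm_eq_abs]; exact Real.abs_cos_le_one _)
  obtain ⟨η, hη⟩ : ∃ η : ℝ, η = ε / (12 * (S + 1)) := ⟨_, rfl⟩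
  have hη0 : 0 < η := by rw [hη]; positivity
  obtain ⟨κ, hκ⟩ : ∃ κ : ℝ, κ = 1 / (2 * η) + 1 / 2 := ⟨_, rfl⟩
  have hκ0 : 0 < κ := by rw [hκ]; positivity
  obtain ⟨δ, hδ⟩ : ∃ δ : ℝ, δ = min (ε / 8) (ε / (12 * κ)) := ⟨_, rfl⟩
  have hδ0 : 0 < δ := by rw [hδ]; positivity
  have hδ1 : δ ≤ ε / 8 := hδ ▸ min_le_left _ _
  have hδ2 : κ * δ ≤ ε / 12 := by
    have : δ ≤ ε / (12 * κ) := hδ ▸ min_le_right _ _
    calc κ * δ ≤ κ * (ε / (12 * κ)) := by gcongr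
      _ = ε / 12 := by field_simp
  obtain ⟨s, hs⟩ := exists_fz hsum hδ0
  set P : ℝ → ℂ := fun v => ∑ ρ ∈ fz s, ww ρ * ee ρ v with hP
  have hPc : Continuous P := by
    rw [hP]
    unfold ee
    fun_prop
  have h1 := dist_fin hHS hsum (fz s) fun ρ hρ => fz_mem hρ
  have h2 := hs s subset_rfl
  rw [fz_sum] at h1
  have h3 : ∀ᶠ V in atTop, mn (fun v => ‖((ft v : ℝ) : ℂ) - P v‖ ^ 2) V < δ :=
    h1.eventually (gt_mem_nhds (by linarith))
  have h3' : ∀ᶠ V : ℝ in atTop, mn (fun v => ‖((ft v : ℝ) : ℂ) - P v‖ ^ 2) (V + h) < δ :=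
    (tendsto_atTop_add_const_right atTop h tendsto_id).eventually h3
  have h4 : ∀ᶠ V in atTop, mn (fun v => ft v ^ 2) V < S + 1 :=
    (second_lim hHS hsum).eventually (gt_mem_nhds (by linarith))
  have h4' : ∀ᶠ V : ℝ in atTop, mn (fun v => ft v ^ 2) (V + h) < S + 1 :=
    (tendsto_atTop_add_const_right atTop h tendsto_id).eventually h4
  have h5 := Metric.tendsto_nhds.1 (corr_fin (fz s) (fun ρ hρ => (hHS ρ (fz_mem hρ)).1) h) (ε / 4) (by positivity)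
  -- the truncated sum
  have e1 : ∑ ρ ∈ fz s, ‖ww ρ‖ ^ 2 * Real.cos (ρ.im * h) = ∑ ρ ∈ s, aa (ρ : ℂ) * Real.cos ((ρ : ℂ).im * h) := by
    unfold fz
    rw [Finset.sum_map]
    exact Finset.sum_congr rfl fun ρ _ => by rw [aa_eq]; rfl
  have e2 : |∑ ρ ∈ s, aa (ρ : ℂ) * Real.cos ((ρ : ℂ).im * h) - ∑' ρ : NT, aa ρ * Real.cos ((ρ : ℂ).im * h)| ≤ δ := by
    have e3 := hsum2.sum_add_tsum_compl (s := s)
    have e4 := hsum.sum_add_tsum_compl (s := s)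
    have e5 : |∑' x : ((s : Set NT)ᶜ : Set NT), aa ((x : NT) : ℂ) * Real.cos (((x : NT) : ℂ).im * h)| ≤
        ∑' x : ((s : Set NT)ᶜ : Set NT), aa ((x : NT) : ℂ) := by
      have e6 := norm_tsum_le_tsum_norm (f := fun x : ((s : Set NT)ᶜ : Set NT) =>
        aa ((x : NT) : ℂ) * Real.cos (((x : NT) : ℂ).im * h)) (hsum2.norm.subtype _)
      refine e6.trans ?_
      refine Summable.tsum_le_tsum (fun x => ?_) (hsum2.norm.subtype _) (hsum.subtype _)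
      rw [norm_mul, Real.norm_of_nonneg (aa_nonneg _)]
      exact mul_le_of_le_one_right (aa_nonneg _) (by rw [Real.norm_eq_abs]; exact Real.abs_cos_le_one _)
    have e7 : ∑ ρ ∈ s, aa (ρ : ℂ) * Real.cos ((ρ : ℂ).im * h) - ∑' ρ : NT, aa ρ * Real.cos ((ρ : ℂ).im * h) =
        -∑' x : ((s : Set NT)ᶜ : Set NT), aa ((x : NT) : ℂ) * Real.cos (((x : NT) : ℂ).im * h) := by linarith
    rw [e7, abs_neg]
    linarith
  filter_upwards [h3, h3', h4, h4', h5, eventually_gt_atTop (0 : ℝ), eventually_ge_atTop h] with V g1 g1' g2 g2' g3 hV hVh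
  have hd : LB (fun v => ‖((ft v : ℝ) : ℂ) - P v‖ ^ 2) := ft_LB.normsq hPc
  have hd' : LB (fun v => ‖((ft (v + h) : ℝ) : ℂ) - P (v + h)‖ ^ 2) := LB.shift hd h0
  have hf' : LB (fun v => ft (v + h) ^ 2) := LB.shift ft_LB.sq h0
  have hprod : LB (fun v => ft v * ft (v + h)) := by
    have e : (fun v => ft v * ft (v + h)) = fun v => 1 / 4 * (ft v + ft (v + h)) ^ 2 + -1 / 4 * (ft v - ft (v + h)) ^ 2 := by
      funext v
      ring
    rw [e]
    exact (((ft_LB.add (LB.shift ft_LB h0)).sq).const_mul _).add (((ft_LB.sub (LB.shift ft_LB h0)).sq).const_mul _)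
  have hq : Continuous (fun v : ℝ => ((starRingEnd ℂ) (P v) * P (v + h)).re) :=
    Complex.continuous_re.comp ((Complex.continuous_conj.comp hPc).mul (hPc.comp (continuous_add_const h)))
  have k1 := (ft_LB.sq.const_mul (η / 2)).ii hV.le
  have k2 := (hf'.const_mul (η / 2)).ii hV.le
  have k3 := (hd.const_mul κ).ii hV.le
  have k4 := (hd'.const_mul κ).ii hV.le
  have g4 := abs_mn_sub_le (g := fun v => ft v * ft (v + h)) (h := fun v => ((starRingEnd ℂ) (P v) * P (v + h)).re)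
    (k := fun v => (η / 2 * ft v ^ 2 + η / 2 * ft (v + h) ^ 2) +
      (κ * ‖((ft v : ℝ) : ℂ) - P v‖ ^ 2 + κ * ‖((ft (v + h) : ℝ) : ℂ) - P (v + h)‖ ^ 2)) hV (hprod.ii hV.le)
    (hq.intervalIntegrable _ _) ((k1.add k2).add (k3.add k4)) (fun v _ => by
      rw [hκ]
      exact pw (ft v) (ft (v + h)) (P v) (P (v + h)) hη0)
  rw [mn_add (k1.add k2) (k3.add k4), mn_add k1 k2, mn_add k3 k4, mn_const_mul, mn_const_mul, mn_const_mul,
    mn_const_mul] at g4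
  have g5 := mn_shift ft_LB.sq (fun v => sq_nonneg _) h0 hV hVh
  have g6 := mn_shift hd (fun v => by positivity) h0 hV hVh
  have g7 : mn (fun v => ft (v + h) ^ 2) V ≤ 2 * (S + 1) := by linarith
  have g8 : mn (fun v => ‖((ft (v + h) : ℝ) : ℂ) - P (v + h)‖ ^ 2) V ≤ 2 * δ := by linarith
  have g9 : η / 2 * mn (fun v => ft v ^ 2) V + η / 2 * mn (fun v => ft (v + h) ^ 2) V ≤ ε / 8 := by
    calc η / 2 * mn (fun v => ft v ^ 2) V + η / 2 * mn (fun v => ft (v + h) ^ 2) V ≤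
        η / 2 * (S + 1) + η / 2 * (2 * (S + 1)) := by gcongr
      _ = ε / 8 := by rw [hη]; field_simp; ring
  have g10 : κ * mn (fun v => ‖((ft v : ℝ) : ℂ) - P v‖ ^ 2) V +
      κ * mn (fun v => ‖((ft (v + h) : ℝ) : ℂ) - P (v + h)‖ ^ 2) V ≤ ε / 4 := by
    calc κ * mn (fun v => ‖((ft v : ℝ) : ℂ) - P v‖ ^ 2) V +
        κ * mn (fun v => ‖((ft (v + h) : ℝ) : ℂ) - P (v + h)‖ ^ 2) V ≤ κ * δ + κ * (2 * δ) := by gcongr
      _ ≤ ε / 4 := by linarith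
  rw [Real.dist_eq] at g3 ⊢
  rw [e1] at g3
  set A := mn (fun v => ft v * ft (v + h)) V
  set B := mn (fun v => ((starRingEnd ℂ) (P v) * P (v + h)).re) V
  set D := ∑ ρ ∈ s, aa (ρ : ℂ) * Real.cos ((ρ : ℂ).im * h)
  set F := ∑' ρ : NT, aa ρ * Real.cos ((ρ : ℂ).im * h)
  have g11 : |B - D| < ε / 4 := g3
  rw [abs_le] at g4 e2
  rw [abs_lt] at g11 ⊢
  constructor <;> linarith

/-- from a limit to a bound for all `x ≥ 2` -/
theorem bdd_of_lim {S : ℝ} (h3 : Tendsto (fun x : ℝ => II x / Real.log x) atTop (𝓝 S)) :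
    ∃ C : ℝ, ∀ x : ℝ, 2 ≤ x → II x ≤ C * Real.log x := by
  have hmono : ∀ x y : ℝ, 1 ≤ x → x ≤ y → II x ≤ II y := by
    intro x y hx hxy
    rw [Pool.Agent.H295R2.II_eq hx, Pool.Agent.H295R2.II_eq (hx.trans hxy)]
    exact Pool.Agent.H295R2.JJ_mono (Real.log_le_log (by linarith) hxy)
  have hnn : ∀ x : ℝ, 1 ≤ x → 0 ≤ II x := by
    intro x hx
    rw [Pool.Agent.H295R2.II_eq hx]
    exact Pool.Agent.H295R2.JJ_nonneg _
  have h4 : ∀ᶠ x : ℝ in atTop, II x / Real.log x < S + 1 := h3.eventually (gt_mem_nhds (by linarith))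
  obtain ⟨X, hX⟩ := (h4.and (eventually_ge_atTop (2 : ℝ))).exists_forall_of_atTop
  have hl2 : 0 < Real.log 2 := Real.log_pos (by norm_num)
  have hI0 : 0 ≤ II X := hnn X (by linarith [(hX X le_rfl).2])
  have hS : 0 ≤ S + 1 := by
    have h5 := (hX X le_rfl).1
    have h6 : 0 ≤ Real.log X := Real.log_nonneg (by linarith [(hX X le_rfl).2])
    exact (div_nonneg hI0 h6).trans h5.le
  refine ⟨S + 1 + II X / Real.log 2, fun x hx => ?_⟩
  have hlx : Real.log 2 ≤ Real.log x := Real.log_le_log (by norm_num) hx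
  have hlx0 : 0 ≤ Real.log x := hl2.le.trans hlx
  rw [add_mul]
  rcases le_total X x with h | h
  · have h5 := (hX x h).1
    rw [div_lt_iff₀ (by linarith)] at h5
    have h6 : 0 ≤ II X / Real.log 2 * Real.log x := mul_nonneg (div_nonneg hI0 hl2.le) hlx0
    linarith
  · have h5 := hmono x X (by linarith) h
    have h6 : II X ≤ II X / Real.log 2 * Real.log x := by
      rw [div_mul_eq_mul_div, le_div_iff₀ hl2]
      gcongr
    have h7 : 0 ≤ (S + 1) * Real.log x := mul_nonneg hS hlx0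
    linarith

end Pool.Agent.H313.ZC
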