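import Pool.Agent.H313.ZC.Stm

set_option autoImplicit false

namespace Pool.Agent.H313.ZC.Conj

open Pool.Agent.H313.ZC

theorem t_conj : S_CONJ := by
  refine ⟨fun s => riemannZeta_conj s, fun s _ => ?_⟩
  have h6 : (starRingEnd ℂ) ∘ riemannZeta ∘ (starRingEnd ℂ) = riemannZeta := by
    ext s
    simp only [Function.comp]
    rw [riemannZeta_conj, Complex.conj_conj]
  have h5 := congrFun (deriv_conj_conj (𝕜 := ℂ) (f := riemannZeta)) ((starRingEnd ℂ) s)
  rw [h6] at h5
  simp only [Function.comp, Complex.conj_conj] at h5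
  exact h5

end Pool.Agent.H313.ZC.Conj
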