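import Pool.Agent.H313.ZC.Stm
import Pool.Graph.R_seed8.H295R2.M
import Pool.Graph.R_seed8.H295R2.Lap
import Pool.Graph.R_seed8.W150.WM.Inv

/-!
# Project ZC (helper313), MP_323ce2_nt: the Laplace transform of `M(e^y)` under RH (`S_LAP`)
-/

set_option autoImplicit false

open MeasureTheory Filter Topology Set

namespace Pool.Agent.H313.ZC.Lap

open Pool.Agent.W120.WM (Mx gk Sm EE GG NT)

/-- the Mertens function in logarithmic scale -/
noncomputable def km (y : ℝ) : ℂ := ((Mx (Real.exp y) : ℝ) : ℂ)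

lemma zs_ne {s : ℂ} (hRH : RHz) (hs : 1 / 2 < s.re) : Pool.Agent.H295R2.Zs s ≠ 0 := by
  rcases le_or_gt 1 s.re with h | h
  · exact Pool.Agent.H295R2.Zs_ne_zero_of_one_le h
  · have hs1 : s ≠ 1 := by
      rintro rfl
      rw [Complex.one_re] at h
      exact lt_irrefl _ h
    rw [← Pool.Agent.H295R2.Zs_eq hs1]
    refine mul_ne_zero (sub_ne_zero.mpr hs1) fun h0 => ?_
    have := hRH s ⟨h0, by linarith, h⟩
    linarith

lemma nice (hRH : RHz) {σ : ℝ} (h1 : 1 / 2 < σ) (h2 : σ ≤ 2) :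
    ∃ C : ℝ, Pool.Agent.H295R2.Nice km C σ 0 := by
  obtain ⟨C, hC, hb⟩ := Pool.Agent.H295R2.mertens_bound (θ := 1 / 2) (σ := σ) (by norm_num)
    (fun s hs => zs_ne hRH hs) h1 h2
  refine ⟨C, ?_, ?_, ?_⟩
  · exact Complex.measurable_ofReal.comp Pool.Agent.W150.WM.mx_meas
  · intro u
    unfold km
    rw [Complex.norm_real, Real.norm_eq_abs]
    rcases lt_or_ge u 0 with hu | hu
    · rw [Pool.Agent.W150.WM.mx_zero hu, abs_zero]
      positivity
    · have := hb (Real.exp u) (Real.one_le_exp hu)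
      rw [← Real.exp_mul, mul_comm u σ] at this
      exact this
  · intro u hu
    unfold km
    rw [Pool.Agent.W150.WM.mx_zero hu, Complex.ofReal_zero]

lemma diff (hRH : RHz) {s : ℂ} (hs : 1 / 2 < s.re) :
    DifferentiableAt ℂ (Pool.Agent.H295R2.Lap km) s := by
  obtain ⟨σ, h1, h2⟩ := exists_between (lt_min hs (by norm_num : (1 / 2 : ℝ) < 2))
  obtain ⟨C, hC⟩ := nice hRH h1 (h2.le.trans (min_le_right _ _))
  exact hC.Lap_differentiableAt (h2.trans_le (min_le_left _ _))

lemma key (hRH : RHz) {s : ℂ} (hs : 1 / 2 < s.re) :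
    s * Pool.Agent.H295R2.Zs s * Pool.Agent.H295R2.Lap km s = s - 1 := by
  have hU : IsOpen {z : ℂ | 1 / 2 < z.re} := isOpen_lt continuous_const Complex.continuous_re
  have hpre : IsPreconnected {z : ℂ | 1 / 2 < z.re} := (convex_halfSpace_re_gt _).isPreconnected
  have hf : AnalyticOnNhd ℂ (fun z : ℂ => z * Pool.Agent.H295R2.Zs z * Pool.Agent.H295R2.Lap km z)
      {z : ℂ | 1 / 2 < z.re} := by
    refine DifferentiableOn.analyticOnNhd (fun z hz => ?_) hU
    exact ((differentiableAt_id.mul (Pool.Agent.H295R2.Zs_differentiable z)).mul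
      (diff hRH hz)).differentiableWithinAt
  have hg : AnalyticOnNhd ℂ (fun z : ℂ => z - 1) {z : ℂ | 1 / 2 < z.re} :=
    DifferentiableOn.analyticOnNhd (by fun_prop) hU
  refine hf.eqOn_of_preconnected_of_eventuallyEq hg hpre
    (z₀ := 2) (by norm_num) ?_ hs
  have hV : {z : ℂ | 1 < z.re} ∈ 𝓝 (2 : ℂ) :=
    (isOpen_lt continuous_const Complex.continuous_re).mem_nhds (by norm_num)
  filter_upwards [hV] with z hz
  have hz' : 1 < z.re := hz
  have hz0 : z ≠ 0 := by
    rintro rfl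
    rw [Complex.zero_re] at hz'
    linarith
  have hz1 : z ≠ 1 := by
    rintro rfl
    rw [Complex.one_re] at hz'
    linarith
  have hzz : riemannZeta z ≠ 0 := riemannZeta_ne_zero_of_one_lt_re hz'
  have h1 : Pool.Agent.H295R2.Lap km z = (z * riemannZeta z)⁻¹ :=
    (Pool.Agent.W150.WM.inv_zeta z hz').symm
  rw [h1, ← Pool.Agent.H295R2.Zs_eq hz1]
  field_simp

/-- JOB LAP -/
theorem t_lap : S_LAP := by
  intro hRH c hc
  obtain ⟨σ, h1, h2⟩ := exists_between (lt_min hc (by norm_num : (1 / 2 : ℝ) < 2))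
  obtain ⟨C, hC⟩ := nice hRH h1 (h2.le.trans (min_le_right _ _))
  constructor
  · have h3 := (hC.integrable (s := (c : ℂ)) (by
      rw [Complex.ofReal_re]
      exact h2.trans_le (min_le_left _ _))).re
    refine h3.congr (ae_of_all _ fun y => ?_)
    have h4 : km y * Complex.exp (-((c : ℂ) * (y : ℂ))) =
        ((Mx (Real.exp y) * Real.exp (-(c * y)) : ℝ) : ℂ) := by
      unfold km
      push_cast
      rfl
    show (km y * Complex.exp (-((c : ℂ) * (y : ℂ)))).re = _
    rw [h4, Complex.ofReal_re]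
  · intro s hs hs1
    have hs2 : 1 / 2 < s.re := by rw [hs]; exact hc
    have h3 := key hRH hs2
    rw [← Pool.Agent.H295R2.Zs_eq hs1] at h3
    have h4 : s * riemannZeta s * Pool.Agent.H295R2.Lap km s = 1 := by
      have h5 : (s - 1) * (s * riemannZeta s * Pool.Agent.H295R2.Lap km s) = (s - 1) * 1 := by
        rw [mul_one]
        refine Eq.trans ?_ h3
        ring
      exact mul_left_cancel₀ (sub_ne_zero.mpr hs1) h5
    exact inv_eq_of_mul_eq_one_right h4

end Pool.Agent.H313.ZC.Lap
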