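import Pool.Agent.H313.ZC.Stm2
import Pool.Agent.H313.ZC.Lap
import Pool.Graph.R_seed8.H295R2.Avg
import Pool.Graph.R_seed8.H295R2.L

/-!
# Project ZC, second part: the mean square of the increments of `M(e^v)` under RH (`S_INC`)
-/

set_option autoImplicit false

open MeasureTheory Filter Topology Set

namespace Pool.Agent.H313.ZC.Inc

open Pool.Agent.W120.WM (Mx gk Sm EE GG NT)
open Pool.Agent.H313.ZC.Lap (km nice zs_ne key)
open Pool.Agent.H295R2 (Nice Lap fz Zs phi)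

/-- the increment -/
noncomputable def inc (h : ℝ) (v : ℝ) : ℂ := km (v + h) - km v

theorem inc_nice {C σ h : ℝ} (hk : Nice km C σ 0) (hσ : 0 < σ) (h0 : 0 < h) (h1 : h ≤ 1) :
    Nice (inc h) (C * (Real.exp σ + 1)) σ (-h) where
  meas := (hk.meas.comp (measurable_id.add_const h)).sub hk.meas
  bound := by
    intro u
    have hC := hk.C_nonneg
    unfold inc
    refine (norm_sub_le _ _).trans ?_
    have e1 := hk.bound (u + h)
    have e2 := hk.bound u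
    have e3 : Real.exp (σ * (u + h)) ≤ Real.exp σ * Real.exp (σ * u) := by
      rw [← Real.exp_add]
      refine Real.exp_le_exp.2 ?_
      nlinarith
    have e4 := mul_le_mul_of_nonneg_left e3 hC
    calc ‖km (u + h)‖ + ‖km u‖ ≤ C * (Real.exp σ * Real.exp (σ * u)) + C * Real.exp (σ * u) := by
          linarith
      _ = C * (Real.exp σ + 1) * Real.exp (σ * u) := by ring
  zero := by
    intro u hu
    unfold inc
    rw [hk.zero (u + h) (by linarith), hk.zero u (by linarith), sub_zero]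

theorem lap_inc {C σ h : ℝ} (hk : Nice km C σ 0) {s : ℂ} (hs : σ < s.re) :
    Lap (inc h) s = (Complex.exp (s * h) - 1) * Lap km s := by
  have e1 := hk.Lap_shift s h
  have i1 := hk.shift_integrable hs h
  have i2 := hk.integrable hs
  have e2 : Lap (inc h) s = (∫ u : ℝ, km (u + h) * Complex.exp (-(s * u))) -
      ∫ u : ℝ, km u * Complex.exp (-(s * u)) := by
    rw [← integral_sub i1 i2]
    unfold Lap inc
    refine integral_congr_ae (Eventually.of_forall fun u => ?_)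
    show (km (u + h) - km u) * Complex.exp (-(s * u)) =
      km (u + h) * Complex.exp (-(s * u)) - km u * Complex.exp (-(s * u))
    ring
  rw [e2, e1, sub_mul, one_mul]
  rfl

theorem exp_bound {h β : ℝ} {s : ℂ} (h0 : 0 < h) (h1 : h ≤ 1) (hs : 0 < s.re) (hs2 : s.re ≤ 2)
    (hβ : 0 ≤ β) (hβ1 : β ≤ 1) : ‖Complex.exp (s * h) - 1‖ ≤ 11 * (h * ‖s‖) ^ β := by
  have hs0 : s ≠ 0 := by
    rintro rfl
    rw [Complex.zero_re] at hs
    exact lt_irrefl _ hs
  have hn : 0 < ‖s‖ := norm_pos_iff.2 hs0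
  have hp : 0 < h * ‖s‖ := mul_pos h0 hn
  have e : Complex.exp (s * h) - 1 = phi h s * (s * h) := by
    unfold phi
    have : s * (h : ℂ) ≠ 0 := mul_ne_zero hs0 (by exact_mod_cast h0.ne')
    rw [div_mul_cancel₀ _ this]
  have en : ‖s * (h : ℂ)‖ = h * ‖s‖ := by
    rw [norm_mul, Complex.norm_real, Real.norm_of_nonneg h0.le, mul_comm]
  rw [e, norm_mul, en]
  rcases le_total (h * ‖s‖) 1 with hle | hge
  · have b1 := Pool.Agent.H295R2.norm_phi_le h0 h1 hs hs2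
    have b2 : h * ‖s‖ ≤ (h * ‖s‖) ^ β := by
      calc h * ‖s‖ = (h * ‖s‖) ^ (1 : ℝ) := (Real.rpow_one _).symm
        _ ≤ (h * ‖s‖) ^ β := Real.rpow_le_rpow_of_exponent_ge hp hle hβ1
    calc ‖phi h s‖ * (h * ‖s‖) ≤ 10 * (h * ‖s‖) := mul_le_mul_of_nonneg_right b1 hp.le
      _ ≤ 11 * (h * ‖s‖) ^ β := by linarith
  · have b1 := Pool.Agent.H295R2.norm_phi_le' h0 h1 hs hs2
    have b2 : 1 ≤ (h * ‖s‖) ^ β := Real.one_le_rpow hge hβ
    calc ‖phi h s‖ * (h * ‖s‖) ≤ 11 / (h * ‖s‖) * (h * ‖s‖) := mul_le_mul_of_nonneg_right b1 hp.le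
      _ = 11 := by field_simp
      _ ≤ 11 * (h * ‖s‖) ^ β := by linarith

theorem lap_km (hRH : RHz) {s : ℂ} (hs : 1 / 2 < s.re) : Lap km s = fz s / s := by
  have h1 := key hRH hs
  have hz := zs_ne hRH hs
  have hs0 : s ≠ 0 := by
    rintro rfl
    rw [Complex.zero_re] at hs
    linarith
  unfold fz
  rw [div_div, eq_div_iff (mul_ne_zero hz hs0), ← h1]
  ring

theorem norm_ge {c t : ℝ} (hc : 1 / 2 < c) {s : ℂ} (hs : s.re = c) (ht : s.im = t) :
    (1 + |t|) / 3 ≤ ‖s‖ := by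
  have h1 : |s.re| ≤ ‖s‖ := Complex.abs_re_le_norm s
  have h2 : |s.im| ≤ ‖s‖ := Complex.abs_im_le_norm s
  rw [hs, abs_of_pos (by linarith)] at h1
  rw [ht] at h2
  rcases le_total |t| (1 / 2) with h | h
  · linarith
  · linarith

theorem t_inc : S_INC := by
  intro hRH c ε hc hc1 hε hε1
  obtain ⟨σ, hσ1, hσ2⟩ := exists_between hc
  obtain ⟨C0, hk⟩ := nice hRH hσ1 (by linarith)
  obtain ⟨C1, hC1, hf⟩ := Pool.Agent.H295R2.fz_bound (θ := 1 / 2) (σ := c) (ε := ε / 8) (by norm_num)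
    (fun s hs => zs_ne hRH hs) hc (by linarith)
  have hr : ((Module.finrank ℝ ℝ : ℕ) : ℝ) < 1 + 3 * ε / 4 := by
    rw [Module.finrank_self]
    push_cast
    linarith
  have hI0 : Integrable (fun x : ℝ => (1 + ‖x‖) ^ (-(1 + 3 * ε / 4))) := integrable_one_add_norm hr
  have hI1 : Integrable (fun ξ : ℝ => (1 + ‖2 * Real.pi * ξ‖) ^ (-(1 + 3 * ε / 4))) :=
    hI0.comp_mul_left' (by positivity : (2 * Real.pi) ≠ 0)
  set K := ∫ ξ : ℝ, (1 + ‖2 * Real.pi * ξ‖) ^ (-(1 + 3 * ε / 4)) with hK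
  have hK0 : 0 ≤ K := integral_nonneg fun ξ => by positivity
  refine ⟨1089 * C1 ^ 2 * K + 1, by positivity, fun h h0 h1 => ?_⟩
  have hσ0 : 0 < σ := by linarith
  have hn := inc_nice hk hσ0 h0 h1
  obtain ⟨p1, p2⟩ := Pool.Agent.H295R2.plancherel_Lap hn hσ2
  -- the bound of the transform
  have hb : ∀ ξ : ℝ, ‖Lap (inc h) (c + 2 * Real.pi * ξ * Complex.I)‖ ^ 2 ≤
      1089 * C1 ^ 2 * h ^ (1 - ε) * (1 + ‖2 * Real.pi * ξ‖) ^ (-(1 + 3 * ε / 4)) := by
    intro ξ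
    obtain ⟨s, hs⟩ : ∃ s : ℂ, s = c + 2 * Real.pi * ξ * Complex.I := ⟨_, rfl⟩
    rw [← hs]
    have hre : s.re = c := by
      rw [hs]
      simp
    have him : s.im = 2 * Real.pi * ξ := by
      rw [hs]
      simp
    have hs12 : 1 / 2 < s.re := by rw [hre]; exact hc
    rw [lap_inc hk (by rw [hre]; exact hσ2), lap_km hRH hs12, Real.norm_eq_abs]
    have b1 := exp_bound (β := (1 - ε) / 2) (s := s) h0 h1 (by linarith) (by rw [hre]; linarith)
      (by linarith) (by linarith)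
    have b2 := hf s (by rw [hre]) (by rw [hre]; linarith)
    rw [him] at b2
    have b3 := norm_ge hc hre him
    obtain ⟨t, ht⟩ : ∃ t, t = 2 * Real.pi * ξ := ⟨_, rfl⟩
    rw [← ht] at b2 b3 ⊢
    have hu : 0 < 1 + |t| := by positivity
    have hsn : 0 < ‖s‖ := lt_of_lt_of_le (by positivity) b3
    have b4 : ‖(Complex.exp (s * h) - 1) * (fz s / s)‖ ≤
        11 * (h * ‖s‖) ^ ((1 - ε) / 2) * (C1 * (1 + |t|) ^ (ε / 8) / ‖s‖) := by
      rw [norm_mul, norm_div]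
      refine mul_le_mul b1 ?_ (by positivity) (by positivity)
      exact div_le_div_of_nonneg_right b2 hsn.le
    have b5 : ‖(Complex.exp (s * h) - 1) * (fz s / s)‖ ^ 2 ≤
        (11 * (h * ‖s‖) ^ ((1 - ε) / 2) * (C1 * (1 + |t|) ^ (ε / 8) / ‖s‖)) ^ 2 :=
      pow_le_pow_left₀ (norm_nonneg _) b4 2
    refine b5.trans ?_
    have e1 : ((h * ‖s‖) ^ ((1 - ε) / 2)) ^ 2 = h ^ (1 - ε) * ‖s‖ ^ (1 - ε) := by
      rw [← Real.rpow_natCast, ← Real.rpow_mul (by positivity), Real.mul_rpow h0.le hsn.le]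
      congr 2 <;> push_cast <;> ring
    have e2 : ((1 + |t|) ^ (ε / 8)) ^ 2 = (1 + |t|) ^ (ε / 4) := by
      rw [← Real.rpow_natCast, ← Real.rpow_mul hu.le]
      congr 1
      push_cast
      ring
    have e3 : ‖s‖ ^ (1 - ε) / ‖s‖ ^ 2 = ‖s‖ ^ (-(1 + ε)) := by
      rw [← Real.rpow_natCast, ← Real.rpow_sub hsn]
      congr 1
      push_cast
      ring
    have e4 : ‖s‖ ^ (-(1 + ε)) ≤ 9 * (1 + |t|) ^ (-(1 + ε)) := by
      have f1 : ‖s‖ ^ (-(1 + ε)) ≤ ((1 + |t|) / 3) ^ (-(1 + ε)) :=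
        Real.rpow_le_rpow_of_nonpos (by positivity) b3 (by linarith)
      refine f1.trans ?_
      rw [Real.div_rpow hu.le (by norm_num), div_eq_mul_inv, ← Real.rpow_neg (by norm_num), neg_neg,
        mul_comm]
      refine mul_le_mul_of_nonneg_right ?_ (by positivity)
      calc (3 : ℝ) ^ (1 + ε) ≤ 3 ^ (2 : ℝ) :=
            Real.rpow_le_rpow_of_exponent_le (by norm_num) (by linarith)
        _ = 9 := by norm_num
    have e5 : (1 + |t|) ^ (-(1 + ε)) * (1 + |t|) ^ (ε / 4) = (1 + |t|) ^ (-(1 + 3 * ε / 4)) := by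
      rw [← Real.rpow_add hu]
      congr 1
      ring
    calc (11 * (h * ‖s‖) ^ ((1 - ε) / 2) * (C1 * (1 + |t|) ^ (ε / 8) / ‖s‖)) ^ 2
        = 121 * C1 ^ 2 * (((h * ‖s‖) ^ ((1 - ε) / 2)) ^ 2 * ((1 + |t|) ^ (ε / 8)) ^ 2 / ‖s‖ ^ 2) := by
          field_simp
          ring
      _ = 121 * C1 ^ 2 * (h ^ (1 - ε) * ((‖s‖ ^ (1 - ε) / ‖s‖ ^ 2) * (1 + |t|) ^ (ε / 4))) := by
          rw [e1, e2]
          ring
      _ ≤ 121 * C1 ^ 2 * (h ^ (1 - ε) * ((9 * (1 + |t|) ^ (-(1 + ε))) * (1 + |t|) ^ (ε / 4))) := by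
          rw [e3]
          gcongr
      _ = 1089 * C1 ^ 2 * h ^ (1 - ε) * ((1 + |t|) ^ (-(1 + ε)) * (1 + |t|) ^ (ε / 4)) := by ring
      _ = _ := by rw [e5]
  have hint : ∫ ξ : ℝ, ‖Lap (inc h) (c + 2 * Real.pi * ξ * Complex.I)‖ ^ 2 ≤
      1089 * C1 ^ 2 * h ^ (1 - ε) * K := by
    rw [hK, ← integral_const_mul]
    exact integral_mono p1 (hI1.const_mul _) hb
  rw [p2] at hint
  -- integrability
  have hn2 : Nice (fun u => ((‖inc h u‖ ^ 2 : ℝ) : ℂ)) ((C0 * (Real.exp σ + 1)) ^ 2) (2 * σ) (-h) := by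
    refine ⟨?_, ?_, ?_⟩
    · exact Complex.measurable_ofReal.comp (hn.meas.norm.pow_const 2)
    · intro u
      rw [Complex.norm_real, Real.norm_of_nonneg (by positivity)]
      have e1 : Real.exp (2 * σ * u) = Real.exp (σ * u) ^ 2 := by
        rw [← Real.exp_nat_mul]
        congr 1
        push_cast
        ring
      rw [e1, ← mul_pow]
      exact pow_le_pow_left₀ (norm_nonneg _) (hn.bound u) 2
    · intro u hu
      show ((‖inc h u‖ ^ 2 : ℝ) : ℂ) = 0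
      rw [hn.zero u hu]
      simp
  have hi := (hn2.integrable (s := ((2 * c : ℝ) : ℂ)) (by rw [Complex.ofReal_re]; linarith)).re
  have hfun : ∀ v : ℝ, (Mx (Real.exp (v + h)) - Mx (Real.exp v)) ^ 2 * Real.exp (-(2 * c * v)) =
      ‖inc h v‖ ^ 2 * Real.exp (-(2 * c * v)) := by
    intro v
    have e1 : inc h v = ((Mx (Real.exp (v + h)) - Mx (Real.exp v) : ℝ) : ℂ) := by
      unfold inc km
      push_cast
      rfl
    rw [e1, Complex.norm_real, Real.norm_eq_abs, sq_abs]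
  have hi2 : Integrable (fun u : ℝ => ‖inc h u‖ ^ 2 * Real.exp (-(2 * c * u))) := by
    refine hi.congr (Eventually.of_forall fun u => ?_)
    have e1 : ((‖inc h u‖ ^ 2 : ℝ) : ℂ) * Complex.exp (-(((2 * c : ℝ) : ℂ) * (u : ℂ))) =
        ((‖inc h u‖ ^ 2 * Real.exp (-(2 * c * u)) : ℝ) : ℂ) := by
      push_cast
      rfl
    show (((‖inc h u‖ ^ 2 : ℝ) : ℂ) * Complex.exp (-(((2 * c : ℝ) : ℂ) * (u : ℂ)))).re = _
    rw [e1, Complex.ofReal_re]
  simp only [hfun]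
  rw [← ofReal_integral_eq_lintegral_ofReal hi2 (Eventually.of_forall fun u => by positivity)]
  refine ENNReal.ofReal_le_ofReal (hint.trans ?_)
  have hh : 0 < h ^ (1 - ε) := Real.rpow_pos_of_pos h0 _
  nlinarith

end Pool.Agent.H313.ZC.Inc
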