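import Pool.Agent.H313.ZC.Stm2

/-!
# Project ZC (helper313), MP_323ce2_nt: the maximal function of short interval increments (`S_MAX`), by helper357
-/

set_option autoImplicit false

namespace Pool.Agent.H313.ZC.Max

open MeasureTheory Filter Topology Set
open Pool.Agent.W120.WM (Mx NT)
open Pool.Agent.Q299.FA.WO (D D_nonneg D_meas D_att)

/-! ## The Mertens function -/

/-- the Mertens function in logarithmic scale -/
noncomputable def g (v : ℝ) : ℝ := Mx (Real.exp v)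

theorem g_meas : Measurable g := by
  have h1 : Measurable (fun n : ℕ => ∑ m ∈ Finset.Icc 1 n,
      ((ArithmeticFunction.moebius m : ℤ) : ℝ)) := measurable_of_countable _
  exact h1.comp (Nat.measurable_floor.comp Real.measurable_exp)

theorem mx_sub {A B : ℝ} (hA : 0 ≤ A) (hAB : A ≤ B) : |Mx B - Mx A| ≤ B - A + 1 := by
  have hfl : ⌊A⌋₊ ≤ ⌊B⌋₊ := Nat.floor_mono hAB
  have h1 : Mx B - Mx A = ∑ n ∈ Finset.Ioc ⌊A⌋₊ ⌊B⌋₊, ((ArithmeticFunction.moebius n : ℤ) : ℝ) := by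
    unfold Mx
    have hs : Finset.Icc 1 ⌊B⌋₊ = Finset.Icc 1 ⌊A⌋₊ ∪ Finset.Ioc ⌊A⌋₊ ⌊B⌋₊ := by
      ext m
      simp only [Finset.mem_Icc, Finset.mem_union, Finset.mem_Ioc]
      omega
    have hd : Disjoint (Finset.Icc 1 ⌊A⌋₊) (Finset.Ioc ⌊A⌋₊ ⌊B⌋₊) := by
      rw [Finset.disjoint_left]
      intro m hm hm'
      rw [Finset.mem_Icc] at hm
      rw [Finset.mem_Ioc] at hm'
      omega
    rw [hs, Finset.sum_union hd]
    ring
  rw [h1]
  refine (Finset.abs_sum_le_sum_abs _ _).trans ?_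
  have h2 : ∀ n ∈ Finset.Ioc ⌊A⌋₊ ⌊B⌋₊, |((ArithmeticFunction.moebius n : ℤ) : ℝ)| ≤ 1 := by
    intro n _
    have := ArithmeticFunction.abs_moebius_le_one (n := n)
    exact_mod_cast this
  refine (Finset.sum_le_sum h2).trans ?_
  rw [Finset.sum_const, nsmul_eq_mul, mul_one, Nat.card_Ioc, Nat.cast_sub hfl]
  have h3 : (⌊B⌋₊ : ℝ) ≤ B := Nat.floor_le (hA.trans hAB)
  have h4 : A < ⌊A⌋₊ + 1 := Nat.lt_floor_add_one A
  linarith

theorem g_near {p q : ℝ} (hpq : p ≤ q) (h : Real.exp q * (q - p) ≤ 1) : |g q - g p| ≤ 2 := by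
  unfold g
  have h1 : Real.exp p ≤ Real.exp q := Real.exp_le_exp.2 hpq
  have h2 := mx_sub (Real.exp_pos p).le h1
  have h3 : Real.exp q * (p - q + 1) ≤ Real.exp p := by
    have h4 := Real.add_one_le_exp (p - q)
    have h5 : Real.exp p = Real.exp q * Real.exp (p - q) := by
      rw [← Real.exp_add]
      congr 1
      ring
    rw [h5]
    exact mul_le_mul_of_nonneg_left h4 (Real.exp_pos q).le
  nlinarith

/-! ## Chaining -/

/-- the sum of the squares of the increments on the dyadic scale `L/2^j` -/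
noncomputable def Sq (f : ℝ → ℝ) (L : ℝ) (j : ℕ) (x : ℝ) : ℝ :=
  ∑ i ∈ Finset.range (2 ^ j), (f (x + i * (L / 2 ^ j) + L / 2 ^ j) - f (x + i * (L / 2 ^ j))) ^ 2

theorem Sq_nonneg (f : ℝ → ℝ) (L : ℝ) (j : ℕ) (x : ℝ) : 0 ≤ Sq f L j x :=
  Finset.sum_nonneg fun _ _ => sq_nonneg _

theorem Sq_ge (f : ℝ → ℝ) (L : ℝ) (j : ℕ) (x : ℝ) {i : ℕ} (hi : i < 2 ^ j) :
    |f (x + i * (L / 2 ^ j) + L / 2 ^ j) - f (x + i * (L / 2 ^ j))| ≤ Real.sqrt (Sq f L j x) := by
  rw [← Real.sqrt_sq_eq_abs]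
  refine Real.sqrt_le_sqrt ?_
  exact Finset.single_le_sum
    (f := fun i : ℕ => (f (x + i * (L / 2 ^ j) + L / 2 ^ j) - f (x + i * (L / 2 ^ j))) ^ 2)
    (fun _ _ => sq_nonneg _) (Finset.mem_range.2 hi)

theorem chain (f : ℝ → ℝ) (L x : ℝ) (J : ℕ) : ∀ m : ℕ, m ≤ 2 ^ J →
    |f (x + m * (L / 2 ^ J)) - f x| ≤ ∑ j ∈ Finset.range (J + 1), Real.sqrt (Sq f L j x) := by
  induction J with
  | zero =>
    intro m hm
    rw [Finset.sum_range_one]
    have hm' : m = 0 ∨ m = 1 := by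
      rw [pow_zero] at hm
      omega
    rcases hm' with rfl | rfl
    · have h1 : x + ((0 : ℕ) : ℝ) * (L / 2 ^ 0) = x := by
        push_cast
        ring
      rw [h1, sub_self, abs_zero]
      exact Real.sqrt_nonneg _
    · have h2 := Sq_ge f L 0 x (i := 0) (by norm_num)
      have h1 : x + ((0 : ℕ) : ℝ) * (L / 2 ^ 0) = x := by
        push_cast
        ring
      have h3 : x + ((1 : ℕ) : ℝ) * (L / 2 ^ 0) = x + L / 2 ^ 0 := by
        push_cast
        ring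
      rw [h1] at h2
      rw [h3]
      exact h2
  | succ J ih =>
    intro m hm
    rw [Finset.sum_range_succ]
    have hL : (2 : ℝ) * (L / 2 ^ (J + 1)) = L / 2 ^ J := by
      rw [pow_succ]
      field_simp
    obtain ⟨k, hk | hk⟩ := Nat.even_or_odd' m
    · have hk2 : k ≤ 2 ^ J := by
        rw [pow_succ] at hm
        omega
      have h1 : x + (m : ℝ) * (L / 2 ^ (J + 1)) = x + (k : ℝ) * (L / 2 ^ J) := by
        rw [← hL, hk]
        push_cast
        ring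
      rw [h1]
      exact (ih k hk2).trans (le_add_of_nonneg_right (Real.sqrt_nonneg _))
    · have hk2 : k ≤ 2 ^ J := by
        rw [pow_succ] at hm
        omega
      have hk3 : 2 * k < 2 ^ (J + 1) := by omega
      have h1 : x + ((2 * k : ℕ) : ℝ) * (L / 2 ^ (J + 1)) = x + (k : ℝ) * (L / 2 ^ J) := by
        rw [← hL]
        push_cast
        ring
      have h2 := Sq_ge f L (J + 1) x hk3
      rw [h1] at h2
      have h3 : x + (m : ℝ) * (L / 2 ^ (J + 1)) = x + (k : ℝ) * (L / 2 ^ J) + L / 2 ^ (J + 1) := by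
        rw [← h1, hk]
        push_cast
        ring
      rw [h3]
      have h4 := ih k hk2
      have h5 : f (x + (k : ℝ) * (L / 2 ^ J) + L / 2 ^ (J + 1)) - f x =
          (f (x + (k : ℝ) * (L / 2 ^ J)) - f x) +
            (f (x + (k : ℝ) * (L / 2 ^ J) + L / 2 ^ (J + 1)) - f (x + (k : ℝ) * (L / 2 ^ J))) := by
        ring
      rw [h5]
      exact (abs_add_le _ _).trans (add_le_add h4 h2)

theorem chain_g {L x w : ℝ} (J : ℕ) (hL : 0 < L) (hw0 : 0 ≤ w) (hw : w ≤ L)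
    (hJ : Real.exp (x + L) * (L / 2 ^ J) ≤ 1) :
    |g (x + w) - g x| ≤ 2 + ∑ j ∈ Finset.range (J + 1), Real.sqrt (Sq g L j x) := by
  have hh : 0 < L / 2 ^ J := by positivity
  set m : ℕ := ⌊w / (L / 2 ^ J)⌋₊ with hm
  have h1 : (m : ℝ) ≤ w / (L / 2 ^ J) := Nat.floor_le (by positivity)
  have h2 : w / (L / 2 ^ J) < m + 1 := Nat.lt_floor_add_one _
  rw [le_div_iff₀ hh] at h1
  rw [div_lt_iff₀ hh] at h2
  have h3 : m ≤ 2 ^ J := by
    have h4 : (m : ℝ) * (L / 2 ^ J) ≤ L := h1.trans hw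
    have h5 : (m : ℝ) ≤ 2 ^ J := by
      rw [mul_div_assoc'] at h4
      rw [div_le_iff₀ (by positivity)] at h4
      have h6 : (m : ℝ) * L ≤ 2 ^ J * L := by linarith
      exact le_of_mul_le_mul_right h6 hL
    exact_mod_cast h5
  have h4 := chain g L x J m h3
  have h5 : |g (x + w) - g (x + m * (L / 2 ^ J))| ≤ 2 := by
    refine g_near (by linarith) ?_
    refine le_trans ?_ hJ
    refine mul_le_mul (Real.exp_le_exp.2 (by linarith)) (by linarith) (by linarith)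
      (Real.exp_pos _).le
  have h6 : g (x + w) - g x = (g (x + w) - g (x + m * (L / 2 ^ J))) +
      (g (x + m * (L / 2 ^ J)) - g x) := by ring
  rw [h6]
  exact (abs_add_le _ _).trans (add_le_add h5 h4)

/-! ## The pointwise bound -/

theorem log_near {t : ℝ} {δ : ℝ} (h : |t - 1| ≤ δ) (hδ : δ ≤ 1 / 2) :
    0 < t ∧ |Real.log t| ≤ 2 * δ := by
  rw [abs_le] at h
  have ht : 1 / 2 ≤ t := by linarith
  have ht0 : 0 < t := by linarith
  refine ⟨ht0, abs_le.2 ⟨?_, ?_⟩⟩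
  · have h1 := Real.one_sub_inv_le_log_of_pos ht0
    have h2 : -(2 * δ) ≤ 1 - t⁻¹ := by
      have h3 : 1 - t⁻¹ = (t - 1) / t := by
        field_simp
      rw [h3, le_div_iff₀ ht0]
      nlinarith
    linarith
  · have h1 := Real.log_le_sub_one_of_pos ht0
    linarith

theorem D_bound {θ a v : ℝ} (J : ℕ) (hθ : θ < 1) (h1 : a ≤ v) (h2 : v ≤ a + 1)
    (hE : Real.exp (-((1 - θ) * a)) ≤ 1 / 2)
    (hJ : Real.exp (a + 2) * (4 * Real.exp (-((1 - θ) * a)) / 2 ^ J) ≤ 1) :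
    D θ (Real.exp v) ^ 2 ≤ 32 + 8 * (J + 1) * ∑ j ∈ Finset.range (J + 1),
      Sq g (4 * Real.exp (-((1 - θ) * a))) j (v - 2 * Real.exp (-((1 - θ) * a))) := by
  set E : ℝ := Real.exp (-((1 - θ) * a)) with hEdef
  have hE0 : 0 < E := Real.exp_pos _
  obtain ⟨y, y', hy, hy', hD⟩ := D_att (θ := θ) (Real.exp_pos v).le
  have key : ∀ y : ℝ, |y - Real.exp v| ≤ Real.exp v ^ θ →
      |Mx y - g (v - 2 * E)| ≤ 2 + ∑ j ∈ Finset.range (J + 1), Real.sqrt (Sq g (4 * E) j (v - 2 * E)) := by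
    intro y hy
    have h3 : |y / Real.exp v - 1| ≤ E := by
      have h4 : y / Real.exp v - 1 = (y - Real.exp v) / Real.exp v := by
        field_simp
      rw [h4, abs_div, abs_of_pos (Real.exp_pos v), div_le_iff₀ (Real.exp_pos v)]
      refine hy.trans ?_
      rw [← Real.exp_mul, hEdef, ← Real.exp_add]
      refine Real.exp_le_exp.2 ?_
      nlinarith
    obtain ⟨h4, h5⟩ := log_near h3 hE
    have hy0 : 0 < y := by
      have := mul_pos h4 (Real.exp_pos v)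
      rwa [div_mul_cancel₀ _ (Real.exp_pos v).ne'] at this
    rw [Real.log_div hy0.ne' (Real.exp_pos v).ne', Real.log_exp, abs_le] at h5
    have h6 := chain_g (L := 4 * E) (x := v - 2 * E) (w := Real.log y - v + 2 * E) J (by linarith)
      (by linarith) (by linarith) (by
        refine le_trans ?_ hJ
        refine mul_le_mul_of_nonneg_right (Real.exp_le_exp.2 (by linarith)) (by positivity))
    have h7 : v - 2 * E + (Real.log y - v + 2 * E) = Real.log y := by ring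
    rw [h7] at h6
    have h8 : g (Real.log y) = Mx y := by
      unfold g
      rw [Real.exp_log hy0]
    rw [h8] at h6
    exact h6
  have k1 := key y hy
  have k2 := key y' hy'
  set S : ℝ := ∑ j ∈ Finset.range (J + 1), Real.sqrt (Sq g (4 * E) j (v - 2 * E)) with hS
  have hS0 : 0 ≤ S := Finset.sum_nonneg fun _ _ => Real.sqrt_nonneg _
  have hD2 : D θ (Real.exp v) ≤ 2 * (2 + S) := by
    rw [hD]
    have h9 : |Mx y - Mx y'| ≤ |Mx y - g (v - 2 * E)| + |Mx y' - g (v - 2 * E)| := by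
      have h10 : Mx y - Mx y' = (Mx y - g (v - 2 * E)) - (Mx y' - g (v - 2 * E)) := by ring
      rw [h10]
      exact abs_sub _ _
    have h10 : |Mx y - Mx y'| ≤ 2 * (2 + S) := by linarith
    exact h10
  have hS2 : S ^ 2 ≤ (J + 1) * ∑ j ∈ Finset.range (J + 1), Sq g (4 * E) j (v - 2 * E) := by
    have h3 := sq_sum_le_card_mul_sum_sq (s := Finset.range (J + 1))
      (f := fun j => Real.sqrt (Sq g (4 * E) j (v - 2 * E)))
    rw [Finset.card_range] at h3
    push_cast at h3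
    refine h3.trans (le_of_eq ?_)
    congr 1
    refine Finset.sum_congr rfl fun j _ => ?_
    rw [Real.sq_sqrt (Sq_nonneg _ _ _ _)]
  have hD3 : D θ (Real.exp v) ^ 2 ≤ (2 * (2 + S)) ^ 2 :=
    pow_le_pow_left₀ (D_nonneg _ _) hD2 2
  nlinarith [sq_nonneg (S - 2)]

/-! ## The integrals -/

theorem inc_int {c C ε : ℝ} (hc : 0 ≤ c)
    (hC : ∀ h : ℝ, 0 < h → h ≤ 1 → ∫⁻ v : ℝ, ENNReal.ofReal
      ((Mx (Real.exp (v + h)) - Mx (Real.exp v)) ^ 2 * Real.exp (-(2 * c * v))) ≤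
      ENNReal.ofReal (C * h ^ (1 - ε)))
    {a s h : ℝ} (hs : s ≤ 1) (h0 : 0 < h) (h1 : h ≤ 1) :
    ∫⁻ v in Ioc a (a + 1), ENNReal.ofReal ((g (v + s + h) - g (v + s)) ^ 2) ≤
      ENNReal.ofReal (Real.exp (2 * c * (a + 2))) * ENNReal.ofReal (C * h ^ (1 - ε)) := by
  calc ∫⁻ v in Ioc a (a + 1), ENNReal.ofReal ((g (v + s + h) - g (v + s)) ^ 2)
      ≤ ∫⁻ v in Ioc a (a + 1), ENNReal.ofReal (Real.exp (2 * c * (a + 2))) *
          ENNReal.ofReal ((g (v + s + h) - g (v + s)) ^ 2 * Real.exp (-(2 * c * (v + s)))) := by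
        refine setLIntegral_mono' measurableSet_Ioc fun v hv => ?_
        rw [← ENNReal.ofReal_mul (Real.exp_pos _).le]
        refine ENNReal.ofReal_le_ofReal ?_
        have h3 : 1 ≤ Real.exp (2 * c * (a + 2)) * Real.exp (-(2 * c * (v + s))) := by
          rw [← Real.exp_add]
          refine Real.one_le_exp ?_
          have h4 : v + s ≤ a + 2 := by linarith [hv.2]
          nlinarith
        have h5 : 0 ≤ (g (v + s + h) - g (v + s)) ^ 2 := sq_nonneg _
        calc (g (v + s + h) - g (v + s)) ^ 2 = 1 * (g (v + s + h) - g (v + s)) ^ 2 := by ring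
          _ ≤ (Real.exp (2 * c * (a + 2)) * Real.exp (-(2 * c * (v + s)))) *
              (g (v + s + h) - g (v + s)) ^ 2 := mul_le_mul_of_nonneg_right h3 h5
          _ = _ := by ring
    _ ≤ ∫⁻ v : ℝ, ENNReal.ofReal (Real.exp (2 * c * (a + 2))) *
          ENNReal.ofReal ((g (v + s + h) - g (v + s)) ^ 2 * Real.exp (-(2 * c * (v + s)))) :=
        setLIntegral_le_lintegral _ _
    _ = ENNReal.ofReal (Real.exp (2 * c * (a + 2))) * ∫⁻ v : ℝ,
          ENNReal.ofReal ((g (v + s + h) - g (v + s)) ^ 2 * Real.exp (-(2 * c * (v + s)))) :=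
        lintegral_const_mul' _ _ ENNReal.ofReal_ne_top
    _ = ENNReal.ofReal (Real.exp (2 * c * (a + 2))) * ∫⁻ v : ℝ,
          ENNReal.ofReal ((g (v + h) - g v) ^ 2 * Real.exp (-(2 * c * v))) := by
        rw [lintegral_add_right_eq_self
          (fun v : ℝ => ENNReal.ofReal ((g (v + h) - g v) ^ 2 * Real.exp (-(2 * c * v)))) s]
    _ ≤ _ := mul_le_mul_right (hC h h0 h1) _

theorem Sq_meas (L : ℝ) (j : ℕ) (r : ℝ) : Measurable (fun v : ℝ => Sq g L j (v - r)) := by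
  unfold Sq
  refine Finset.measurable_fun_sum _ fun i _ => ?_
  refine Measurable.pow_const (Measurable.sub ?_ ?_) 2
  · exact g_meas.comp (by fun_prop)
  · exact g_meas.comp (by fun_prop)

theorem Sq_int {c C ε : ℝ} (hc : 0 ≤ c)
    (hC : ∀ h : ℝ, 0 < h → h ≤ 1 → ∫⁻ v : ℝ, ENNReal.ofReal
      ((Mx (Real.exp (v + h)) - Mx (Real.exp v)) ^ 2 * Real.exp (-(2 * c * v))) ≤
      ENNReal.ofReal (C * h ^ (1 - ε)))
    {a E : ℝ} (j : ℕ) (hE0 : 0 < E) (hE : E ≤ 1 / 4) :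
    ∫⁻ v in Ioc a (a + 1), ENNReal.ofReal (Sq g (4 * E) j (v - 2 * E)) ≤
      ENNReal.ofReal (2 ^ j * (Real.exp (2 * c * (a + 2)) * (C * (4 * E / 2 ^ j) ^ (1 - ε)))) := by
  have hh : 0 < 4 * E / 2 ^ j := by positivity
  have hh1 : 4 * E / 2 ^ j ≤ 1 := by
    rw [div_le_one (by positivity)]
    have : (1 : ℝ) ≤ 2 ^ j := one_le_pow₀ (by norm_num)
    linarith
  have e1 : ∀ v : ℝ, ENNReal.ofReal (Sq g (4 * E) j (v - 2 * E)) =
      ∑ i ∈ Finset.range (2 ^ j), ENNReal.ofReal ((g (v + (-(2 * E) + i * (4 * E / 2 ^ j)) +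
        4 * E / 2 ^ j) - g (v + (-(2 * E) + i * (4 * E / 2 ^ j)))) ^ 2) := by
    intro v
    unfold Sq
    rw [ENNReal.ofReal_sum_of_nonneg fun _ _ => sq_nonneg _]
    refine Finset.sum_congr rfl fun i _ => ?_
    have h1 : v - 2 * E + i * (4 * E / 2 ^ j) = v + (-(2 * E) + i * (4 * E / 2 ^ j)) := by ring
    rw [h1]
  simp_rw [e1]
  rw [lintegral_finsetSum']
  · have h2 : ∀ i ∈ Finset.range (2 ^ j), ∫⁻ v in Ioc a (a + 1),
        ENNReal.ofReal ((g (v + (-(2 * E) + i * (4 * E / 2 ^ j)) +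
        4 * E / 2 ^ j) - g (v + (-(2 * E) + i * (4 * E / 2 ^ j)))) ^ 2) ≤
        ENNReal.ofReal (Real.exp (2 * c * (a + 2)) * (C * (4 * E / 2 ^ j) ^ (1 - ε))) := by
      intro i hi
      rw [ENNReal.ofReal_mul (Real.exp_pos _).le]
      refine inc_int hc hC ?_ hh hh1
      have h3 : (i : ℝ) ≤ 2 ^ j := by exact_mod_cast (Finset.mem_range.1 hi).le
      have h4 : (i : ℝ) * (4 * E / 2 ^ j) ≤ 2 ^ j * (4 * E / 2 ^ j) :=
        mul_le_mul_of_nonneg_right h3 hh.le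
      have h5 : (2 : ℝ) ^ j * (4 * E / 2 ^ j) = 4 * E := by field_simp
      linarith
    refine (Finset.sum_le_sum h2).trans ?_
    rw [Finset.sum_const, Finset.card_range, ENNReal.ofReal_mul (p := 2 ^ j) (by positivity)]
    rw [nsmul_eq_mul]
    refine le_of_eq ?_
    congr 1
    rw [ENNReal.ofReal_pow (by norm_num)]
    push_cast
    rw [ENNReal.ofReal_ofNat]
  · intro i _
    refine Measurable.aemeasurable (Measurable.ennreal_ofReal (Measurable.pow_const (Measurable.sub ?_ ?_) 2))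
    · exact g_meas.comp (by fun_prop)
    · exact g_meas.comp (by fun_prop)

theorem block {θ c C ε a : ℝ} (J : ℕ) (hθ : θ < 1) (hc : 0 ≤ c) (hC0 : 0 ≤ C)
    (hC : ∀ h : ℝ, 0 < h → h ≤ 1 → ∫⁻ v : ℝ, ENNReal.ofReal
      ((Mx (Real.exp (v + h)) - Mx (Real.exp v)) ^ 2 * Real.exp (-(2 * c * v))) ≤
      ENNReal.ofReal (C * h ^ (1 - ε)))
    (hE : Real.exp (-((1 - θ) * a)) ≤ 1 / 4)
    (hJ : Real.exp (a + 2) * (4 * Real.exp (-((1 - θ) * a)) / 2 ^ J) ≤ 1) :
    ∫⁻ v in Ioc a (a + 1), ENNReal.ofReal (D θ (Real.exp v) ^ 2 * Real.exp (-v)) ≤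
      ENNReal.ofReal (Real.exp (-a) * (32 + 8 * (J + 1) * ∑ j ∈ Finset.range (J + 1),
        2 ^ j * (Real.exp (2 * c * (a + 2)) *
          (C * (4 * Real.exp (-((1 - θ) * a)) / 2 ^ j) ^ (1 - ε))))) := by
  set E : ℝ := Real.exp (-((1 - θ) * a)) with hEdef
  have hE0 : 0 < E := Real.exp_pos _
  have hterm : ∀ j : ℕ, 0 ≤ 2 ^ j * (Real.exp (2 * c * (a + 2)) *
      (C * (4 * E / 2 ^ j) ^ (1 - ε))) := by
    intro j
    positivity
  calc ∫⁻ v in Ioc a (a + 1), ENNReal.ofReal (D θ (Real.exp v) ^ 2 * Real.exp (-v))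
      ≤ ∫⁻ v in Ioc a (a + 1), ENNReal.ofReal (Real.exp (-a)) * (32 +
          ENNReal.ofReal (8 * (J + 1)) * ∑ j ∈ Finset.range (J + 1),
            ENNReal.ofReal (Sq g (4 * E) j (v - 2 * E))) := by
        refine setLIntegral_mono' measurableSet_Ioc fun v hv => ?_
        have h1 := D_bound J hθ hv.1.le hv.2 (by linarith) hJ
        rw [← ENNReal.ofReal_sum_of_nonneg fun j _ => Sq_nonneg _ _ _ _,
          ← ENNReal.ofReal_mul (by positivity)]
        have h32 : (32 : ENNReal) = ENNReal.ofReal 32 := (ENNReal.ofReal_ofNat 32).symm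
        rw [h32, ← ENNReal.ofReal_add (by norm_num)
          (mul_nonneg (by positivity) (Finset.sum_nonneg fun j _ => Sq_nonneg _ _ _ _)),
          ← ENNReal.ofReal_mul (Real.exp_pos _).le]
        refine ENNReal.ofReal_le_ofReal ?_
        have h2 : Real.exp (-v) ≤ Real.exp (-a) := Real.exp_le_exp.2 (by linarith [hv.1])
        calc D θ (Real.exp v) ^ 2 * Real.exp (-v) = Real.exp (-v) * D θ (Real.exp v) ^ 2 := by ring
          _ ≤ Real.exp (-a) * _ := mul_le_mul h2 h1 (sq_nonneg _) (Real.exp_pos _).le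
    _ = ENNReal.ofReal (Real.exp (-a)) * (32 + ENNReal.ofReal (8 * (J + 1)) *
          ∑ j ∈ Finset.range (J + 1), ∫⁻ v in Ioc a (a + 1),
            ENNReal.ofReal (Sq g (4 * E) j (v - 2 * E))) := by
        rw [lintegral_const_mul' _ _ ENNReal.ofReal_ne_top, lintegral_add_left measurable_const,
          lintegral_const_mul' _ _ ENNReal.ofReal_ne_top, lintegral_finsetSum]
        · congr 2
          rw [lintegral_const, Measure.restrict_apply MeasurableSet.univ, univ_inter,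
            Real.volume_Ioc]
          have h3 : a + 1 - a = 1 := by ring
          rw [h3, ENNReal.ofReal_one, mul_one]
        · intro j _
          exact (Sq_meas _ _ _).ennreal_ofReal
    _ ≤ ENNReal.ofReal (Real.exp (-a)) * (32 + ENNReal.ofReal (8 * (J + 1)) *
          ∑ j ∈ Finset.range (J + 1), ENNReal.ofReal (2 ^ j * (Real.exp (2 * c * (a + 2)) *
            (C * (4 * E / 2 ^ j) ^ (1 - ε))))) := by
        gcongr with j _
        exact Sq_int hc hC j hE0 hE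
    _ = _ := by
        rw [← ENNReal.ofReal_sum_of_nonneg fun j _ => hterm j,
          ← ENNReal.ofReal_mul (by positivity)]
        have h32 : (32 : ENNReal) = ENNReal.ofReal 32 := (ENNReal.ofReal_ofNat 32).symm
        rw [h32, ← ENNReal.ofReal_add (by norm_num)
          (mul_nonneg (by positivity) (Finset.sum_nonneg fun j _ => hterm j)),
          ← ENNReal.ofReal_mul (Real.exp_pos _).le]

/-- the bound for the `A`-th block -/
noncomputable def Bd (C δ : ℝ) (A : ℕ) : ℝ :=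
  32 * Real.exp (-(A : ℝ)) + 32 * C * Real.exp 3 * ((2 * A + 6) ^ 2 * Real.exp (-((δ / 2) * A)))

theorem Bd_nonneg {C : ℝ} (hC : 0 ≤ C) (δ : ℝ) (A : ℕ) : 0 ≤ Bd C δ A := by
  unfold Bd
  positivity

theorem Bd_summable (C : ℝ) {δ : ℝ} (hδ : 0 < δ) : Summable (Bd C δ) := by
  unfold Bd
  refine Summable.add (Summable.mul_left _ ?_) (Summable.mul_left _ ?_)
  · have h := Real.summable_pow_mul_exp_neg_nat_mul 0 (r := 1) (by norm_num)
    refine h.congr fun n => ?_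
    rw [pow_zero, one_mul, neg_one_mul]
  · have h0 := Real.summable_pow_mul_exp_neg_nat_mul 0 (r := δ / 2) (by linarith)
    have h1 := Real.summable_pow_mul_exp_neg_nat_mul 1 (r := δ / 2) (by linarith)
    have h2 := Real.summable_pow_mul_exp_neg_nat_mul 2 (r := δ / 2) (by linarith)
    refine (((h2.mul_left 4).add (h1.mul_left 24)).add (h0.mul_left 36)).congr fun n => ?_
    have h3 : -(δ / 2) * (n : ℝ) = -(δ / 2 * n) := by ring
    rw [h3]
    ring

theorem num {δ C : ℝ} (hδ0 : 0 < δ) (hδ1 : δ ≤ 1) (hC0 : 0 ≤ C) (A : ℕ) :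
    Real.exp (-(A : ℝ)) * (32 + 8 * ((2 * A + 5 : ℕ) + 1) * ∑ j ∈ Finset.range (2 * A + 5 + 1),
        2 ^ j * (Real.exp (2 * (1 / 2 + δ / 16) * (A + 2)) *
          (C * (4 * Real.exp (-(δ * A)) / 2 ^ j) ^ (1 - δ / 16)))) ≤ Bd C δ A := by
  set ε : ℝ := δ / 16 with hε
  have hε0 : 0 < ε := by linarith
  have hε1 : ε ≤ 1 / 16 := by linarith
  set E : ℝ := Real.exp (-(δ * A)) with hEdef
  have hE0 : 0 < E := Real.exp_pos _
  have hA0 : (0 : ℝ) ≤ A := Nat.cast_nonneg A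
  have hterm : ∀ j ∈ Finset.range (2 * A + 5 + 1), (2 : ℝ) ^ j *
      (Real.exp (2 * (1 / 2 + ε) * (A + 2)) * (C * (4 * E / 2 ^ j) ^ (1 - ε))) ≤
      Real.exp (2 * (1 / 2 + ε) * (A + 2)) * (C * (4 * Real.exp (-(δ * A) * (1 - ε)))) *
        Real.exp ((2 * A + 5) * ε) := by
    intro j hj
    have hj1 : j ≤ 2 * A + 5 := by
      rw [Finset.mem_range] at hj
      omega
    have hj2 : (j : ℝ) ≤ 2 * A + 5 := by exact_mod_cast hj1
    have h1 : (4 * E / 2 ^ j) ^ (1 - ε) = (4 * E) ^ (1 - ε) / ((2 : ℝ) ^ j) ^ (1 - ε) :=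
      Real.div_rpow (by positivity) (by positivity) _
    have h2 : (4 * E) ^ (1 - ε) ≤ 4 * Real.exp (-(δ * A) * (1 - ε)) := by
      rw [Real.mul_rpow (by norm_num) hE0.le, hEdef, ← Real.exp_mul]
      refine mul_le_mul_of_nonneg_right ?_ (Real.exp_pos _).le
      calc (4 : ℝ) ^ (1 - ε) ≤ 4 ^ (1 : ℝ) :=
            Real.rpow_le_rpow_of_exponent_le (by norm_num) (by linarith)
        _ = 4 := Real.rpow_one 4
    have h3 : (2 : ℝ) ^ j / ((2 : ℝ) ^ j) ^ (1 - ε) ≤ Real.exp ((2 * A + 5) * ε) := by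
      have h4 : (2 : ℝ) ^ j / ((2 : ℝ) ^ j) ^ (1 - ε) = ((2 : ℝ) ^ j) ^ ε := by
        have h5 : (0 : ℝ) < 2 ^ j := by positivity
        rw [Real.rpow_sub h5, Real.rpow_one]
        field_simp
      rw [h4]
      have h6 : (2 : ℝ) ≤ Real.exp 1 := by
        have := Real.add_one_le_exp (1 : ℝ)
        linarith
      calc ((2 : ℝ) ^ j) ^ ε ≤ (Real.exp 1 ^ j) ^ ε :=
            Real.rpow_le_rpow (by positivity) (pow_le_pow_left₀ (by norm_num) h6 j) hε0.le
        _ = Real.exp (j * ε) := by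
            rw [← Real.exp_nat_mul, ← Real.exp_mul, mul_one]
        _ ≤ _ := Real.exp_le_exp.2 (mul_le_mul_of_nonneg_right hj2 hε0.le)
    rw [h1]
    calc (2 : ℝ) ^ j * (Real.exp (2 * (1 / 2 + ε) * (A + 2)) *
          (C * ((4 * E) ^ (1 - ε) / ((2 : ℝ) ^ j) ^ (1 - ε))))
        = Real.exp (2 * (1 / 2 + ε) * (A + 2)) * (C * (4 * E) ^ (1 - ε)) *
          ((2 : ℝ) ^ j / ((2 : ℝ) ^ j) ^ (1 - ε)) := by ring
      _ ≤ _ := by
        refine mul_le_mul ?_ h3 (by positivity) (by positivity)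
        exact mul_le_mul_of_nonneg_left (mul_le_mul_of_nonneg_left h2 hC0) (Real.exp_pos _).le
  have hsum := Finset.sum_le_sum hterm
  rw [Finset.sum_const, Finset.card_range, nsmul_eq_mul] at hsum
  have hcomb : Real.exp (2 * (1 / 2 + ε) * (A + 2)) * (C * (4 * Real.exp (-(δ * A) * (1 - ε)))) *
        Real.exp ((2 * A + 5) * ε) = 4 * C * Real.exp (2 * (1 / 2 + ε) * (A + 2) +
          -(δ * A) * (1 - ε) + (2 * A + 5) * ε) := by
    rw [Real.exp_add, Real.exp_add]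
    ring
  rw [hcomb] at hsum
  have hexp : Real.exp (-(A : ℝ)) * Real.exp (2 * (1 / 2 + ε) * (A + 2) +
          -(δ * A) * (1 - ε) + (2 * A + 5) * ε) ≤ Real.exp 3 * Real.exp (-((δ / 2) * A)) := by
    rw [← Real.exp_add, ← Real.exp_add]
    refine Real.exp_le_exp.2 ?_
    have h7 : δ * A * ε ≤ δ * A * (1 / 16) :=
      mul_le_mul_of_nonneg_left hε1 (mul_nonneg hδ0.le hA0)
    have h8 : A * ε = δ * A * (1 / 16) := by rw [hε]; ring
    nlinarith
  unfold Bd
  have hcast : (((2 * A + 5 : ℕ) : ℝ) + 1) = 2 * A + 6 := by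
    push_cast
    ring
  have hcast2 : ((2 * A + 5 + 1 : ℕ) : ℝ) = 2 * A + 6 := by
    push_cast
    ring
  rw [hcast2] at hsum
  rw [hcast]
  have hk : 8 * (2 * (A : ℝ) + 6) * (∑ j ∈ Finset.range (2 * A + 5 + 1), (2 : ℝ) ^ j *
      (Real.exp (2 * (1 / 2 + ε) * (A + 2)) * (C * (4 * E / 2 ^ j) ^ (1 - ε)))) ≤
      8 * (2 * (A : ℝ) + 6) * ((2 * A + 6) * (4 * C * Real.exp (2 * (1 / 2 + ε) * (A + 2) +
          -(δ * A) * (1 - ε) + (2 * A + 5) * ε))) :=
    mul_le_mul_of_nonneg_left hsum (by positivity)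
  calc _ ≤ Real.exp (-(A : ℝ)) * (32 + 8 * (2 * (A : ℝ) + 6) * ((2 * A + 6) * (4 * C *
        Real.exp (2 * (1 / 2 + ε) * (A + 2) + -(δ * A) * (1 - ε) + (2 * A + 5) * ε)))) :=
        mul_le_mul_of_nonneg_left (by linarith) (Real.exp_pos _).le
    _ = 32 * Real.exp (-(A : ℝ)) + 32 * C * (2 * A + 6) ^ 2 * (Real.exp (-(A : ℝ)) *
        Real.exp (2 * (1 / 2 + ε) * (A + 2) + -(δ * A) * (1 - ε) + (2 * A + 5) * ε)) := by ring
    _ ≤ 32 * Real.exp (-(A : ℝ)) + 32 * C * (2 * A + 6) ^ 2 * (Real.exp 3 *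
        Real.exp (-((δ / 2) * A))) := by
        have h9 : 0 ≤ 32 * C * (2 * (A : ℝ) + 6) ^ 2 := by positivity
        have h10 := mul_le_mul_of_nonneg_left hexp h9
        linarith
    _ = _ := by ring

theorem hJ_cond {E : ℝ} (hE0 : 0 < E) (hE : E ≤ 1) (A : ℕ) :
    Real.exp ((A : ℝ) + 2) * (4 * E / 2 ^ (2 * A + 5)) ≤ 1 := by
  have h1 : Real.exp ((A : ℝ) + 2) ≤ 4 ^ A * 8 := by
    rw [Real.exp_add]
    refine mul_le_mul ?_ ?_ (Real.exp_pos _).le (by positivity)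
    · have h2 : Real.exp (A : ℝ) = Real.exp 1 ^ A := by
        rw [← Real.exp_nat_mul, mul_one]
      rw [h2]
      exact pow_le_pow_left₀ (Real.exp_pos _).le (by linarith [Real.exp_one_lt_d9]) A
    · have h3 : Real.exp (2 : ℝ) = Real.exp 1 * Real.exp 1 := by
        rw [← Real.exp_add]
        norm_num
      rw [h3]
      nlinarith [Real.exp_one_lt_d9, Real.exp_pos 1]
  have h4 : (2 : ℝ) ^ (2 * A + 5) = 4 ^ A * 32 := by
    rw [pow_add, pow_mul]
    norm_num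
  rw [h4, mul_div_assoc', div_le_one (by positivity)]
  have h5 : 4 * E ≤ 4 := by linarith
  calc Real.exp ((A : ℝ) + 2) * (4 * E) ≤ (4 ^ A * 8) * 4 :=
        mul_le_mul h1 h5 (by linarith) (by positivity)
    _ = _ := by ring

theorem block' {θ C : ℝ} (hθ0 : 0 ≤ θ) (hθ : θ < 1) (hC0 : 0 ≤ C)
    (hC : ∀ h : ℝ, 0 < h → h ≤ 1 → ∫⁻ v : ℝ, ENNReal.ofReal
      ((Mx (Real.exp (v + h)) - Mx (Real.exp v)) ^ 2 *
        Real.exp (-(2 * (1 / 2 + (1 - θ) / 16) * v))) ≤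
      ENNReal.ofReal (C * h ^ (1 - (1 - θ) / 16)))
    (A : ℕ) (hE : Real.exp (-((1 - θ) * A)) ≤ 1 / 4) :
    ∫⁻ v in Ioc (A : ℝ) (A + 1), ENNReal.ofReal (D θ (Real.exp v) ^ 2 * Real.exp (-v)) ≤
      ENNReal.ofReal (Bd C (1 - θ) A) := by
  refine (block (2 * A + 5) hθ (by linarith) hC0 hC hE
    (hJ_cond (Real.exp_pos _) (by linarith) A)).trans ?_
  exact ENNReal.ofReal_le_ofReal (num (by linarith) (by linarith) hC0 A)

/-- the tail -/
theorem tail {θ C : ℝ} (hθ0 : 0 ≤ θ) (hθ : θ < 1) (hC0 : 0 ≤ C)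
    (hC : ∀ h : ℝ, 0 < h → h ≤ 1 → ∫⁻ v : ℝ, ENNReal.ofReal
      ((Mx (Real.exp (v + h)) - Mx (Real.exp v)) ^ 2 *
        Real.exp (-(2 * (1 / 2 + (1 - θ) / 16) * v))) ≤
      ENNReal.ofReal (C * h ^ (1 - (1 - θ) / 16)))
    (A₀ : ℕ) (hE : Real.exp (-((1 - θ) * A₀)) ≤ 1 / 4) :
    ∫⁻ v in Ioi (A₀ : ℝ), ENNReal.ofReal (D θ (Real.exp v) ^ 2 * Real.exp (-v)) < ⊤ := by
  have hsub : Ioi (A₀ : ℝ) ⊆ ⋃ n : ℕ, Ioc ((A₀ + n : ℕ) : ℝ) ((A₀ + n : ℕ) + 1) := by
    intro v hv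
    rw [mem_Ioi] at hv
    rw [mem_iUnion]
    have h1 : 0 < ⌈v - A₀⌉₊ := Nat.ceil_pos.2 (by linarith)
    refine ⟨⌈v - A₀⌉₊ - 1, ?_, ?_⟩
    · have h2 := Nat.ceil_lt_add_one (a := v - A₀) (by linarith)
      rw [Nat.cast_add, Nat.cast_sub h1]
      push_cast
      linarith
    · have h2 := Nat.le_ceil (v - A₀)
      rw [Nat.cast_add, Nat.cast_sub h1]
      push_cast
      linarith
  refine (lintegral_mono_set hsub).trans_lt ?_
  refine (lintegral_iUnion_le _ _).trans_lt ?_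
  have hb : ∀ n : ℕ, ∫⁻ v in Ioc ((A₀ + n : ℕ) : ℝ) ((A₀ + n : ℕ) + 1),
      ENNReal.ofReal (D θ (Real.exp v) ^ 2 * Real.exp (-v)) ≤
      ENNReal.ofReal (Bd C (1 - θ) (A₀ + n)) := by
    intro n
    refine block' hθ0 hθ hC0 hC (A₀ + n) (le_trans (Real.exp_le_exp.2 ?_) hE)
    push_cast
    have h3 : (0 : ℝ) ≤ (1 - θ) * n := mul_nonneg (by linarith) (Nat.cast_nonneg n)
    linarith
  refine (ENNReal.tsum_le_tsum hb).trans_lt ?_
  have hs : Summable (fun n : ℕ => Bd C (1 - θ) (A₀ + n)) := by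
    have h4 := (summable_nat_add_iff A₀).2 (Bd_summable C (δ := 1 - θ) (by linarith))
    refine h4.congr fun n => ?_
    rw [add_comm]
  rw [← ENNReal.ofReal_tsum_of_nonneg (fun n => Bd_nonneg hC0 _ _) hs]
  exact ENNReal.ofReal_lt_top

/-- trivial bound -/
theorem D_triv {θ u : ℝ} (hθ : θ < 1) (hu : 1 ≤ u) : D θ u ≤ 8 * u := by
  obtain ⟨y, y', hy, hy', hD⟩ := D_att (θ := θ) (by linarith : (0 : ℝ) ≤ u)
  have hp : u ^ θ ≤ u := by
    calc u ^ θ ≤ u ^ (1 : ℝ) := Real.rpow_le_rpow_of_exponent_le hu hθ.le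
      _ = u := Real.rpow_one u
  have key : ∀ y : ℝ, |y - u| ≤ u ^ θ → |Mx y| ≤ 3 * u := by
    intro y hy
    rw [abs_le] at hy
    have h0 : 0 ≤ y := by linarith
    have h1 := mx_sub le_rfl h0
    have h2 : Mx 0 = 0 := by
      unfold Mx
      rw [Nat.floor_zero]
      rfl
    rw [h2, sub_zero] at h1
    linarith
  have k1 := key y hy
  have k2 := key y' hy'
  rw [hD]
  have h3 : |Mx y - Mx y'| ≤ |Mx y| + |Mx y'| := abs_sub _ _
  have h4 : |Mx y - Mx y'| ≤ 8 * u := by linarith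
  exact h4

theorem t_max (h : S_INC) : S_MAX := by
  intro hRH θ hθ0 hθ
  obtain ⟨C, hC0, hC⟩ := h hRH (1 / 2 + (1 - θ) / 16) ((1 - θ) / 16) (by linarith) (by linarith)
    (by linarith) (by linarith)
  -- choice of `A₀`
  obtain ⟨A₀, hA₀⟩ := exists_nat_ge (2 / (1 - θ))
  have hE : Real.exp (-((1 - θ) * A₀)) ≤ 1 / 4 := by
    rw [div_le_iff₀ (by linarith)] at hA₀
    have h1 : Real.exp (-((1 - θ) * A₀)) ≤ Real.exp (-2) := Real.exp_le_exp.2 (by linarith)
    have h2 : Real.exp (-2 : ℝ) ≤ 1 / 4 := by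
      rw [Real.exp_neg, one_div]
      refine inv_anti₀ (by norm_num) ?_
      have h3 : Real.exp (2 : ℝ) = Real.exp 1 * Real.exp 1 := by
        rw [← Real.exp_add]
        norm_num
      rw [h3]
      have h6 : (2 : ℝ) ≤ Real.exp 1 := by
        have := Real.add_one_le_exp (1 : ℝ)
        linarith
      nlinarith
    linarith
  have hmeas : Measurable (fun u : ℝ => (D θ u / u) ^ 2) :=
    ((D_meas θ).div measurable_id).pow_const 2
  have hsplit : Ioi (1 : ℝ) ⊆ Ioc 1 (Real.exp A₀) ∪ Ioi (Real.exp A₀) := by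
    intro u hu
    rcases le_or_gt u (Real.exp A₀) with h1 | h1
    · exact Or.inl ⟨hu, h1⟩
    · exact Or.inr h1
  refine IntegrableOn.mono_set (IntegrableOn.union ?_ ?_) hsplit
  · refine Measure.integrableOn_of_bounded (M := 64) ?_ hmeas.aestronglyMeasurable ?_
    · rw [Real.volume_Ioc]
      exact ENNReal.ofReal_ne_top
    · refine (ae_restrict_iff' measurableSet_Ioc).2 (ae_of_all _ fun u hu => ?_)
      have hu0 : 0 < u := by linarith [hu.1]
      rw [Real.norm_of_nonneg (sq_nonneg _)]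
      have h1 : D θ u / u ≤ 8 := by
        rw [div_le_iff₀ hu0]
        exact D_triv hθ hu.1.le
      have h2 : 0 ≤ D θ u / u := div_nonneg (D_nonneg _ _) hu0.le
      nlinarith
  · refine ⟨hmeas.aestronglyMeasurable, ?_⟩
    rw [hasFiniteIntegral_iff_ofReal (ae_of_all _ fun u => sq_nonneg _)]
    have himg : Ioi (Real.exp A₀) = Real.exp '' Ioi (A₀ : ℝ) := by
      ext u
      constructor
      · intro hu
        have hu0 : 0 < u := (Real.exp_pos _).trans hu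
        refine ⟨Real.log u, ?_, Real.exp_log hu0⟩
        rw [mem_Ioi, Real.lt_log_iff_exp_lt hu0]
        exact hu
      · rintro ⟨v, hv, rfl⟩
        exact Real.exp_lt_exp.2 hv
    rw [himg, lintegral_image_eq_lintegral_abs_deriv_mul measurableSet_Ioi
      (fun v _ => (Real.hasDerivAt_exp v).hasDerivWithinAt) Real.exp_injective.injOn]
    refine lt_of_le_of_lt (le_of_eq ?_) (tail hθ0 hθ hC0.le hC A₀ hE)
    refine lintegral_congr fun v => ?_
    rw [abs_of_pos (Real.exp_pos v), ← ENNReal.ofReal_mul (Real.exp_pos v).le]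
    have h5 : Real.exp v * (D θ (Real.exp v) / Real.exp v) ^ 2 =
        D θ (Real.exp v) ^ 2 * Real.exp (-v) := by
      rw [Real.exp_neg]
      field_simp
    rw [h5]

end Pool.Agent.H313.ZC.Max
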