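import Mathlib

/-! # The Riemann hypothesis of Mathlib and the zeros in the critical strip (proof of rh_free copied from the library module R_seed8/W190/A17) -/

set_option autoImplicit false

open Complex Filter Topology

namespace Pool.Agent.H313.ZC

theorem rh_free : RiemannHypothesis ↔ ∀ s : ℂ, 1 / 2 < s.re → riemannZeta s ≠ 0 := by
  constructor
  · intro hRH s hs h0
    have h1 : s.re < 1 := by
      by_contra h
      exact riemannZeta_ne_zero_of_one_le_re (not_lt.1 h) h0
    have := hRH s h0 (by
      rintro ⟨n, hn⟩
      rw [hn] at hs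
      have h2 : (-2 * ((n:ℂ) + 1)).re = -2 * ((n:ℝ) + 1) := by simp
      rw [h2] at hs
      have : (0:ℝ) ≤ n := Nat.cast_nonneg n
      linarith) (by
      rintro rfl
      norm_num at h1)
    linarith
  · intro hfree s hs htriv hs1
    have hle : s.re ≤ 1 / 2 := by
      by_contra h
      exact hfree s (not_le.1 h) hs
    have hre0 : 0 < s.re := by
      by_contra h
      push Not at h
      have hs0 : s ≠ 0 := by
        rintro rfl
        rw [riemannZeta_zero] at hs
        norm_num at hs
      have h1 : ∀ n : ℕ, (1 - s) ≠ -n := by
        intro n hn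
        have h2 := congrArg Complex.re hn
        simp at h2
        have : (0:ℝ) ≤ n := Nat.cast_nonneg n
        linarith
      have h2 : (1 - s) ≠ 1 := by
        intro h3
        apply hs0
        linear_combination -h3
      have h3 := riemannZeta_one_sub h1 h2
      rw [sub_sub_cancel, hs] at h3
      have hz : riemannZeta (1 - s) ≠ 0 := riemannZeta_ne_zero_of_one_le_re (by simp; linarith)
      have hG : Complex.Gamma (1 - s) ≠ 0 := Complex.Gamma_ne_zero h1
      have hp : (2 * (Real.pi : ℂ)) ^ (-(1 - s)) ≠ 0 := by
        rw [Complex.cpow_def_of_ne_zero]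
        · exact Complex.exp_ne_zero _
        · norm_num [Real.pi_ne_zero]
      have hc : Complex.cos (Real.pi * (1 - s) / 2) = 0 := by
        by_contra hc
        exact absurd h3.symm (mul_ne_zero (mul_ne_zero (mul_ne_zero (mul_ne_zero two_ne_zero hp) hG) hc) hz)
      rw [Complex.cos_eq_zero_iff] at hc
      obtain ⟨k, hk⟩ := hc
      have hpi : (Real.pi : ℂ) ≠ 0 := by exact_mod_cast Real.pi_ne_zero
      have hs2 : s = -2 * (k : ℂ) := by
        field_simp at hk
        linear_combination (-1 : ℂ) * hk
      have hkpos : 0 < k := by
        have h4 := congrArg Complex.re hs2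
        simp at h4
        have h5 : (0:ℝ) < k := by
          have h6 : s.re ≠ 0 := by
            intro h7
            rw [h7] at h4
            have h8 : (k:ℝ) = 0 := by linarith
            apply hs0
            have h9 : (k:ℤ) = 0 := by exact_mod_cast h8
            rw [hs2, h9]
            simp
          have h10 : s.re < 0 := lt_of_le_of_ne h h6
          linarith
        exact_mod_cast h5
      apply htriv
      refine ⟨(k - 1).toNat, ?_⟩
      have h6 : (((k - 1).toNat : ℕ) : ℂ) = (k : ℂ) - 1 := by
        have : (((k - 1).toNat : ℤ)) = k - 1 := Int.toNat_of_nonneg (by omega)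
        have h7 : (((k - 1).toNat : ℤ) : ℂ) = ((k - 1 : ℤ) : ℂ) := by rw [this]
        push_cast at h7
        exact_mod_cast h7
      rw [h6, hs2]
      ring
    -- reflection
    by_contra hne
    have hlt : s.re < 1 / 2 := lt_of_le_of_ne hle hne
    have h1 : ∀ n : ℕ, s ≠ -n := by
      intro n hn
      have h2 := congrArg Complex.re hn
      simp at h2
      have : (0:ℝ) ≤ n := Nat.cast_nonneg n
      linarith
    have key := riemannZeta_one_sub h1 hs1
    rw [hs, mul_zero] at key
    exact hfree (1 - s) (by simp; linarith) key

/-- in terms of the zeros in the critical strip -/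
theorem rh_iff_strip : RiemannHypothesis ↔ ∀ s : ℂ, riemannZeta s = 0 ∧ 0 < s.re ∧ s.re < 1 → s.re = 1 / 2 := by
  constructor
  · intro h s hs
    refine h s hs.1 ?_ ?_
    · rintro ⟨n, hn⟩
      have h2 := hs.2.1
      rw [hn] at h2
      have h3 : (-2 * ((n:ℂ) + 1)).re = -2 * ((n:ℝ) + 1) := by simp
      rw [h3] at h2
      have : (0:ℝ) ≤ n := Nat.cast_nonneg n
      linarith
    · rintro rfl
      have h2 := hs.2.2
      norm_num at h2
  · intro h
    rw [rh_free]
    intro s hs h0
    have h1 : s.re < 1 := by
      by_contra h
      exact riemannZeta_ne_zero_of_one_le_re (not_lt.1 h) h0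
    have h2 := h s ⟨h0, by linarith, h1⟩
    linarith

end Pool.Agent.H313.ZC
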