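import Pool.Agent.H313.ZC.Stm2
import Pool.Graph.R_pool_sql_team_seeded_3997aac3.Q299.FA.W3A
import Pool.Graph.R_pool_sql_team_seeded_3997aac3.Q299.FA.W3B

set_option autoImplicit false

/-!
# Project ZC (helper313), W3: oscillation of `h` on short intervals
-/

namespace Pool.Agent.H313.ZC.W3

open MeasureTheory Filter Topology Set
open Pool.Agent.Q299.FA.WO (D F D_meas F_meas F_nonneg hh_osc conv)

theorem t_w3 (h : S_MAX) : Pool.Agent.Q120.FA.J_W3 := by
  intro hz θ hθ0 hθ1
  have hRH : RHz := fun ρ hρ => (hz.1 ρ hρ).1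
  have hI := h hRH θ hθ0 hθ1
  have hm : Measurable fun u : ℝ => u ^ (θ - 1) := by fun_prop
  refine ⟨fun u => F θ u + 2 * u ^ (θ - 1), (F_meas θ).add (hm.const_mul 2), fun u hu => ?_, ?_⟩
  · refine ⟨add_nonneg (F_nonneg θ u) ?_, fun y hy => hh_osc hθ0 hθ1 hu hy⟩
    have : 0 ≤ u ^ (θ - 1) := Real.rpow_nonneg (by linarith) _
    linarith
  · have h1 : IntegrableOn (fun u => (F θ u / u) ^ 2) (Ioi 1) := by
      refine conv (f := fun w => D θ w / w) (S := fun u => F θ u / u)
        ((D_meas θ).div measurable_id) ((F_meas θ).div measurable_id) hI fun u hu => ?_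
      unfold F
      rw [Finset.sum_div]
      refine Finset.sum_congr rfl fun m hm => ?_
      have hm0 : (0 : ℝ) < m := by exact_mod_cast (Finset.mem_Icc.1 hm).1
      have hu0 : 0 < u := by linarith
      field_simp
    have h2 : IntegrableOn (fun u : ℝ => u ^ (2 * θ - 4)) (Ioi 1) :=
      integrableOn_Ioi_rpow_of_lt (by linarith) one_pos
    have h3 : IntegrableOn (fun u => 2 * (F θ u / u) ^ 2 + 8 * u ^ (2 * θ - 4)) (Ioi 1) :=
      (h1.const_mul 2).add (h2.const_mul 8)
    have hmeas : Measurable fun u => ((F θ u + 2 * u ^ (θ - 1)) / u) ^ 2 :=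
      (((F_meas θ).add (hm.const_mul 2)).div measurable_id).pow_const 2
    refine Integrable.mono' h3 hmeas.aestronglyMeasurable ?_
    rw [ae_restrict_iff' measurableSet_Ioi]
    refine Eventually.of_forall fun u hu => ?_
    have hu1 : (1 : ℝ) < u := hu
    have hu0 : 0 < u := by linarith
    rw [Real.norm_of_nonneg (sq_nonneg _)]
    have e1 : (2 * u ^ (θ - 1) / u) ^ 2 = 4 * u ^ (2 * θ - 4) := by
      have e2 : 2 * u ^ (θ - 1) / u = 2 * u ^ (θ - 2) := by
        rw [mul_div_assoc, ← Real.rpow_sub_one hu0.ne']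
        congr 2
        ring
      rw [e2, mul_pow, ← Real.rpow_natCast (u ^ (θ - 2)) 2, ← Real.rpow_mul hu0.le]
      have e3 : (θ - 2) * ((2 : ℕ) : ℝ) = 2 * θ - 4 := by
        push_cast
        ring
      rw [e3]
      norm_num
    have e4 : (F θ u + 2 * u ^ (θ - 1)) / u = F θ u / u + 2 * u ^ (θ - 1) / u := add_div _ _ _
    rw [e4]
    nlinarith [sq_nonneg (F θ u / u - 2 * u ^ (θ - 1) / u)]

end Pool.Agent.H313.ZC.W3
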