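import Pool.Agent.H313.ZC.W2
import Pool.Agent.H313.ZC.Inc
import Pool.Agent.H313.ZC.Max
import Pool.Agent.H313.ZC.W3
import Pool.Agent.H313.ZC.RH
import Pool.Graph.R_pool_sql_team_seeded_3997aac3.Q120.FA.Fin5
import Pool.Graph.R_pool_sql_team_seeded_3997aac3.Q176.FA.W9
import Pool.Graph.R_pool_sql_team_seeded_3997aac3.Q210.FA.W0
import Pool.Graph.R_pool_sql_team_seeded_3997aac3.Q210.FA.W1
import Pool.Graph.R_pool_sql_team_seeded_3997aac3.Q285.FA.W
import Pool.Graph.R_pool_sql_team_seeded_3997aac3.Q299.FA.W6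
import Pool.Graph.R_pool_sql_team_seeded_f0cf7b00.Results.MP_323ce2_nt.MultipleZeroGrowth

set_option autoImplicit false

/-! # Franel's sum and the weak Mertens hypothesis: assembly -/

namespace Pool.Agent.H313.ZC.FR

open MeasureTheory Filter Topology Set
open Pool.Agent.W120.WM (NT)
open Pool.Agent.H295R2 (II JJ ww)
open Pool.Agent.Q120.FA

theorem w0 : J_W0 := Pool.Agent.Q210.FA.t_W0
theorem w1 : J_W1 := Pool.Agent.Q210.FA.t_W1
theorem w2 : J_W2 := W2.t_w2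
theorem w3 : J_W3 := W3.t_w3 (Max.t_max Inc.t_inc)
theorem w4 : J_W4 := Pool.Agent.Q176.FA.W4.t_W4 w1 w2 w3
theorem w5 : J_W5 := Pool.Agent.Q176.FA.W5.t_W5 w1 w2
theorem w6 : J_W6 := Pool.Agent.Q299.FA.t_W6 w1 w2
theorem w8 : J_W8 := W2.t_w8
theorem w9 : J_W9 := Pool.Agent.Q176.FA.W9.t_W9 w1
theorem w10 : J_W10 := Pool.Agent.Q285.FA.t_W10
theorem w11 : J_W11 := Pool.Agent.Q285.FA.t_W11

/-- the constant for Franel's sum -/
noncomputable def KD : ℝ := Real.pi ^ 2 / 3 * SQ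

lemma lowQ (h : ZC) : ∀ c : ℝ, c < SQ → ∀ᶠ N : ℕ in atTop, c ≤ aQ N := by
  intro c hc
  filter_upwards [w4 h c hc, eventually_ge_atTop 2] with N h1 h2
  have hN0 : (0 : ℝ) < N := by
    have : 0 < N := by omega
    exact_mod_cast this
  have hl : 0 < Real.log N := Real.log_pos (by exact_mod_cast h2)
  unfold aQ
  rw [le_div_iff₀ (mul_pos hN0 hl)]
  exact h1

lemma lowD (h : ZC) : ∀ c : ℝ, c < KD → ∀ᶠ N : ℕ in atTop, c ≤ bD N := low_D w0 (lowQ h)

lemma meanQ (h : ZC) : Tendsto (mean aQ) atTop (𝓝 (SQ / 2)) := by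
  have h1 := w6 h
  have e : zs / (24 * z3) = SQ / 2 := by
    unfold SQ
    ring
  rw [e] at h1
  exact (mean_fin w0 w11 h1).1

lemma meanD (h : ZC) : Tendsto (mean bD) atTop (𝓝 (KD / 2)) := by
  have h1 := w6 h
  have e : zs / (24 * z3) = SQ / 2 := by
    unfold SQ
    ring
  rw [e] at h1
  exact (mean_fin w0 w11 h1).2

lemma nullD (h : ZC) {ε : ℝ} (hε : 0 < ε) : Null (fun N => ε < |bD N - KD|) :=
  null_of w10 bD_nonneg (lowD h) (meanD h) hε

lemma nullQ (h : ZC) {ε : ℝ} (hε : 0 < ε) : Null (fun N => ε < |aQ N - SQ|) :=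
  null_of w10 aQ_nonneg (lowQ h) (meanQ h) hε

lemma topQ (h : ¬ ZC) : Tendsto aQ atTop atTop := w5 h

lemma topD (h : ¬ ZC) : Tendsto bD atTop atTop := top_D w0 (topQ h)

lemma mean_topD (h : ¬ ZC) : Tendsto (mean bD) atTop atTop := (mean_inf w0 w11 (topQ h)).2

lemma zc_iff : ZC ↔ HS ∧ Summable (fun ρ : NT => aa ρ) := Iff.rfl

/-- a zero off the line or multiple: `I(x) ≥ c (log x)³` -/
lemma II_big {ρ : ℂ} (hρ : ρ ∈ NT) (h : ρ.re ≠ 1 / 2 ∨ deriv riemannZeta ρ = 0) :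
    ∃ c : ℝ, 0 < c ∧ ∀ᶠ x : ℝ in atTop, c * Real.log x ^ 3 ≤ II x := by
  have key : ∀ ρ : ℂ, riemannZeta ρ = 0 → 1 / 2 < ρ.re → ρ.re < 1 →
      ∃ c : ℝ, 0 < c ∧ ∀ᶠ x : ℝ in atTop, c * Real.log x ^ 3 ≤ II x := by
    intro ρ hz h1 h2
    obtain ⟨c, hc, hx⟩ := Pool.Agent.Results.MP_323ce2_nt.MultipleZeroGrowth.result ρ h1.le h2 1 le_rfl (by
      intro j hj
      have : j = 0 := by omega
      subst this
      simpa using hz)
    refine ⟨c, hc, ?_⟩
    have hδ : 0 < 2 * ρ.re - 1 := by linarith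
    have h3 := (isLittleO_log_rpow_rpow_atTop 3 hδ).bound one_pos
    filter_upwards [hx, h3, eventually_ge_atTop (1 : ℝ)] with x g1 g2 g3
    have e1 : Pool.Agent.Results.MP_323ce2_nt.MultipleZeroGrowth.logExp ρ 1 = 0 := by
      unfold Pool.Agent.Results.MP_323ce2_nt.MultipleZeroGrowth.logExp
      rw [if_neg h1.ne']
    rw [e1, pow_zero, mul_one] at g1
    have hl := Real.log_nonneg g3
    rw [Real.norm_of_nonneg (Real.rpow_nonneg hl _), Real.norm_of_nonneg (Real.rpow_nonneg (by linarith) _), one_mul] at g2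
    have e2 : Real.log x ^ (3 : ℝ) = Real.log x ^ 3 := by norm_num
    rw [e2] at g2
    calc c * Real.log x ^ 3 ≤ c * x ^ (2 * ρ.re - 1) := by gcongr
      _ ≤ II x := g1
  rcases lt_trichotomy ρ.re (1 / 2) with h1 | h1 | h1
  · refine key (1 - ρ) ?_ (by simp; linarith) (by simp; exact hρ.2.1)
    rw [riemannZeta_one_sub]
    · rw [hρ.1, mul_zero]
    · intro n hn
      have := hρ.2.1
      rw [hn] at this
      simp at this
      linarith [(Nat.cast_nonneg n : (0:ℝ) ≤ n)]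
    · rintro rfl
      have := hρ.2.2
      simp at this
  · have hd : deriv riemannZeta ρ = 0 := by
      rcases h with h | h
      · exact absurd h1 h
      · exact h
    obtain ⟨c, hc, hx⟩ := Pool.Agent.Results.MP_323ce2_nt.MultipleZeroGrowth.result ρ h1.ge hρ.2.2 2 (by norm_num) (by
      intro j hj
      have : j = 0 ∨ j = 1 := by omega
      rcases this with rfl | rfl
      · simpa using hρ.1
      · simpa using hd)
    refine ⟨c, hc, ?_⟩
    filter_upwards [hx] with x g1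
    have e1 : Pool.Agent.Results.MP_323ce2_nt.MultipleZeroGrowth.logExp ρ 2 = 3 := by
      unfold Pool.Agent.Results.MP_323ce2_nt.MultipleZeroGrowth.logExp
      rw [if_pos h1]
    rw [e1, h1] at g1
    norm_num at g1
    exact g1
  · exact key ρ hρ.1 h1 hρ.2.2

/-- then Franel's integral is at least `c N (log N)³` -/
lemma FI_big {ρ : ℂ} (hρ : ρ ∈ NT) (h : ρ.re ≠ 1 / 2 ∨ deriv riemannZeta ρ = 0) :
    ∃ c : ℝ, 0 < c ∧ ∀ᶠ N : ℕ in atTop, c * (N * Real.log N ^ 3) ≤ FI N := by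
  obtain ⟨c, hc, h1⟩ := II_big hρ h
  obtain ⟨C, hC, h2⟩ := w8
  obtain ⟨c9, hc9, h3⟩ := w9
  refine ⟨c9 * c / (64 * C), by positivity, ?_⟩
  have ht : Tendsto (fun N : ℕ => Real.sqrt N / 2) atTop atTop :=
    (Real.tendsto_sqrt_atTop.comp tendsto_natCast_atTop_atTop).atTop_div_const (by norm_num)
  have ht2 : ∀ᶠ N : ℕ in atTop, 4 * Real.log 2 ≤ Real.log N :=
    (Real.tendsto_log_atTop.comp tendsto_natCast_atTop_atTop).eventually_ge_atTop _
  filter_upwards [ht.eventually h1, ht.eventually (eventually_ge_atTop (1 : ℝ)), h3, ht2, eventually_ge_atTop 1]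
    with N g1 g2 g3 g4 g5
  have hN0 : (0 : ℝ) < N := by exact_mod_cast g5
  have g6 : II (Real.sqrt N / 2) ≤ C * H2 (Real.sqrt N / 2) := h2 _ g2
  have e1 : Real.log (Real.sqrt N / 2) = Real.log N / 2 - Real.log 2 := by
    rw [Real.log_div (Real.sqrt_pos.2 hN0).ne' (by norm_num), Real.log_sqrt hN0.le]
  have g7 : Real.log N / 4 ≤ Real.log (Real.sqrt N / 2) := by
    rw [e1]
    linarith
  have hl : 0 ≤ Real.log N := Real.log_natCast_nonneg N
  have g8 : (Real.log N / 4) ^ 3 ≤ Real.log (Real.sqrt N / 2) ^ 3 := pow_le_pow_left₀ (by linarith) g7 3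
  have g9 : c * (Real.log N / 4) ^ 3 ≤ C * H2 (Real.sqrt N / 2) := by
    calc c * (Real.log N / 4) ^ 3 ≤ c * Real.log (Real.sqrt N / 2) ^ 3 := by gcongr
      _ ≤ _ := g1.trans g6
  have g10 : c * (Real.log N / 4) ^ 3 / C ≤ H2 (Real.sqrt N / 2) := by
    rw [div_le_iff₀ hC]
    linarith
  calc c9 * c / (64 * C) * (N * Real.log N ^ 3) = c9 * (N * (c * (Real.log N / 4) ^ 3 / C)) := by
        ring
    _ ≤ c9 * (N * H2 (Real.sqrt N / 2)) := by gcongr
    _ ≤ FI N := g3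

lemma D_big {ρ : ℂ} (hρ : ρ ∈ NT) (h : ρ.re ≠ 1 / 2 ∨ deriv riemannZeta ρ = 0) :
    ∃ c : ℝ, 0 < c ∧ ∀ᶠ N : ℕ in atTop, c * (Real.log N ^ 3 / N) ≤ D 2 N := by
  obtain ⟨c, hc, h1⟩ := FI_big hρ h
  refine ⟨c / 2, by positivity, ?_⟩
  have ht : ∀ᶠ N : ℕ in atTop, 1 ≤ Real.log N :=
    (Real.tendsto_log_atTop.comp tendsto_natCast_atTop_atTop).eventually_ge_atTop _
  have ht2 : ∀ᶠ N : ℕ in atTop, 1 / c ≤ (N : ℝ) := tendsto_natCast_atTop_atTop.eventually_ge_atTop _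
  filter_upwards [h1, ht, ht2, eventually_ge_atTop 1] with N g1 g2 g3 g4
  have hN0 : (0 : ℝ) < N := by exact_mod_cast g4
  have hP := Ph_pos g4
  have hP2 := Ph_le N
  rw [D2_eq w0 g4, le_div_iff₀ (by linarith)]
  have g5 : (1 : ℝ) ≤ Real.log N ^ 3 := one_le_pow₀ g2
  have g6 : 1 ≤ c * N := by
    rw [div_le_iff₀ hc] at g3
    linarith
  have g7 : 1 ≤ c * (N * Real.log N ^ 3) := by
    calc (1 : ℝ) ≤ c * N := g6
      _ ≤ c * (N * Real.log N ^ 3) := by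
        have : (N : ℝ) ≤ N * Real.log N ^ 3 := le_mul_of_one_le_right hN0.le g5
        gcongr
  calc c / 2 * (Real.log N ^ 3 / N) * Ph N ≤ c / 2 * (Real.log N ^ 3 / N) * (N : ℝ) ^ 2 := by gcongr
    _ = c * (N * Real.log N ^ 3) / 2 := by field_simp
    _ ≤ c * (N * Real.log N ^ 3) - 1 / 3 := by linarith
    _ ≤ FI N - 1 / 3 := by linarith

/-- the weights with `ζ(1+ρ)` are comparable -/
lemma bb_ge : ∃ K : ℝ, 0 < K ∧ ∀ ρ : ℂ, ρ.re = 1 / 2 → aa ρ ≤ K * W2.bb ρ := by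
  obtain ⟨K, hK, h⟩ := Pool.Agent.H295R2.zeta_bounds (a := 3 / 2) (by norm_num)
  refine ⟨K ^ 2, by positivity, fun ρ hρ => ?_⟩
  have h1 : (3 / 2 : ℝ) ≤ (1 + ρ).re := by
    simp [hρ]
    norm_num
  have h2 := (h (1 + ρ) h1).2
  have hne : riemannZeta (1 + ρ) ≠ 0 := riemannZeta_ne_zero_of_one_le_re (by linarith)
  have hne1 : (1 + ρ) ≠ 1 := by
    intro h0
    have h3 := congrArg Complex.re h0
    rw [Complex.one_re] at h3
    linarith
  have h4 : ‖(riemannZeta (1 + ρ))⁻¹‖ ≤ K := by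
    rwa [Pool.Agent.H295R2.fz_eq hne1] at h2
  rw [norm_inv] at h4
  have h5 : 0 < ‖riemannZeta (1 + ρ)‖ := norm_pos_iff.2 hne
  have h6 : 1 ≤ K * ‖riemannZeta (1 + ρ)‖ := by
    rw [inv_le_iff_one_le_mul₀ h5] at h4
    linarith
  have h7 : 1 ≤ K ^ 2 * ‖riemannZeta (1 + ρ)‖ ^ 2 := by
    rw [← mul_pow]
    exact one_le_pow₀ h6
  unfold aa W2.bb
  rw [mul_div_assoc']
  gcongr

end Pool.Agent.H313.ZC.FR
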