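import Pool.Graph.R_seed8.W120.WM.Defs

set_option autoImplicit false

/-!
# Project ZC (helper313), MP_323ce2_nt: statements of the pieces

THEOREM. `lim (log x)^(-1) ∫_1^x (M(u)/u)² du = ∑_ρ 1/|ρ ζ'(ρ)|²` in `[0,∞]` (value `∞` if RH fails or a zero is multiple).
In particular the weak Mertens hypothesis holds iff RH holds, all zeros are simple and `∑ 1/|ρ ζ'(ρ)|² < ∞`.
The lower bound is in the library (`H295R2`). New is the upper bound. Definitions `Mx`, `gk`, `Sm`, `EE`, `GG`, `NT` are those of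
`Pool.Graph.R_seed8.W120.WM.Defs` (`GG h 0 s = exp (h² s²/2) / (s ζ(s))`, `Sm h v` the Gaussian smoothing of `M(e^v)`).
Note that in Lean `riemannZeta 1` is a finite junk value, so `GG h 0` is wrong at the single point `1`.
-/

namespace Pool.Agent.H313.ZC

open MeasureTheory Filter Topology Set
open Pool.Agent.W120.WM (Mx gk Sm EE GG NT)

/-- the Riemann hypothesis -/
def RHz : Prop := ∀ ρ ∈ NT, ρ.re = 1 / 2

/-- the Riemann hypothesis and simplicity of the zeros -/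
def HS : Prop := ∀ ρ ∈ NT, ρ.re = 1 / 2 ∧ deriv riemannZeta ρ ≠ 0

/-- JOB LAP. The Laplace transform of `M(e^y)` under RH.
Proof. `Pool.Agent.H295R2.mertens_bound` (module `Pool.Graph.R_seed8.H295R2.M`, with `θ = 1/2`; `Zs = riemannZeta₁`; the hypothesis
`Zs s ≠ 0` for `Re s > 1/2` follows from `RHz` and `riemannZeta_ne_zero_of_one_le_re`, `riemannZeta₁_one`) gives
`|M(y)| ≤ C y^σ`, `σ = (1/2 + min c 1)/2`-like, hence the integrability (for `y < 0` the integrand vanishes,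
`Pool.Agent.W150.WM.mx_zero`). For `Re s > 1` the identity is `Pool.Agent.W150.WM.inv_zeta`
(module `Pool.Graph.R_seed8.W150.WM.Inv`). Both sides of `(s-1) = s ζ₁(s) ∫ M(e^y) e^(-sy) dy`, `ζ₁(s) = (s-1) ζ(s)`, are analytic in
`Re s > 1/2` (the integral: `H295R2.Nice`/`Lap` in `Pool.Graph.R_seed8.H295R2.Lap`, or
`hasDerivAt_integral_of_dominated_loc_of_deriv_le`), and they agree for `Re s > 1`, so they agree for `Re s > 1/2`. -/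
def S_LAP : Prop := RHz → ∀ c : ℝ, 1 / 2 < c →
  Integrable (fun y : ℝ => Mx (Real.exp y) * Real.exp (-(c * y))) ∧
  ∀ s : ℂ, s.re = c → s ≠ 1 →
    (s * riemannZeta s)⁻¹ = ∫ y : ℝ, ((Mx (Real.exp y) : ℝ) : ℂ) * Complex.exp (-(s * y))

/-- JOB MSQ (uses `S_LAP` as a hypothesis). The mean square of the smoothed Mertens function as a contour integral.
Proof. All by Fubini, as in `Pool.Agent.W150.WM.inv` (module `Pool.Graph.R_seed8.W150.WM.Inv`), with the line `Re s = c` in place of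
`Re s = 3/2`. (1) Inversion: `Sm h v = (1/2π) ∫ GG h v (c+it) dt`, `GG h 0 (c+it)` is integrable
(`|1/(s ζ(s))| ≤ ∫ |M(e^y)| e^(-cy) dy`, times a Gaussian; `c + it ≠ 1` as `c < 1`).
(2) `v ↦ Sm h v e^(-cv)` is integrable and `∫ Sm h v e^(-sv) dv = GG h 0 s` for `Re s = c`
(`Sm h v = ∫ M(e^y) gk h (v-y) dy`, `∫ gk h w e^(-sw) dw = e^(h²s²/2)`).
(3) `Sm h v = e^(cv) O(1)` by (1), so `Sm² e^(-2cv)` is integrable by (2), and
`∫ Sm h v · Sm h v e^(-2cv) dv = (1/2π) ∫ GG h 0 (c+it) ∫ Sm h v e^(-(c-it)v) dv dt = (1/2π) ∫ GG h 0 (c+it) GG h 0 (c-it) dt`. -/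
def S_MSQ : Prop := RHz → ∀ c h : ℝ, 1 / 2 < c → c < 1 → 0 < h →
  Integrable (fun v : ℝ => Sm h v ^ 2 * Real.exp (-(2 * c * v))) ∧
  Integrable (fun t : ℝ => GG h 0 (⟨c, t⟩ : ℂ) * GG h 0 (2 * c - (⟨c, t⟩ : ℂ))) ∧
  ((∫ v : ℝ, Sm h v ^ 2 * Real.exp (-(2 * c * v)) : ℝ) : ℂ) =
    ((2 * Real.pi : ℝ) : ℂ)⁻¹ * ∫ t : ℝ, GG h 0 (⟨c, t⟩ : ℂ) * GG h 0 (2 * c - (⟨c, t⟩ : ℂ))

/-- JOB SHIFT. Shift of the line of integration from `Re s = c` to `Re s = -1/2`.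
Proof. Adapt `Pool.Graph.R_seed8.W280.WM.EF` (theorems `rect` and `ef`, the lemmas on `Fz` can be imported) and
`Pool.Graph.R_seed8.W565.WM.Res` (residue theorem for `g / F` on a rectangle, by induction on the number of zeros; in `aux` replace
`Differentiable ℂ g` by `DifferentiableOn ℂ g U`, `U` open, containing the closed rectangle; `F` stays entire).
`F = Fz`, `Fz s = s ζ₁(s)`, zeros in `Re s ≥ -1/2`: `0` and `NT`; `g(s) = (s-1) EE h 0 s · H(2c-s)` with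
`H(w) = (w-1) EE h 0 w / (w ζ₁(w))`, analytic for `Re w > 1/2` by RH, equal to `GG h 0 w` for `w ≠ 1` (`H(1) = 0`, while `GG h 0 1` is junk;
`1 = 2c - s` is not met on the contour or at the residue points as `1/2 < c < 3/4`), so `g` is analytic on `U = {Re s < 2c - 1/2}`, which
contains the rectangle `[-1/2, c] × [-U_k, U_k]`. Residue at `0`: `- GG h 0 (2c)`·2; at `ρ`: the summand. Good heights `U_k`
(`Pool.Agent.W915.WM.hor : T_HOR`, module `Pool.Graph.R_seed8.W915.WM.Hor`): on `|Im s| = U_k`, `-1/2 ≤ Re s ≤ c` both factors are bounded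
by `exp (C log² U_k - h² U_k²/2 + O(1))` (for the second one, `Re (2c - s) ∈ [c, 2c + 1/2]`, use `T_HOR` up to `3/2` and
`Pool.Agent.W191.WM.zeta_inv_right` beyond). `E = 2 GG h 0 (2c) - (1/2π) ∫ GG h 0 (-1/2+it) GG h 0 (2c+1/2-it) dt`, uniformly bounded:
`|1/(2c ζ(2c))| ≤ 1/|(2c-1)ζ(2c)|` is bounded on `2c ∈ [1, 3/2]` (or `≤ ζ(2c)`-free bound `|1/ζ(x)| ≤ 1` for real `x > 1`, from
`ζ(x) ≥ 1`), and on the line `-1/2` use `Pool.Agent.W191.WM.left : T_LEFT` and `zeta_inv_right`. -/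
def S_SHIFT : Prop := HS → ∃ B : ℝ, 0 < B ∧ ∃ Z : ℕ → Finset ℂ, (∀ k, ∀ ρ ∈ Z k, ρ ∈ NT) ∧
  ∀ c h : ℝ, 1 / 2 < c → c < 3 / 4 → 0 < h → h ≤ 1 →
  Integrable (fun t : ℝ => GG h 0 (⟨c, t⟩ : ℂ) * GG h 0 (2 * c - (⟨c, t⟩ : ℂ))) →
  ∃ E : ℂ, ‖E‖ ≤ B ∧
    Tendsto (fun k => ∑ ρ ∈ Z k, EE h 0 ρ * GG h 0 (2 * c - ρ) / (ρ * deriv riemannZeta ρ)) atTop
      (𝓝 (((2 * Real.pi : ℝ) : ℂ)⁻¹ * (∫ t : ℝ, GG h 0 (⟨c, t⟩ : ℂ) * GG h 0 (2 * c - (⟨c, t⟩ : ℂ))) + E))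

/-- `ξ(1/2 + z)` (twice Riemann's function), entire and even -/
noncomputable def X (z : ℂ) : ℂ := (1 / 2 + z) * (z - 1 / 2) * completedRiemannZeta₀ (1 / 2 + z) + 1

/-- JOB GROW. The order of `ξ` is less than `2`.
Proof. For `s = 1/2 + z ≠ 0, 1`: `X z = s (s-1) completedRiemannZeta s = s (s-1) Gammaℝ s ζ(s)`, and `X (-z) = X z`
(`completedRiemannZeta₀_one_sub`). For `Re s ≥ 1/2` away from `s = 1`: `‖Gammaℝ s‖ ≤ exp (K (1+‖s‖)^(3/2))`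
(`Pool.Agent.Y818.FV.grow_GR`, module `Pool.Graph.R_pool_sql_team_seeded_1acbe0a2.Y818.FV.GROW`, with a small calculus `grow_GB`; or
directly: `|Γ(s)| ≤ Γ(Re s)`, `Γ(x) ≤ exp (2 (x+1)^(3/2))`), and `(s-1) ζ(s)` is polynomially bounded for `Re s ≥ 1/2` (library, e.g.
`Pool.Graph.R_seed8.H52R4.PZT1` `zeta_strip` for `-1/2 ≤ Re s ≤ 2`, and `|ζ(s)| ≤ ζ(2)` beyond); the compact set
`|s| ≤ 3` by continuity. -/
def S_GROW : Prop := ∃ C : ℝ, ∀ z : ℂ, ‖X z‖ ≤ Real.exp (C * (1 + ‖z‖) ^ (3 / 2 : ℝ))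

/-- JOB HAD. An even entire function of order less than two all of whose zeros are purely imaginary: the quotient `X(iγ + τ)/τ` is at
least as large as its limit `X'(iγ)`.
Proof. Hadamard's theorem by hand, as in `Pool.Agent.NH98.RT.t_had` (module `Pool.Graph.R_pool_sql_team_seeded_3dad9d7b.NH98.RT.Had`,
whose lemmas `exists_sq`, `exists_div`, `exists_div_prod`, `finite_zeros`, `exists_log`, `quotient_bound` can be imported).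
If `X'(iγ) = 0` (in particular if `γ = 0`, as `X` is even) there is nothing to prove. Otherwise `X z = G(z²)`, `G` entire,
`|G(w)| ≤ exp (C (1+√|w|)^(3/2))`, all zeros of `G` are real and `≤ 0`. `G(w) = w^k G₁(w)`, `G₁(0) ≠ 0`. For `R` large let `S` be the zeros
of `G₁` in `|w| ≤ R²`, `G₁(w) = ∏_{a ∈ S} (1 - w/a)^{m_a} g(w)`; `g` has no zeros in `|w| < R²`, `|g| ≤ |G|` on `|w| = 4R²`, so by
Borel-Caratheodory applied to `log (g/g(0))` on `|w| < R²` (`M' = O((1+2R)^(3/2))`):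
`|log |g(w)/g(0)|| ≤ 2 M' |w|/(R² - |w|) → 0` as `R → ∞` (both bounds, see `quotient_bound`, for fixed `w`).
With `a₀ = -γ²` (a simple zero of `G`), `w₁ = (iγ+τ)²`: `|1 - w₁/a| ≥ |1 - a₀/a|` for `a = -x²`, as
`|w₁ + x²| = |τ + i(γ-x)| |τ + i(γ+x)| ≥ |γ-x| |γ+x|`, `|w₁|^k ≥ |a₀|^k`, and `|w₁ - a₀| = τ |τ + 2iγ| ≥ 2 τ |γ|`. Hence
`|X(iγ+τ)| = |G(w₁)| ≥ τ · 2|γ| |G'(a₀)| (1 - o(1)) = τ |X'(iγ)| (1 - o(1))`. -/
def S_HAD : Prop := ∀ (X : ℂ → ℂ) (C : ℝ), Differentiable ℂ X →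
  (∀ z, ‖X z‖ ≤ Real.exp (C * (1 + ‖z‖) ^ (3 / 2 : ℝ))) → (∀ z, X (-z) = X z) → (∀ z, X z = 0 → z.re = 0) →
  ∀ γ τ : ℝ, 0 ≤ τ → X (γ * Complex.I) = 0 → τ * ‖deriv X (γ * Complex.I)‖ ≤ ‖X (γ * Complex.I + τ)‖

/-- JOB GAM. Growth of the Gamma factor to the right of the critical line.
Proof. `Gammaℝ s = π^(-s/2) Γ(s/2)`. For `z = 1/4 + iγ/2`, `0 ≤ a = τ/2 ≤ 1/4`: `log |Γ(z+a)/Γ(z)| = ∫_0^a Re ψ(z+x) dx` and
`Re ψ(w) ≤ log |w| + C` for `Re w ≥ 1/4` (digamma bounds: `Pool.Graph.R_seed8.H370R2.Digamma`, `Pool.Graph.R_seed8.H382R2.Digamma`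
`digamma_bound`; or Stirling, `Pool.Graph.R_seed8.H401R2.Stir`; or `gamma_ratio` in other modules; or without them:
`|Γ(z+a)| ≤ |Γ(z)|^(1-a) |Γ(z+1)|^a`-like estimates from the product `Γ(z) = lim n^z n!/(z(z+1)...(z+n))`), and `|w| ≤ 2 |z|`-like. -/
def S_GAM : Prop := ∃ C : ℝ, 0 < C ∧ ∀ γ τ : ℝ, 0 ≤ τ → τ ≤ 1 / 2 →
  ‖Complex.Gammaℝ (⟨1 / 2 + τ, γ⟩ : ℂ)‖ ≤ C * ‖(⟨1 / 2, γ⟩ : ℂ)‖ ^ (τ / 2) * ‖Complex.Gammaℝ (⟨1 / 2, γ⟩ : ℂ)‖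

/-- JOB TERM (uses `S_GROW`, `S_HAD`, `S_GAM` as hypotheses).
Proof. For `ρ ∈ NT`, `ρ = 1/2 + iγ`: `X(iγ + τ) = (ρ+τ)(ρ+τ-1) Gammaℝ(ρ+τ) ζ(ρ+τ)` and
`X'(iγ) = ρ(ρ-1) Gammaℝ(ρ) ζ'(ρ)` (`X` is `s(s-1)Gammaℝ(s)ζ(s)` near `ρ`, and `ζ(ρ) = 0`). The zeros of `X` are the points `s - 1/2`,
`s ∈ NT` (`X` is entire and even; for `Re s > 1` there are none; `X(±1/2) = 1`), so they are purely imaginary by RH. `S_HAD` and `S_GAM`;
`|ρ+τ| |ρ+τ-1| ≤ 4 |ρ| |ρ-1|`. (Also `ρ + τ ≠ 1`: zeros in the open strip have `Im ρ ≠ 0`, or `τ = 1/2`, `ρ = 1/2`, which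
is excluded as `ζ(1/2) ≠ 0`; library: `ζ(x) ≠ 0` for real `0 < x < 1`.) -/
def S_TERM : Prop := RHz → ∃ C : ℝ, 0 < C ∧ ∀ ρ ∈ NT, ∀ τ : ℝ, 0 < τ → τ ≤ 1 / 2 →
  τ * ‖deriv riemannZeta ρ‖ ≤ C * ‖ρ‖ ^ (τ / 2) * ‖riemannZeta (ρ + τ)‖

/-- JOB CONJ. Symmetry of the zeros and of the values. (`riemannZeta_conj` or the library; `deriv_conj`-type lemma; for `NT`:
functional equation not needed.) -/
def S_CONJ : Prop := (∀ s : ℂ, riemannZeta ((starRingEnd ℂ) s) = (starRingEnd ℂ) (riemannZeta s)) ∧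
  ∀ s : ℂ, s ≠ 1 → deriv riemannZeta ((starRingEnd ℂ) s) = (starRingEnd ℂ) (deriv riemannZeta s)

/-- the mean square of `M(e^v) e^(-v/2)` -/
noncomputable def JV (V : ℝ) : ℝ := ∫ v in Ioc (0 : ℝ) V, Mx (Real.exp v) ^ 2 * Real.exp (-v)

/-- `∑ 1/|ρ ζ'(ρ)|²` -/
noncomputable def SS : ℝ := ∑' ρ : NT, 1 / ‖(ρ : ℂ) * deriv riemannZeta ρ‖ ^ 2

/-- The main step (helper313): from `S_MSQ`, `S_SHIFT`, `S_TERM`, `S_CONJ` to the Laplace means of `M(e^v)² e^(-v)`. -/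
def S_UP : Prop := HS → Summable (fun ρ : NT => 1 / ‖(ρ : ℂ) * deriv riemannZeta ρ‖ ^ 2) → ∀ ε : ℝ, 0 < ε →
  ∀ᶠ V : ℝ in atTop, ∫⁻ v in Ioi (0 : ℝ), ENNReal.ofReal ((Mx (Real.exp v) ^ 2 * Real.exp (-v)) * Real.exp (-(v / V))) ≤
    ENNReal.ofReal ((SS + ε) * V)

end Pool.Agent.H313.ZC
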