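import Mathlib
import Pool.Agent.H313.ZC.Stm
import Pool.Graph.R_seed8.H370R2.Digamma

/-!
Task GAM of project ZC (helper549): growth of the Gamma factor to the right of the critical line.
-/

set_option autoImplicit false

namespace Pool.Agent.H313.ZC.Gam

open Complex Filter Topology Set
open H370.DG

/-- the constant of the error series -/
noncomputable def Z2 : ℝ := ∑' n : ℕ, 1 / ((n : ℝ) + 1) ^ 2

lemma Z2_nonneg : 0 ≤ Z2 := tsum_nonneg fun n => by positivity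

/-- upper bound for the real part of the digamma function -/
lemma dig_le {s : ℂ} (hs : 0 < s.re) :
    (-(1 / s) - 1 / (s + 1) + ∑' n, gd n s).re ≤ Real.log ‖s + 2‖ + Z2 := by
  rw [tsum_gd hs]
  have h1 : 0 ≤ (1 / s).re := by
    rw [one_div, Complex.inv_re]
    exact div_nonneg hs.le (Complex.normSq_nonneg s)
  have h2 : 0 ≤ (1 / (s + 1)).re := by
    rw [one_div, Complex.inv_re]
    refine div_nonneg ?_ (Complex.normSq_nonneg _)
    rw [Complex.add_re, Complex.one_re]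
    linarith
  have h3 : (∑' n, er n s).re ≤ Z2 :=
    (Complex.re_le_norm _).trans (norm_tsum_er hs)
  have h4 : (Complex.log (s + 2)).re = Real.log ‖s + 2‖ := Complex.log_re _
  simp only [Complex.add_re, Complex.sub_re, Complex.neg_re]
  rw [h4]
  linarith

/-- growth of Gamma along horizontal segments -/
lemma gamma_growth {z : ℂ} (hz : 1 / 4 ≤ z.re) {a : ℝ} (ha : 0 ≤ a) (ha1 : a ≤ 1 / 4) :
    ‖Complex.Gamma (z + a)‖ ≤ ‖Complex.Gamma z‖ * Real.exp (a * (Real.log (10 * ‖z‖) + Z2)) := by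
  have hzn : 1 / 4 ≤ ‖z‖ := hz.trans (Complex.re_le_norm z)
  have hd : ∀ x : ℝ, 0 ≤ x → HasDerivAt (fun x : ℝ => (lG (z + x)).re)
      ((-(1 / (z + x)) - 1 / ((z + x) + 1) + ∑' n, gd n (z + x)).re) x := by
    intro x hx
    have hs : 0 < (z + (x : ℂ)).re := by
      rw [Complex.add_re, Complex.ofReal_re]
      linarith
    have h1 : HasDerivAt (fun w : ℂ => lG (z + w))
        (-(1 / (z + x)) - 1 / ((z + x) + 1) + ∑' n, gd n (z + x)) (x : ℂ) :=
      HasDerivAt.comp_const_add z (x : ℂ) (hasDerivAt_lG hs)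
    exact h1.real_of_complex
  have hmv := Convex.image_sub_le_mul_sub_of_deriv_le (D := Icc (0 : ℝ) a) (convex_Icc 0 a)
    (f := fun x : ℝ => (lG (z + x)).re) (C := Real.log (10 * ‖z‖) + Z2)
    (fun x hx => (hd x hx.1).continuousAt.continuousWithinAt)
    (fun x hx => by
      rw [interior_Icc] at hx
      exact (hd x hx.1.le).differentiableAt.differentiableWithinAt)
    (fun x hx => by
      rw [interior_Icc] at hx
      rw [(hd x hx.1.le).deriv]
      have hs : 0 < (z + (x : ℂ)).re := by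
        rw [Complex.add_re, Complex.ofReal_re]
        linarith [hx.1]
      refine (dig_le hs).trans ?_
      gcongr
      · refine norm_pos_iff.2 fun h => ?_
        have := congrArg Complex.re h
        simp only [Complex.add_re, Complex.ofReal_re, Complex.zero_re, Complex.re_ofNat] at this
        linarith [hx.1]
      · have e1 : ‖z + (x : ℂ) + 2‖ ≤ ‖z‖ + ‖(x : ℂ)‖ + ‖(2 : ℂ)‖ :=
          (norm_add_le _ _).trans (add_le_add_left (norm_add_le _ _) _)
        have e2 : ‖(x : ℂ)‖ ≤ 1 / 4 := by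
          rw [Complex.norm_real, Real.norm_of_nonneg hx.1.le]
          linarith [hx.2]
        have e3 : ‖(2 : ℂ)‖ = 2 := by simp
        rw [e3] at e1
        linarith)
    0 ⟨le_rfl, ha⟩ a ⟨ha, le_rfl⟩ ha
  have hs0 : 0 < z.re := by linarith
  have hs1 : 0 < (z + (a : ℂ)).re := by
    rw [Complex.add_re, Complex.ofReal_re]
    linarith
  rw [← exp_lG hs0, ← exp_lG hs1, Complex.norm_exp, Complex.norm_exp, ← Real.exp_add]
  apply Real.exp_le_exp.2
  simp only [Complex.ofReal_zero, add_zero, sub_zero] at hmv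
  linarith

theorem t_gam : S_GAM := by
  refine ⟨5 * Real.exp Z2, by positivity, ?_⟩
  intro γ τ h0 h1
  have hpi := Real.pi_pos
  set z : ℂ := (⟨1 / 2, γ⟩ : ℂ) / 2 with hz
  have hzre : z.re = 1 / 4 := by
    rw [hz]
    have : ((⟨1 / 2, γ⟩ : ℂ) / 2).re = (⟨1 / 2, γ⟩ : ℂ).re / 2 := by
      rw [show (2 : ℂ) = ((2 : ℝ) : ℂ) by norm_num, Complex.div_ofReal_re]
    rw [this]
    norm_num
  have hzn : ‖z‖ = ‖(⟨1 / 2, γ⟩ : ℂ)‖ / 2 := by
    rw [hz, norm_div]
    simp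
  have hs : (⟨1 / 2 + τ, γ⟩ : ℂ) / 2 = z + ((τ / 2 : ℝ) : ℂ) := by
    rw [hz]
    apply Complex.ext
    · rw [show (2 : ℂ) = ((2 : ℝ) : ℂ) by norm_num, Complex.div_ofReal_re, Complex.add_re,
        Complex.div_ofReal_re, Complex.ofReal_re]
      ring
    · rw [show (2 : ℂ) = ((2 : ℝ) : ℂ) by norm_num, Complex.div_ofReal_im, Complex.add_im,
        Complex.div_ofReal_im, Complex.ofReal_im]
      ring
  have hG := gamma_growth (z := z) (by rw [hzre]) (a := τ / 2) (by linarith) (by linarith)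
  have hn0 : 0 < ‖(⟨1 / 2, γ⟩ : ℂ)‖ := by
    refine norm_pos_iff.2 fun h => ?_
    have := congrArg Complex.re h
    simp at this
  have he : Real.exp (τ / 2 * (Real.log (10 * ‖z‖) + Z2)) ≤
      5 * Real.exp Z2 * ‖(⟨1 / 2, γ⟩ : ℂ)‖ ^ (τ / 2) := by
    rw [hzn, show 10 * (‖(⟨1 / 2, γ⟩ : ℂ)‖ / 2) = 5 * ‖(⟨1 / 2, γ⟩ : ℂ)‖ by ring,
      Real.log_mul (by norm_num) hn0.ne', Real.rpow_def_of_pos hn0]
    have e5 : (5 : ℝ) = Real.exp (Real.log 5) := (Real.exp_log (by norm_num)).symm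
    conv_rhs => rw [e5, ← Real.exp_add, ← Real.exp_add]
    apply Real.exp_le_exp.2
    have h5 : 0 ≤ Real.log 5 := Real.log_nonneg (by norm_num)
    have hZ := Z2_nonneg
    nlinarith
  have hpow1 : ∀ s : ℂ, ‖(Real.pi : ℂ) ^ (-s / 2)‖ = Real.pi ^ (-s.re / 2) := by
    intro s
    rw [Complex.norm_cpow_eq_rpow_re_of_pos hpi]
    congr 1
    rw [show (2 : ℂ) = ((2 : ℝ) : ℂ) by norm_num, Complex.div_ofReal_re, Complex.neg_re]
  rw [Complex.Gammaℝ_def, Complex.Gammaℝ_def, norm_mul, norm_mul, hpow1, hpow1, hs]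
  have hpp : Real.pi ^ (-(⟨1 / 2 + τ, γ⟩ : ℂ).re / 2) ≤ Real.pi ^ (-(⟨1 / 2, γ⟩ : ℂ).re / 2) := by
    apply Real.rpow_le_rpow_of_exponent_le
    · linarith [Real.pi_gt_three]
    · show -(1 / 2 + τ) / 2 ≤ -(1 / 2) / 2
      linarith
  calc Real.pi ^ (-(⟨1 / 2 + τ, γ⟩ : ℂ).re / 2) * ‖Complex.Gamma (z + ((τ / 2 : ℝ) : ℂ))‖
      ≤ Real.pi ^ (-(⟨1 / 2, γ⟩ : ℂ).re / 2) * (‖Complex.Gamma z‖ *
        Real.exp (τ / 2 * (Real.log (10 * ‖z‖) + Z2))) := by
        exact mul_le_mul hpp hG (norm_nonneg _) (by positivity)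
    _ ≤ Real.pi ^ (-(⟨1 / 2, γ⟩ : ℂ).re / 2) * (‖Complex.Gamma z‖ *
        (5 * Real.exp Z2 * ‖(⟨1 / 2, γ⟩ : ℂ)‖ ^ (τ / 2))) := by
        gcongr
    _ = 5 * Real.exp Z2 * ‖(⟨1 / 2, γ⟩ : ℂ)‖ ^ (τ / 2) *
        (Real.pi ^ (-(⟨1 / 2, γ⟩ : ℂ).re / 2) * ‖Complex.Gamma ((⟨1 / 2, γ⟩ : ℂ) / 2)‖) := by
        rw [← hz]
        ring

end Pool.Agent.H313.ZC.Gam
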