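import Pool.Agent.H313.ZC.Stm
import Pool.Graph.R_pool_sql_team_seeded_1acbe0a2.Y818.FV.GROW
import Pool.Graph.R_seed8.H52R4.PZT1

/-!
# JOB GROW: the order of `ξ` is less than `2`
-/

set_option autoImplicit false

namespace Pool.Agent.H313.ZC.Grow

open Complex Set
open Pool.Agent.Y818.FV

/-- the function `s (s - 1) Λ₀(s) + 1` -/
noncomputable def Y (s : ℂ) : ℂ := s * (s - 1) * completedRiemannZeta₀ s + 1

theorem Y_symm (s : ℂ) : Y (1 - s) = Y s := by
  unfold Y
  rw [completedRiemannZeta₀_one_sub]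
  ring

theorem X_eq (z : ℂ) : X z = Y (1 / 2 + z) := by
  unfold X Y
  ring

theorem Y_eq {s : ℂ} (h0 : 0 < s.re) (h1 : s ≠ 1) :
    Y s = (s * (s - 1)) * (Gammaℝ s * riemannZeta s) := by
  have hs0 : s ≠ 0 := by
    intro h
    rw [h, zero_re] at h0
    exact lt_irrefl _ h0
  have hs1 : 1 - s ≠ 0 := sub_ne_zero.2 (Ne.symm h1)
  rw [riemannZeta_def_of_ne_zero hs0, mul_div_cancel₀ _ (Gammaℝ_ne_zero_of_re_pos h0),
    completedRiemannZeta_eq]
  unfold Y
  field_simp
  ring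

theorem zeta_right : ∃ M : ℝ, ∀ s : ℂ, 2 ≤ s.re → ‖riemannZeta s‖ ≤ M := by
  have hsum : Summable fun n : ℕ => 1 / ((n : ℝ) + 1) ^ 2 := by
    have h := (summable_nat_add_iff 1).2 (Real.summable_one_div_nat_pow.2 (one_lt_two))
    simpa using h
  refine ⟨∑' n : ℕ, 1 / ((n : ℝ) + 1) ^ 2, fun s hs => ?_⟩
  rw [zeta_eq_tsum_one_div_nat_add_one_cpow (by linarith)]
  apply tsum_of_norm_bounded hsum.hasSum
  intro n
  have hn : (0 : ℝ) < (n : ℝ) + 1 := by positivity
  have h1 : ‖((n : ℂ) + 1) ^ s‖ = ((n : ℝ) + 1) ^ s.re := by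
    have := Complex.norm_cpow_eq_rpow_re_of_pos hn s
    push_cast at this
    exact this
  rw [norm_div, norm_one, h1]
  apply one_div_le_one_div_of_le (by positivity)
  calc ((n : ℝ) + 1) ^ 2 = ((n : ℝ) + 1) ^ (2 : ℝ) := by
        rw [← Real.rpow_natCast]
        norm_num
    _ ≤ ((n : ℝ) + 1) ^ s.re := Real.rpow_le_rpow_of_exponent_le (by
        have : (0 : ℝ) ≤ n := by positivity
        linarith) hs

theorem grow_Y : grow_GB Set.univ Y := by
  -- the region `Re s ≥ 2`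
  have hA : grow_GB {s : ℂ | 2 ≤ s.re} Y := by
    obtain ⟨M, hM⟩ := zeta_right
    have hz : grow_GB {s : ℂ | 2 ≤ s.re} riemannZeta := grow_of_le M hM
    have hG : grow_GB {s : ℂ | 2 ≤ s.re} Gammaℝ := grow_mono grow_GR fun s hs => by
      have hs' : 2 ≤ s.re := hs
      exact ⟨by linarith, Or.inl (by linarith)⟩
    refine grow_congr (grow_mul (grow_mul (grow_id _) (grow_sub (grow_id _) (grow_const _ 1)))
      (grow_mul hG hz)) fun s hs => ?_
    have hs' : 2 ≤ s.re := hs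
    exact Y_eq (by linarith) (by
      intro h
      rw [h, one_re] at hs'
      linarith)
  -- the region `1/2 ≤ Re s ≤ 2`, `|Im s| ≥ 1`
  have hB : grow_GB {s : ℂ | 1 / 2 ≤ s.re ∧ s.re ≤ 2 ∧ 1 ≤ |s.im|} Y := by
    obtain ⟨C, hC, hz⟩ := Pool.Agent.H52R4.PZT1.zeta_strip
    have hz2 : grow_GB {s : ℂ | 1 / 2 ≤ s.re ∧ s.re ≤ 2 ∧ 1 ≤ |s.im|} riemannZeta := by
      obtain ⟨K, hK, hid⟩ := grow_mul (grow_const {s : ℂ | 1 / 2 ≤ s.re ∧ s.re ≤ 2 ∧ 1 ≤ |s.im|}
        (C : ℂ)) (grow_mul (grow_id _) (grow_id _))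
      refine ⟨K, hK, fun s hs => le_trans ?_ (hid s hs)⟩
      refine (hz s (by linarith [hs.1]) hs.2.1 hs.2.2).trans ?_
      rw [norm_mul, norm_mul, Complex.norm_real, Real.norm_of_nonneg hC.le]
      apply mul_le_mul_of_nonneg_left _ hC.le
      rw [pow_two]
      have := Complex.abs_im_le_norm s
      exact mul_le_mul this this (abs_nonneg _) (norm_nonneg _)
    have hG : grow_GB {s : ℂ | 1 / 2 ≤ s.re ∧ s.re ≤ 2 ∧ 1 ≤ |s.im|} Gammaℝ :=
      grow_mono grow_GR fun s hs => ⟨by linarith [hs.1], Or.inr hs.2.2⟩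
    refine grow_congr (grow_mul (grow_mul (grow_id _) (grow_sub (grow_id _) (grow_const _ 1)))
      (grow_mul hG hz2)) fun s hs => ?_
    exact Y_eq (by linarith [hs.1]) (by
      intro h
      have h2 := hs.2.2
      rw [h, one_im, abs_zero] at h2
      linarith)
  -- the compact region
  have hC : grow_GB {s : ℂ | s.re ∈ Set.Icc (1 / 2 : ℝ) 2 ∧ s.im ∈ Set.Icc (-1 : ℝ) 1} Y := by
    have hcomp : IsCompact {s : ℂ | s.re ∈ Set.Icc (1 / 2 : ℝ) 2 ∧ s.im ∈ Set.Icc (-1 : ℝ) 1} :=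
      (isCompact_Icc.reProdIm isCompact_Icc)
    have hcont : Continuous Y := by
      unfold Y
      have := differentiable_completedZeta₀.continuous
      fun_prop
    obtain ⟨M, hM⟩ := hcomp.exists_bound_of_continuousOn hcont.continuousOn
    exact grow_of_le M hM
  have hR : grow_GB {s : ℂ | 1 / 2 ≤ s.re} Y := by
    refine grow_mono (grow_union hA (grow_union hB hC)) fun s hs => ?_
    have hs' : 1 / 2 ≤ s.re := hs
    rcases le_total 2 s.re with h | h
    · exact Or.inl h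
    · rcases le_total 1 |s.im| with h2 | h2
      · exact Or.inr (Or.inl ⟨hs', h, h2⟩)
      · exact Or.inr (Or.inr ⟨⟨hs', h⟩, abs_le.1 h2⟩)
  have hL : grow_GB {s : ℂ | s.re ≤ 1 / 2} Y := by
    have h3 : grow_GB {s : ℂ | s.re ≤ 1 / 2} (fun s => Y (1 - s)) :=
      grow_comp hR (fun s => 1 - s) 1 zero_le_one
        (fun s _ => by have := norm_sub_le (1 : ℂ) s; rw [norm_one] at this; exact this)
        (fun s hs => by
          have hs' : s.re ≤ 1 / 2 := hs
          show 1 / 2 ≤ (1 - s).re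
          rw [Complex.sub_re, Complex.one_re]
          linarith)
    exact grow_congr h3 fun s _ => (Y_symm s).symm
  refine grow_mono (grow_union hR hL) fun s _ => ?_
  rcases le_total (1 / 2) s.re with h | h
  · exact Or.inl h
  · exact Or.inr h

theorem t_grow : S_GROW := by
  have h1 : grow_GB Set.univ (fun z => Y (1 / 2 + z)) :=
    grow_comp grow_Y (fun z => 1 / 2 + z) 1 zero_le_one
      (fun z _ => by
        have h2 := norm_add_le (1 / 2 : ℂ) z
        have h3 : ‖(1 / 2 : ℂ)‖ ≤ 1 := by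
          rw [norm_div, norm_one, Complex.norm_ofNat]
          norm_num
        linarith)
      (fun _ _ => Set.mem_univ _)
  obtain ⟨K, -, hK⟩ := h1
  exact ⟨K, fun z => by rw [X_eq]; exact hK z (Set.mem_univ z)⟩

end Pool.Agent.H313.ZC.Grow
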