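import Mathlib
import Pool.Agent.H313.ZC.Stm
import Pool.Graph.R_pool_sql_team_seeded_3dad9d7b.NH98.RT.Had

/-! # ZC-HAD: an even entire function of order less than two with purely imaginary zeros

`X z = G (z²)`, one zero of `G` is divided out, the remaining zeros in a disc are divided out, and the quotient is estimated from both
sides with the theorem of Borel and Carathéodory. -/

set_option autoImplicit false

open MeasureTheory Filter Topology Set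

namespace Pool.Agent.H313.ZC.Had

open Complex Metric
open Pool.Agent.NH98.RT.Had (exists_log exists_div exists_div_prod finite_zeros exists_sq factor_ge)

/-- the estimate of the quotient, both sides -/
theorem quotient_bounds {g : ℂ → ℂ} (hg : Differentiable ℂ g) {ρ M' : ℝ} (hρ : 0 < ρ)
    (h0 : ∀ z ∈ ball (0 : ℂ) ρ, g z ≠ 0) (hM : 0 < M')
    (hb : ∀ z ∈ ball (0 : ℂ) ρ, ‖g z‖ ≤ ‖g 0‖ * Real.exp M') {z : ℂ} (hz : z ∈ ball (0 : ℂ) ρ) :
    ‖g z‖ ≤ ‖g 0‖ * Real.exp (2 * M' * ‖z‖ / (ρ - ‖z‖)) ∧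
      ‖g 0‖ * Real.exp (-(2 * M' * ‖z‖ / (ρ - ‖z‖))) ≤ ‖g z‖ := by
  obtain ⟨h, hd, hh0, hh⟩ := exists_log hρ hg h0
  have hg0 : 0 < ‖g 0‖ := norm_pos_iff.mpr (h0 0 (mem_ball_self hρ))
  have h1 : MapsTo h (ball 0 ρ) {z | z.re ≤ M'} := by
    intro w hw
    have h2 := hb w hw
    rw [hh w hw, norm_mul, norm_exp] at h2
    have h3 : Real.exp (h w).re ≤ Real.exp M' := le_of_mul_le_mul_left h2 hg0
    exact Real.exp_le_exp.mp h3
  have h2 := borelCaratheodory_zero hM hd h1 hρ hz hh0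
  have h3 : |(h z).re| ≤ 2 * M' * ‖z‖ / (ρ - ‖z‖) := (abs_re_le_norm _).trans h2
  rw [hh z hz, norm_mul, norm_exp]
  constructor
  · apply mul_le_mul_of_nonneg_left _ hg0.le
    apply Real.exp_le_exp.mpr
    exact (le_abs_self _).trans h3
  · apply mul_le_mul_of_nonneg_left _ hg0.le
    apply Real.exp_le_exp.mpr
    have := neg_abs_le (h z).re
    linarith

/-- the numerical choice of the radius -/
theorem choice (C c s δ : ℝ) (hs : 0 ≤ s) (hδ : 0 < δ) :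
    ∃ R : ℝ, 1 ≤ R ∧ s < R ^ 2 ∧ ∃ M' : ℝ, 0 < M' ∧
      |C| * (1 + 2 * R) ^ (3 / 2 : ℝ) + |c| ≤ M' ∧
      2 * M' * s / (R ^ 2 - s) ≤ δ := by
  set L : ℝ := 8 * |C| + |c| + 1 with hL
  have hC := abs_nonneg C
  have hc := abs_nonneg c
  have hL1 : 1 ≤ L := by linarith
  set T : ℝ := 2 * L * s / δ + s + 1 with hT
  have hT1 : 1 ≤ T := by
    have : 0 ≤ 2 * L * s / δ := by positivity
    linarith
  have hTs : s < T := by
    have : 0 ≤ 2 * L * s / δ := by positivity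
    linarith
  have hδT : δ * T = 2 * L * s + δ * s + δ := by
    rw [hT]
    field_simp
  have hT2 : 1 ≤ T ^ 2 := one_le_pow₀ hT1
  have hT3 : 1 ≤ T ^ 3 := one_le_pow₀ hT1
  have hT4 : T ≤ (T ^ 2) ^ 2 := by
    calc T = T * 1 := by ring
      _ ≤ T * T ^ 3 := by gcongr
      _ = _ := by ring
  have hsR : s < (T ^ 2) ^ 2 := lt_of_lt_of_le hTs hT4
  refine ⟨T ^ 2, hT2, hsR, L * T ^ 3, by positivity, ?_, ?_⟩
  · have h1 : (1 + 2 * T ^ 2) ^ (3 / 2 : ℝ) ≤ 8 * T ^ 3 := by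
      have h2 : 1 + 2 * T ^ 2 ≤ (2 * T) ^ (2 : ℝ) := by
        rw [Real.rpow_two]
        nlinarith
      calc (1 + 2 * T ^ 2) ^ (3 / 2 : ℝ) ≤ ((2 * T) ^ (2 : ℝ)) ^ (3 / 2 : ℝ) :=
            Real.rpow_le_rpow (by positivity) h2 (by norm_num)
        _ = (2 * T) ^ ((3 : ℕ) : ℝ) := by
            rw [← Real.rpow_mul (by positivity)]
            norm_num
        _ = 8 * T ^ 3 := by
            rw [Real.rpow_natCast]
            ring
    calc |C| * (1 + 2 * T ^ 2) ^ (3 / 2 : ℝ) + |c| ≤ |C| * (8 * T ^ 3) + |c| * T ^ 3 := by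
          have h2 : |c| ≤ |c| * T ^ 3 := le_mul_of_one_le_right hc hT3
          gcongr
      _ = (8 * |C| + |c|) * T ^ 3 := by ring
      _ ≤ L * T ^ 3 := by
        apply mul_le_mul_of_nonneg_right _ (by positivity)
        linarith
  · have h1 : (0 : ℝ) < (T ^ 2) ^ 2 - s := by linarith
    rw [div_le_iff₀ h1]
    have h2 : δ * (T ^ 2) ^ 2 = T ^ 3 * (2 * L * s + δ * s + δ) := by
      rw [← hδT]
      ring
    have h3 : δ * s ≤ T ^ 3 * (δ * s) := le_mul_of_one_le_left (by positivity) hT3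
    have h4 : 0 ≤ T ^ 3 * δ := by positivity
    nlinarith

/-- a factor of the product -/
theorem factor_le {γ τ x : ℝ} (hx : x ≠ 0) :
    ‖1 - (-((γ : ℂ) ^ 2)) / (-((x : ℂ) ^ 2))‖ ≤ ‖1 - ((γ : ℂ) * I + τ) ^ 2 / (-((x : ℂ) ^ 2))‖ := by
  have hxc : (x : ℂ) ≠ 0 := by exact_mod_cast hx
  have e1 : 1 - (-((γ : ℂ) ^ 2)) / (-((x : ℂ) ^ 2)) =
      (((x - γ : ℝ) : ℂ) * ((x + γ : ℝ) : ℂ)) / ((x : ℂ) ^ 2) := by
    push_cast
    field_simp
    ring
  have e2 : 1 - ((γ : ℂ) * I + τ) ^ 2 / (-((x : ℂ) ^ 2)) =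
      ((((x - γ : ℝ) : ℂ) * I - τ) * (-(((x + γ : ℝ) : ℂ) * I + τ))) / ((x : ℂ) ^ 2) := by
    push_cast
    field_simp
    ring_nf
    rw [I_sq]
    ring
  rw [e1, e2, norm_div, norm_div, norm_mul, norm_mul, norm_neg]
  have h1 : ‖((x - γ : ℝ) : ℂ)‖ ≤ ‖((x - γ : ℝ) : ℂ) * I - τ‖ := by
    rw [norm_real, Real.norm_eq_abs]
    have := abs_im_le_norm (((x - γ : ℝ) : ℂ) * I - τ)
    simpa using this
  have h2 : ‖((x + γ : ℝ) : ℂ)‖ ≤ ‖((x + γ : ℝ) : ℂ) * I + τ‖ := by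
    rw [norm_real, Real.norm_eq_abs]
    have := abs_im_le_norm (((x + γ : ℝ) : ℂ) * I + τ)
    simpa using this
  gcongr

/-- comparison at two points -/
theorem compare {H : ℂ → ℂ} {C γ τ : ℝ} (hH : Differentiable ℂ H)
    (hb : ∀ w : ℂ, 1 ≤ ‖w + (γ : ℂ) ^ 2‖ → ‖H w‖ ≤ Real.exp (|C| * (1 + √‖w‖) ^ (3 / 2 : ℝ)))
    (hz : ∀ w : ℂ, H w = 0 → ∃ x : ℝ, w = -((x : ℂ) ^ 2))
    (hne : H (-((γ : ℂ) ^ 2)) ≠ 0) :
    ‖H (-((γ : ℂ) ^ 2))‖ ≤ ‖H (((γ : ℂ) * I + τ) ^ 2)‖ := by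
  classical
  obtain ⟨G₁, hG₁, hG₁0, hdiv⟩ := exists_div hH ⟨_, hne⟩ 0
  set k := analyticOrderNatAt H 0 with hk
  simp only [sub_zero] at hdiv
  set c : ℝ := ‖G₁ 0‖ with hc
  have hc0 : 0 < c := norm_pos_iff.mpr hG₁0
  set w₀ : ℂ := -((γ : ℂ) ^ 2) with hw₀
  set w₁ : ℂ := ((γ : ℂ) * I + τ) ^ 2 with hw₁
  have hn0 : ‖w₀‖ = γ ^ 2 := by
    rw [hw₀, norm_neg, norm_pow, norm_real, Real.norm_eq_abs, sq_abs]
  have hn1 : ‖w₁‖ = γ ^ 2 + τ ^ 2 := by
    rw [hw₁, norm_pow]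
    have h1 := Complex.sq_norm ((γ : ℂ) * I + τ)
    rw [h1, Complex.normSq_apply]
    simp
    ring
  set s : ℝ := γ ^ 2 + τ ^ 2 with hs
  have hs0 : 0 ≤ s := by positivity
  have hn0s : ‖w₀‖ ≤ s := by
    rw [hn0, hs]
    nlinarith [sq_nonneg τ]
  have hn1s : ‖w₁‖ ≤ s := hn1.le
  have key : ∀ δ : ℝ, 0 < δ → ‖H w₀‖ * Real.exp (-(2 * δ)) ≤ ‖H w₁‖ := by
    intro δ hδ
    obtain ⟨R, hR1, hsR, M', hM', hMR, hM2⟩ := choice C (Real.log c) s δ hs0 hδ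
    have hR0 : 0 < R := by linarith
    have hρ : 0 < R ^ 2 := by positivity
    have hfin := finite_zeros hG₁ ⟨0, hG₁0⟩ (R ^ 2)
    set S : Finset ℂ := hfin.toFinset with hS
    have hmemS : ∀ a, a ∈ S ↔ ‖a‖ ≤ R ^ 2 ∧ G₁ a = 0 := by
      intro a
      rw [hS, Set.Finite.mem_toFinset]
      simp
    have h0S : (0 : ℂ) ∉ S := by
      rw [hmemS]
      exact fun h => hG₁0 h.2
    obtain ⟨g, hg, hgS, hGg⟩ := exists_div_prod hG₁ ⟨0, hG₁0⟩ S h0S
    have hg0 : g 0 = G₁ 0 := by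
      have := hGg 0
      simpa using this.symm
    have hgne : ∀ z ∈ ball (0 : ℂ) (R ^ 2), g z ≠ 0 := by
      intro z hz h
      have h1 : z ∈ S := by
        rw [hmemS]
        refine ⟨(mem_ball_zero_iff.mp hz).le, ?_⟩
        rw [hGg z, h, mul_zero]
      exact hgS z h1 h
    have hbig : ∀ z : ℂ, ‖z‖ = 4 * R ^ 2 →
        ‖g z‖ ≤ Real.exp (|C| * (1 + 2 * R) ^ (3 / 2 : ℝ)) := by
      intro z hz
      have h1 : ‖g z‖ ≤ ‖H z‖ := by
        rw [hdiv z, hGg z, norm_mul, norm_mul, norm_prod]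
        have h2 : 1 ≤ ‖z ^ k‖ := by
          rw [norm_pow]
          apply one_le_pow₀
          rw [hz]
          nlinarith
        have h3 : 1 ≤ ∏ a ∈ S, ‖(1 - z / a) ^ (analyticOrderNatAt G₁ a)‖ := by
          have : ∀ a ∈ S, 1 ≤ ‖(1 - z / a) ^ (analyticOrderNatAt G₁ a)‖ := fun a ha =>
            factor_ge (fun h => h0S (h ▸ ha)) ((hmemS a).mp ha).1 hz _
          calc (1 : ℝ) = ∏ a ∈ S, 1 := by simp
            _ ≤ _ := Finset.prod_le_prod (fun _ _ => zero_le_one) this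
        have h4 : 0 ≤ ‖g z‖ := norm_nonneg _
        calc ‖g z‖ = 1 * (1 * ‖g z‖) := by ring
          _ ≤ _ := by gcongr
      have h5 : √‖z‖ = 2 * R := by
        rw [hz, show 4 * R ^ 2 = (2 * R) ^ 2 by ring, Real.sqrt_sq (by positivity)]
      have h6 := hb z (by
        have h7 : ‖z‖ - ‖-((γ : ℂ) ^ 2)‖ ≤ ‖z - (-((γ : ℂ) ^ 2))‖ := norm_sub_norm_le _ _
        rw [sub_neg_eq_add, ← hw₀, hz] at h7
        have h8 : (1 : ℝ) ≤ R ^ 2 := one_le_pow₀ hR1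
        linarith)
      rw [h5] at h6
      exact h1.trans h6
    have hball : ∀ z ∈ ball (0 : ℂ) (R ^ 2), ‖g z‖ ≤ ‖g 0‖ * Real.exp M' := by
      intro z hz
      have h1 := Complex.norm_le_of_forall_mem_frontier_norm_le (U := ball (0 : ℂ) (4 * R ^ 2))
        (f := g) isBounded_ball hg.diffContOnCl
        (C := Real.exp (|C| * (1 + 2 * R) ^ (3 / 2 : ℝ))) (fun z hz => by
          rw [frontier_ball (0 : ℂ) (by positivity), mem_sphere_zero_iff_norm] at hz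
          exact hbig z hz) (z := z) (subset_closure (ball_subset_ball (by nlinarith) hz))
      refine h1.trans ?_
      rw [hg0, ← hc]
      have h2 : c * Real.exp M' = Real.exp (Real.log c + M') := by
        rw [Real.exp_add, Real.exp_log hc0]
      rw [h2]
      apply Real.exp_le_exp.mpr
      have := neg_abs_le (Real.log c)
      linarith
    -- the bounds for `g` at the two points
    have hmem : ∀ w : ℂ, ‖w‖ ≤ s → w ∈ ball (0 : ℂ) (R ^ 2) := by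
      intro w hw
      rw [mem_ball_zero_iff]
      exact lt_of_le_of_lt hw hsR
    have hexp : ∀ w : ℂ, ‖w‖ ≤ s → 2 * M' * ‖w‖ / (R ^ 2 - ‖w‖) ≤ δ := by
      intro w hw
      refine le_trans ?_ hM2
      have h1 : 0 < R ^ 2 - s := by linarith
      gcongr
    have hup := (quotient_bounds hg hρ hgne hM' hball (hmem w₀ hn0s)).1
    have hlo := (quotient_bounds hg hρ hgne hM' hball (hmem w₁ hn1s)).2
    have hgg : ‖g w₀‖ * Real.exp (-(2 * δ)) ≤ ‖g w₁‖ := by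
      calc ‖g w₀‖ * Real.exp (-(2 * δ))
          ≤ (‖g 0‖ * Real.exp (2 * M' * ‖w₀‖ / (R ^ 2 - ‖w₀‖))) * Real.exp (-(2 * δ)) := by
            gcongr
        _ ≤ (‖g 0‖ * Real.exp δ) * Real.exp (-(2 * δ)) := by
            have := hexp w₀ hn0s
            gcongr
        _ = ‖g 0‖ * Real.exp (-δ) := by
            rw [mul_assoc, ← Real.exp_add]
            congr 2
            ring
        _ ≤ ‖g 0‖ * Real.exp (-(2 * M' * ‖w₁‖ / (R ^ 2 - ‖w₁‖))) := by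
            have := hexp w₁ hn1s
            gcongr
        _ ≤ _ := hlo
    -- the product
    have hprod : ‖∏ a ∈ S, (1 - w₀ / a) ^ (analyticOrderNatAt G₁ a)‖ ≤
        ‖∏ a ∈ S, (1 - w₁ / a) ^ (analyticOrderNatAt G₁ a)‖ := by
      rw [norm_prod, norm_prod]
      apply Finset.prod_le_prod (fun _ _ => norm_nonneg _)
      intro a ha
      rw [norm_pow, norm_pow]
      apply pow_le_pow_left₀ (norm_nonneg _)
      have h1 : H a = 0 := by
        rw [hdiv a, ((hmemS a).mp ha).2, mul_zero]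
      obtain ⟨x, hx⟩ := hz a h1
      have hx0 : x ≠ 0 := by
        intro h
        apply h0S
        rw [h] at hx
        have h2 : a = 0 := by rw [hx]; simp
        rw [← h2]
        exact ha
      rw [hx, hw₀, hw₁]
      exact factor_le hx0
    have hpow : ‖w₀ ^ k‖ ≤ ‖w₁ ^ k‖ := by
      rw [norm_pow, norm_pow]
      apply pow_le_pow_left₀ (norm_nonneg _)
      rw [hn1]
      exact hn0s
    calc ‖H w₀‖ * Real.exp (-(2 * δ))
        = (‖w₀ ^ k‖ * ‖∏ a ∈ S, (1 - w₀ / a) ^ (analyticOrderNatAt G₁ a)‖) *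
            (‖g w₀‖ * Real.exp (-(2 * δ))) := by
          rw [hdiv w₀, hGg w₀, norm_mul, norm_mul]
          ring
      _ ≤ (‖w₁ ^ k‖ * ‖∏ a ∈ S, (1 - w₁ / a) ^ (analyticOrderNatAt G₁ a)‖) * ‖g w₁‖ := by
          gcongr
      _ = ‖H w₁‖ := by
          rw [hdiv w₁, hGg w₁, norm_mul, norm_mul]
          ring
  have hlim : Tendsto (fun δ : ℝ => ‖H w₀‖ * Real.exp (-(2 * δ))) (𝓝[>] 0) (𝓝 ‖H w₀‖) := by
    have h1 : Continuous (fun δ : ℝ => ‖H w₀‖ * Real.exp (-(2 * δ))) := by fun_prop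
    have h2 := h1.tendsto 0
    simp only [mul_zero, neg_zero, Real.exp_zero, mul_one] at h2
    exact h2.mono_left nhdsWithin_le_nhds
  exact le_of_tendsto hlim (by
    filter_upwards [self_mem_nhdsWithin] with δ hδ
    exact key δ hδ)

theorem t_had : S_HAD := by
  intro X C hX hgr hev hre γ τ hτ hzero
  by_cases hd : deriv X (γ * I) = 0
  · rw [hd, norm_zero, mul_zero]
    exact norm_nonneg _
  have hXne : ∃ z, X z ≠ 0 := by
    by_contra h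
    push Not at h
    apply hd
    have h1 : X = fun _ => 0 := funext h
    rw [h1, deriv_const]
  obtain ⟨G, hG, hF⟩ := exists_sq hX hev
  have hroot : ∀ z : ℂ, ∃ s : ℂ, s ^ 2 = z ∧ ‖s‖ = √‖z‖ := by
    intro z
    refine ⟨z ^ (((2 : ℕ) : ℂ)⁻¹), cpow_nat_inv_pow z (by norm_num), ?_⟩
    have h1 : (z ^ (((2 : ℕ) : ℂ)⁻¹)) ^ 2 = z := cpow_nat_inv_pow z (by norm_num)
    conv_rhs => rw [← h1]
    rw [norm_pow, Real.sqrt_sq (norm_nonneg _)]
  have hGne : ∃ z, G z ≠ 0 := by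
    obtain ⟨s, hs⟩ := hXne
    refine ⟨s ^ 2, ?_⟩
    rw [← hF s]
    exact hs
  have hGb : ∀ z, ‖G z‖ ≤ Real.exp (|C| * (1 + √‖z‖) ^ (3 / 2 : ℝ)) := by
    intro z
    obtain ⟨s, rfl, hs⟩ := hroot z
    rw [← hF s, ← hs]
    refine (hgr s).trans (Real.exp_le_exp.mpr ?_)
    have h1 : (0 : ℝ) ≤ (1 + ‖s‖) ^ (3 / 2 : ℝ) := by positivity
    exact mul_le_mul_of_nonneg_right (le_abs_self C) h1
  have hsq : ((γ : ℂ) * I) ^ 2 = -((γ : ℂ) ^ 2) := by
    rw [mul_pow, I_sq]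
    ring
  obtain ⟨G₁, hG₁, hG₁0, hdiv⟩ := exists_div hG hGne (-((γ : ℂ) ^ 2))
  set n := analyticOrderNatAt G (-((γ : ℂ) ^ 2)) with hn
  have hGz : G (-((γ : ℂ) ^ 2)) = 0 := by
    rw [← hsq, ← hF]
    exact hzero
  have hn0 : n ≠ 0 := by
    intro h
    have h1 := hdiv (-((γ : ℂ) ^ 2))
    rw [h, pow_zero, one_mul, hGz] at h1
    exact hG₁0 h1.symm
  obtain ⟨m, hm⟩ := Nat.exists_eq_succ_of_ne_zero hn0
  obtain ⟨H, hH, hGH⟩ : ∃ H : ℂ → ℂ, Differentiable ℂ H ∧ ∀ z, G z = (z + (γ : ℂ) ^ 2) * H z := by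
    refine ⟨fun z => (z - -((γ : ℂ) ^ 2)) ^ m * G₁ z, ?_, ?_⟩
    · intro z
      have h1 : DifferentiableAt ℂ (fun z : ℂ => (z - -((γ : ℂ) ^ 2)) ^ m) z := by fun_prop
      exact h1.mul (hG₁ z)
    · intro z
      rw [hdiv z, hm, pow_succ]
      ring
  have hder : HasDerivAt X (2 * ((γ : ℂ) * I) * H (-((γ : ℂ) ^ 2))) ((γ : ℂ) * I) := by
    have h1 : X = fun z => (z ^ 2 + (γ : ℂ) ^ 2) * H (z ^ 2) := by
      funext z
      rw [hF z, hGH]
    have h2 : HasDerivAt (fun z : ℂ => z ^ 2 + (γ : ℂ) ^ 2) (2 * ((γ : ℂ) * I)) ((γ : ℂ) * I) := by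
      have h3 := (hasDerivAt_pow 2 ((γ : ℂ) * I)).add_const ((γ : ℂ) ^ 2)
      simpa using h3
    have h3 : DifferentiableAt ℂ (fun z : ℂ => H (z ^ 2)) ((γ : ℂ) * I) := by
      have h4 : DifferentiableAt ℂ (fun z : ℂ => z ^ 2) ((γ : ℂ) * I) := by fun_prop
      exact (hH _).comp _ h4
    have h5 := h2.mul h3.hasDerivAt
    have h6 : 2 * ((γ : ℂ) * I) * H (((γ : ℂ) * I) ^ 2) +
        (((γ : ℂ) * I) ^ 2 + (γ : ℂ) ^ 2) * deriv (fun z : ℂ => H (z ^ 2)) ((γ : ℂ) * I) =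
        2 * ((γ : ℂ) * I) * H (-((γ : ℂ) ^ 2)) := by
      rw [hsq]
      ring
    rw [h6] at h5
    rw [h1]
    exact h5
  rw [hder.deriv] at hd ⊢
  have hHne : H (-((γ : ℂ) ^ 2)) ≠ 0 := by
    intro h
    apply hd
    rw [h, mul_zero]
  have hcmp := compare (C := C) (γ := γ) (τ := τ) hH (by
    intro w hw
    have h1 : ‖H w‖ ≤ ‖G w‖ := by
      rw [hGH w, norm_mul]
      exact le_mul_of_one_le_left (norm_nonneg (H w)) hw
    exact h1.trans (hGb w)) (by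
    intro w hw
    obtain ⟨s, hs, -⟩ := hroot w
    have h1 : X s = 0 := by
      rw [hF s, hs, hGH, hw, mul_zero]
    have h2 := hre s h1
    refine ⟨s.im, ?_⟩
    have hs' : s = (s.im : ℂ) * I := by
      apply Complex.ext <;> simp [h2]
    rw [← hs, hs', mul_pow, I_sq]
    simp) hHne
  have hval : X ((γ : ℂ) * I + τ) = (τ * (2 * ((γ : ℂ) * I) + τ)) * H (((γ : ℂ) * I + τ) ^ 2) := by
    rw [hF, hGH]
    congr 1
    ring_nf
    rw [I_sq]
    ring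
  have h2 : ‖2 * ((γ : ℂ) * I)‖ ≤ ‖2 * ((γ : ℂ) * I) + τ‖ := by
    have h3 : ‖2 * ((γ : ℂ) * I)‖ = |2 * γ| := by
      rw [norm_mul, norm_mul, norm_I, norm_real, mul_one, Real.norm_eq_abs, abs_mul]
      simp
    have h4 := abs_im_le_norm (2 * ((γ : ℂ) * I) + τ)
    rw [h3]
    simpa using h4
  calc τ * ‖2 * ((γ : ℂ) * I) * H (-((γ : ℂ) ^ 2))‖
      = (τ * ‖2 * ((γ : ℂ) * I)‖) * ‖H (-((γ : ℂ) ^ 2))‖ := by
        rw [norm_mul]
        ring
    _ ≤ (τ * ‖2 * ((γ : ℂ) * I) + τ‖) * ‖H (((γ : ℂ) * I + τ) ^ 2)‖ := by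
        gcongr
    _ = ‖X ((γ : ℂ) * I + τ)‖ := by
        rw [hval, norm_mul, norm_mul, norm_real, Real.norm_of_nonneg hτ]

end Pool.Agent.H313.ZC.Had
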