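import Pool.Agent.H313.ZC.Stm
import Pool.Graph.R_seed8.W150.WM.Inv

/-!
Project ZC (helper313): the mean square of the smoothed Mertens function as a line integral.
-/

set_option autoImplicit false

open MeasureTheory Filter Topology Set

namespace Pool.Agent.H313.ZC.Msq

open Pool.Agent.W120.WM (Mx gk Sm EE GG NT)
open Pool.Agent.W150.WM (mx_meas)
open Pool.Agent.H313.ZC

variable {c h : ℝ}

lemma mk_eq (c t : ℝ) : (⟨c, t⟩ : ℂ) = c + t * Complex.I := by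
  apply Complex.ext
  · simp
  · simp

lemma EE_quad (c h x t : ℝ) : EE h x (⟨c, t⟩ : ℂ) =
    Complex.exp (((-(h ^ 2) / 2 : ℝ) : ℂ) * (t : ℂ) ^ 2 +
      (((c * h ^ 2 + x : ℝ) : ℂ) * Complex.I) * t + ((c ^ 2 / 2 * h ^ 2 + c * x : ℝ) : ℂ)) := by
  unfold EE
  rw [mk_eq]
  congr 1
  push_cast
  have hI : Complex.I ^ 2 = -1 := Complex.I_sq
  linear_combination ((h : ℂ) ^ 2 * t ^ 2 / 2) * hI

lemma EE_int (c x : ℝ) (hh : 0 < h) : Integrable (fun t : ℝ => EE h x (⟨c, t⟩ : ℂ)) := by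
  simp only [EE_quad]
  apply integrable_cexp_quadratic'
  rw [Complex.ofReal_re]
  have : 0 < h ^ 2 := by positivity
  linarith

lemma EE_val (c x : ℝ) (hh : 0 < h) : ∫ t : ℝ, EE h x (⟨c, t⟩ : ℂ) =
    ((2 * Real.pi * gk h x : ℝ) : ℂ) := by
  simp only [EE_quad]
  have h2 : 0 < h ^ 2 := by positivity
  rw [integral_cexp_quadratic (by rw [Complex.ofReal_re]; linarith)]
  have e1 : ((Real.pi : ℂ) / -((-(h ^ 2) / 2 : ℝ) : ℂ)) = ((2 * Real.pi / h ^ 2 : ℝ) : ℂ) := by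
    push_cast
    have : (h : ℂ) ≠ 0 := by exact_mod_cast hh.ne'
    field_simp
  have e2 : (((2 * Real.pi / h ^ 2 : ℝ) : ℂ)) ^ (1 / 2 : ℂ) =
      ((Real.sqrt (2 * Real.pi) / h : ℝ) : ℂ) := by
    have e3 : (1 / 2 : ℂ) = ((1 / 2 : ℝ) : ℂ) := by push_cast; ring
    rw [e3, ← Complex.ofReal_cpow (by positivity), ← Real.sqrt_eq_rpow, Real.sqrt_div (by positivity),
      Real.sqrt_sq hh.le]
  have e4 : (((c ^ 2 / 2 * h ^ 2 + c * x : ℝ) : ℂ) -
      (((c * h ^ 2 + x : ℝ) : ℂ) * Complex.I) ^ 2 / (4 * ((-(h ^ 2) / 2 : ℝ) : ℂ))) =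
      ((-(x ^ 2 / (2 * h ^ 2)) : ℝ) : ℂ) := by
    rw [mul_pow, Complex.I_sq]
    push_cast
    have : (h : ℂ) ≠ 0 := by exact_mod_cast hh.ne'
    field_simp
    ring
  rw [e1, e2, e4, ← Complex.ofReal_exp, ← Complex.ofReal_mul]
  congr 1
  unfold gk
  have hs : Real.sqrt (2 * Real.pi) * Real.sqrt (2 * Real.pi) = 2 * Real.pi :=
    Real.mul_self_sqrt (by positivity)
  have hs0 : Real.sqrt (2 * Real.pi) ≠ 0 := by positivity
  rw [← mul_assoc]
  congr 1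
  rw [div_eq_iff hh.ne', mul_inv]
  field_simp
  nlinarith [hs]

lemma EE_cont (c h v : ℝ) : Continuous (fun t : ℝ => EE h v (⟨c, t⟩ : ℂ)) := by
  simp only [EE_quad]
  fun_prop

lemma F_int (hh : 0 < h) (hI : Integrable (fun y : ℝ => Mx (Real.exp y) * Real.exp (-(c * y))))
    (v : ℝ) :
    Integrable (fun p : ℝ × ℝ => EE h v (⟨c, p.1⟩ : ℂ) *
      (((Mx (Real.exp p.2) : ℝ) : ℂ) * Complex.exp (-((⟨c, p.1⟩ : ℂ) * p.2))))
      (volume.prod volume) := by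
  have hAB : Integrable (fun p : ℝ × ℝ => EE h v (⟨c, p.1⟩ : ℂ) *
      ((Mx (Real.exp p.2) * Real.exp (-(c * p.2)) : ℝ) : ℂ)) (volume.prod volume) :=
    (EE_int c v hh).mul_prod (hI.ofReal)
  refine hAB.mono ?_ (ae_of_all _ fun p => ?_)
  · apply Measurable.aestronglyMeasurable
    have m1 : Measurable (fun p : ℝ × ℝ => p.1) := measurable_fst
    have m2 : Measurable (fun p : ℝ × ℝ => p.2) := measurable_snd
    have a1 : Measurable (fun p : ℝ × ℝ => EE h v (⟨c, p.1⟩ : ℂ)) :=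
      (EE_cont c h v).measurable.comp m1
    have a2 : Measurable (fun p : ℝ × ℝ => ((Mx (Real.exp p.2) : ℝ) : ℂ)) :=
      Complex.measurable_ofReal.comp (mx_meas.comp m2)
    have a3 : Measurable (fun p : ℝ × ℝ => Complex.exp (-((⟨c, p.1⟩ : ℂ) * p.2))) := by
      simp only [mk_eq]
      fun_prop
    exact a1.mul (a2.mul a3)
  · rw [norm_mul, norm_mul, norm_mul, Complex.ofReal_mul, norm_mul]
    apply le_of_eq
    congr 2
    rw [Complex.norm_exp, Complex.norm_real, Real.norm_of_nonneg (Real.exp_pos _).le]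
    congr 1
    simp

lemma ne_one (hc : c < 1) (t : ℝ) : (⟨c, t⟩ : ℂ) ≠ 1 := by
  intro h1
  have h2 := congrArg Complex.re h1
  simp only [Complex.one_re] at h2
  linarith

/-- inversion -/
theorem inv_c (hh : 0 < h) (hc : c < 1)
    (hI : Integrable (fun y : ℝ => Mx (Real.exp y) * Real.exp (-(c * y))))
    (hL : ∀ s : ℂ, s.re = c → s ≠ 1 →
      (s * riemannZeta s)⁻¹ = ∫ y : ℝ, ((Mx (Real.exp y) : ℝ) : ℂ) * Complex.exp (-(s * y)))
    (v : ℝ) : Integrable (fun t : ℝ => GG h v (⟨c, t⟩ : ℂ)) ∧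
      ((Sm h v : ℝ) : ℂ) = ((2 * Real.pi : ℝ) : ℂ)⁻¹ * ∫ t : ℝ, GG h v (⟨c, t⟩ : ℂ) := by
  have hGG : ∀ t : ℝ, GG h v (⟨c, t⟩ : ℂ) = ∫ y : ℝ, EE h v (⟨c, t⟩ : ℂ) *
      (((Mx (Real.exp y) : ℝ) : ℂ) * Complex.exp (-((⟨c, t⟩ : ℂ) * y))) := by
    intro t
    unfold GG
    rw [div_eq_mul_inv, hL _ rfl (ne_one hc t), integral_const_mul]
  have hF := F_int hh hI v
  constructor
  · simp only [hGG]
    exact hF.integral_prod_left
  · simp only [hGG]
    rw [integral_integral_swap hF]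
    have hin : ∀ y : ℝ, ∫ t : ℝ, EE h v (⟨c, t⟩ : ℂ) *
        (((Mx (Real.exp y) : ℝ) : ℂ) * Complex.exp (-((⟨c, t⟩ : ℂ) * y))) =
        ((2 * Real.pi : ℝ) : ℂ) * ((Mx (Real.exp y) * gk h (v - y) : ℝ) : ℂ) := by
      intro y
      have e1 : ∀ t : ℝ, EE h v (⟨c, t⟩ : ℂ) *
          (((Mx (Real.exp y) : ℝ) : ℂ) * Complex.exp (-((⟨c, t⟩ : ℂ) * y))) =
          ((Mx (Real.exp y) : ℝ) : ℂ) * EE h (v - y) (⟨c, t⟩ : ℂ) := by
        intro t
        rw [mul_left_comm]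
        congr 1
        unfold EE
        rw [← Complex.exp_add]
        congr 1
        push_cast
        ring
      simp only [e1]
      rw [integral_const_mul, EE_val _ _ hh]
      push_cast
      ring
    simp only [hin]
    have e5 : ∫ a : ℝ, ((Mx (Real.exp a) * gk h (v - a) : ℝ) : ℂ) =
        ((∫ a : ℝ, Mx (Real.exp a) * gk h (v - a) : ℝ) : ℂ) := integral_ofReal
    rw [integral_const_mul, e5, ← mul_assoc, inv_mul_cancel₀ (by
      have : (2 * Real.pi : ℝ) ≠ 0 := by positivity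
      exact_mod_cast this), one_mul]
    congr 1
    unfold Sm
    rw [← integral_sub_left_eq_self (fun y => Mx (Real.exp y) * gk h (v - y)) volume v]
    congr 1
    funext w
    rw [sub_sub_cancel]

/-- the Laplace transform of the Gaussian -/
lemma gk_quad (s : ℂ) (w : ℝ) : ((gk h w : ℝ) : ℂ) * Complex.exp (-(s * w)) =
    (((h * Real.sqrt (2 * Real.pi))⁻¹ : ℝ) : ℂ) *
      Complex.exp (((-(1 / (2 * h ^ 2)) : ℝ) : ℂ) * (w : ℂ) ^ 2 + (-s) * w + 0) := by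
  unfold gk
  rw [Complex.ofReal_mul, mul_assoc, Complex.ofReal_exp, ← Complex.exp_add]
  congr 2
  push_cast
  ring

lemma gk_int (hh : 0 < h) (s : ℂ) :
    Integrable (fun w : ℝ => ((gk h w : ℝ) : ℂ) * Complex.exp (-(s * w))) := by
  simp only [gk_quad]
  apply Integrable.const_mul
  apply integrable_cexp_quadratic'
  rw [Complex.ofReal_re]
  have : 0 < 1 / (2 * h ^ 2) := by positivity
  linarith

lemma gk_val (hh : 0 < h) (s : ℂ) :
    ∫ w : ℝ, ((gk h w : ℝ) : ℂ) * Complex.exp (-(s * w)) = EE h 0 s := by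
  simp only [gk_quad]
  have h1 : 0 < 1 / (2 * h ^ 2) := by positivity
  have hc0 : (h : ℂ) ≠ 0 := by exact_mod_cast hh.ne'
  rw [integral_const_mul, integral_cexp_quadratic (by rw [Complex.ofReal_re]; linarith)]
  have e1 : ((Real.pi : ℂ) / -((-(1 / (2 * h ^ 2)) : ℝ) : ℂ)) =
      ((h ^ 2 * (2 * Real.pi) : ℝ) : ℂ) := by
    push_cast
    field_simp
  have e2 : (((h ^ 2 * (2 * Real.pi) : ℝ) : ℂ)) ^ (1 / 2 : ℂ) =
      ((h * Real.sqrt (2 * Real.pi) : ℝ) : ℂ) := by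
    have e3 : (1 / 2 : ℂ) = ((1 / 2 : ℝ) : ℂ) := by push_cast; ring
    rw [e3, ← Complex.ofReal_cpow (by positivity), ← Real.sqrt_eq_rpow, Real.sqrt_mul (by positivity),
      Real.sqrt_sq hh.le]
  have hne : (h * Real.sqrt (2 * Real.pi) : ℝ) ≠ 0 := by positivity
  rw [e1, e2, ← mul_assoc, ← Complex.ofReal_mul, inv_mul_cancel₀ hne, Complex.ofReal_one, one_mul]
  unfold EE
  congr 1
  push_cast
  field_simp
  ring

/-- the Laplace transform of the smoothed function -/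
theorem lap_Sm (hh : 0 < h) (hc : c < 1)
    (hI : Integrable (fun y : ℝ => Mx (Real.exp y) * Real.exp (-(c * y))))
    (hL : ∀ s : ℂ, s.re = c → s ≠ 1 →
      (s * riemannZeta s)⁻¹ = ∫ y : ℝ, ((Mx (Real.exp y) : ℝ) : ℂ) * Complex.exp (-(s * y)))
    (t : ℝ) : Integrable (fun v : ℝ => ((Sm h v : ℝ) : ℂ) * Complex.exp (-((⟨c, t⟩ : ℂ) * v))) ∧
      ∫ v : ℝ, ((Sm h v : ℝ) : ℂ) * Complex.exp (-((⟨c, t⟩ : ℂ) * v)) = GG h 0 (⟨c, t⟩ : ℂ) := by
  have hf : Integrable (fun y : ℝ => ((Mx (Real.exp y) : ℝ) : ℂ) *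
      Complex.exp (-((⟨c, t⟩ : ℂ) * y))) := by
    refine hI.mono ?_ (ae_of_all _ fun y => ?_)
    · apply Measurable.aestronglyMeasurable
      exact (Complex.measurable_ofReal.comp mx_meas).mul (by fun_prop)
    · rw [norm_mul, norm_mul, Complex.norm_real, Complex.norm_exp,
        Real.norm_of_nonneg (Real.exp_pos _).le]
      apply le_of_eq
      congr 2
      simp
  have hg := gk_int hh (⟨c, t⟩ : ℂ)
  have hconv : ∀ v : ℝ, (convolution (fun y : ℝ => ((Mx (Real.exp y) : ℝ) : ℂ) *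
      Complex.exp (-((⟨c, t⟩ : ℂ) * y)))
      (fun w : ℝ => ((gk h w : ℝ) : ℂ) * Complex.exp (-((⟨c, t⟩ : ℂ) * w)))
      (ContinuousLinearMap.mul ℝ ℂ) volume) v =
      ((Sm h v : ℝ) : ℂ) * Complex.exp (-((⟨c, t⟩ : ℂ) * v)) := by
    intro v
    rw [convolution_def]
    have e1 : ∀ y : ℝ, (ContinuousLinearMap.mul ℝ ℂ) (((Mx (Real.exp y) : ℝ) : ℂ) *
        Complex.exp (-((⟨c, t⟩ : ℂ) * y))) (((gk h (v - y) : ℝ) : ℂ) *
          Complex.exp (-((⟨c, t⟩ : ℂ) * ((v - y : ℝ) : ℂ)))) =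
        ((Mx (Real.exp y) * gk h (v - y) : ℝ) : ℂ) * Complex.exp (-((⟨c, t⟩ : ℂ) * v)) := by
      intro y
      rw [ContinuousLinearMap.mul_apply']
      have e2 : Complex.exp (-((⟨c, t⟩ : ℂ) * v)) = Complex.exp (-((⟨c, t⟩ : ℂ) * y)) *
          Complex.exp (-((⟨c, t⟩ : ℂ) * ((v - y : ℝ) : ℂ))) := by
        rw [← Complex.exp_add]
        congr 1
        push_cast
        ring
      rw [e2, Complex.ofReal_mul]
      ring
    simp only [e1]
    rw [integral_mul_const]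
    congr 1
    have e5 : ∫ a : ℝ, ((Mx (Real.exp a) * gk h (v - a) : ℝ) : ℂ) =
        ((∫ a : ℝ, Mx (Real.exp a) * gk h (v - a) : ℝ) : ℂ) := integral_ofReal
    rw [e5]
    congr 1
    unfold Sm
    rw [← integral_sub_left_eq_self (fun y => Mx (Real.exp y) * gk h (v - y)) volume v]
    congr 1
    funext w
    rw [sub_sub_cancel]
  constructor
  · have h1 := hf.integrable_convolution (ContinuousLinearMap.mul ℝ ℂ) hg
    refine h1.congr (ae_of_all _ fun v => ?_)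
    exact hconv v
  · have h2 := integral_convolution (ContinuousLinearMap.mul ℝ ℂ) hf hg (μ := volume)
      (ν := volume)
    simp only [hconv] at h2
    rw [h2, ContinuousLinearMap.mul_apply', ← hL _ rfl (ne_one hc t), gk_val hh]
    unfold GG
    rw [div_eq_mul_inv, mul_comm]

lemma GG_shift (h v : ℝ) (s : ℂ) : GG h v s = GG h 0 s * Complex.exp (s * v) := by
  unfold GG
  rw [div_mul_eq_mul_div]
  congr 1
  unfold EE
  rw [← Complex.exp_add]
  congr 1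
  push_cast
  ring

theorem t_msq (hlap : S_LAP) : S_MSQ := by
  intro hRH c h hc hc1 hh
  obtain ⟨hI, hL⟩ := hlap hRH c hc
  have hinv := inv_c hh hc1 hI hL
  have hlapS := lap_Sm hh hc1 hI hL
  -- integrability of the smoothed function
  have hS : Integrable (fun v : ℝ => Sm h v * Real.exp (-(c * v))) := by
    have h1 := (hlapS 0).1.re
    refine h1.congr (ae_of_all _ fun v => ?_)
    have e1 : (⟨c, 0⟩ : ℂ) = ((c : ℝ) : ℂ) := rfl
    have e2 : Complex.exp (-((⟨c, 0⟩ : ℂ) * v)) = ((Real.exp (-(c * v)) : ℝ) : ℂ) := by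
      rw [e1]
      push_cast
      rfl
    show RCLike.re (((Sm h v : ℝ) : ℂ) * Complex.exp (-((⟨c, 0⟩ : ℂ) * v))) = _
    rw [e2, ← Complex.ofReal_mul]
    exact Complex.ofReal_re _
  -- the bound
  obtain ⟨B, hB⟩ : ∃ B : ℝ, ∀ v : ℝ, |Sm h v * Real.exp (-(c * v))| ≤ B := by
    refine ⟨(2 * Real.pi)⁻¹ * ∫ t : ℝ, ‖GG h 0 (⟨c, t⟩ : ℂ)‖, fun v => ?_⟩
    have h1 : |Sm h v| ≤ (2 * Real.pi)⁻¹ * ∫ t : ℝ, ‖GG h v (⟨c, t⟩ : ℂ)‖ := by
      have h2 : |Sm h v| = ‖((Sm h v : ℝ) : ℂ)‖ := by rw [Complex.norm_real, Real.norm_eq_abs]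
      rw [h2, (hinv v).2, norm_mul, norm_inv, Complex.norm_real, Real.norm_of_nonneg
        (by positivity : (0 : ℝ) ≤ 2 * Real.pi)]
      gcongr
      exact norm_integral_le_integral_norm _
    have h3 : ∀ t : ℝ, ‖GG h v (⟨c, t⟩ : ℂ)‖ = ‖GG h 0 (⟨c, t⟩ : ℂ)‖ * Real.exp (c * v) := by
      intro t
      rw [GG_shift, norm_mul, Complex.norm_exp]
      congr 2
      simp
    simp only [h3] at h1
    rw [integral_mul_const, ← mul_assoc] at h1
    rw [abs_mul, abs_of_pos (Real.exp_pos _)]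
    calc |Sm h v| * Real.exp (-(c * v))
        ≤ (2 * Real.pi)⁻¹ * (∫ t : ℝ, ‖GG h 0 (⟨c, t⟩ : ℂ)‖) * Real.exp (c * v) *
          Real.exp (-(c * v)) := by gcongr
      _ = _ := by
        rw [mul_assoc, ← Real.exp_add, add_neg_cancel, Real.exp_zero, mul_one]
  have hfirst : Integrable (fun v : ℝ => Sm h v ^ 2 * Real.exp (-(2 * c * v))) := by
    have h1 : Integrable (fun v : ℝ => (Sm h v * Real.exp (-(c * v))) *
        (Sm h v * Real.exp (-(c * v)))) :=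
      hS.bdd_mul hS.aestronglyMeasurable (ae_of_all _ fun v => by
        rw [Real.norm_eq_abs]
        exact hB v)
    refine h1.congr (ae_of_all _ fun v => ?_)
    have e1 : Real.exp (-(2 * c * v)) = Real.exp (-(c * v)) * Real.exp (-(c * v)) := by
      rw [← Real.exp_add]
      congr 1
      ring
    simp only
    rw [e1]
    ring
  have hconj : ∀ t : ℝ, 2 * (c : ℂ) - (⟨c, t⟩ : ℂ) = (⟨c, -t⟩ : ℂ) := by
    intro t
    apply Complex.ext
    · simp
      ring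
    · simp
  -- the double integral
  have hF : Integrable (fun p : ℝ × ℝ => GG h 0 (⟨c, p.1⟩ : ℂ) *
      (((Sm h p.2 : ℝ) : ℂ) * Complex.exp (-((⟨c, -p.1⟩ : ℂ) * p.2)))) (volume.prod volume) := by
    have hG0 : Integrable (fun t : ℝ => GG h 0 (⟨c, t⟩ : ℂ)) := (hinv 0).1
    have hAB : Integrable (fun p : ℝ × ℝ => GG h 0 (⟨c, p.1⟩ : ℂ) *
        ((Sm h p.2 * Real.exp (-(c * p.2)) : ℝ) : ℂ)) (volume.prod volume) :=
      hG0.mul_prod (hS.ofReal)
    have e1 : ∀ p : ℝ × ℝ, GG h 0 (⟨c, p.1⟩ : ℂ) *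
        (((Sm h p.2 : ℝ) : ℂ) * Complex.exp (-((⟨c, -p.1⟩ : ℂ) * p.2))) =
        (GG h 0 (⟨c, p.1⟩ : ℂ) * ((Sm h p.2 * Real.exp (-(c * p.2)) : ℝ) : ℂ)) *
          Complex.exp (((p.1 * p.2 : ℝ) : ℂ) * Complex.I) := by
      intro p
      rw [Complex.ofReal_mul, Complex.ofReal_exp, mul_assoc, mul_assoc, ← Complex.exp_add,
        mk_eq c (-p.1)]
      congr 3
      push_cast
      ring
    simp only [e1]
    refine hAB.mul_bdd (c := 1) ?_ (ae_of_all _ fun p => ?_)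
    · apply Continuous.aestronglyMeasurable
      fun_prop
    · rw [Complex.norm_exp_ofReal_mul_I]
  have hin : ∀ t : ℝ, ∫ v : ℝ, GG h 0 (⟨c, t⟩ : ℂ) *
      (((Sm h v : ℝ) : ℂ) * Complex.exp (-((⟨c, -t⟩ : ℂ) * v))) =
      GG h 0 (⟨c, t⟩ : ℂ) * GG h 0 (2 * c - (⟨c, t⟩ : ℂ)) := by
    intro t
    rw [integral_const_mul, (hlapS (-t)).2, hconj]
  refine ⟨hfirst, ?_, ?_⟩
  · have h1 := hF.integral_prod_left
    simp only [hin] at h1
    exact h1
  · have h1 := integral_integral_swap (f := fun t v : ℝ => GG h 0 (⟨c, t⟩ : ℂ) *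
      (((Sm h v : ℝ) : ℂ) * Complex.exp (-((⟨c, -t⟩ : ℂ) * v)))) hF
    simp only [hin] at h1
    rw [h1, ← integral_const_mul]
    have e5 : ((∫ v : ℝ, Sm h v ^ 2 * Real.exp (-(2 * c * v)) : ℝ) : ℂ) =
        ∫ v : ℝ, ((Sm h v ^ 2 * Real.exp (-(2 * c * v)) : ℝ) : ℂ) := integral_ofReal.symm
    rw [e5]
    congr 1
    funext v
    have e6 : ∀ t : ℝ, GG h 0 (⟨c, t⟩ : ℂ) *
        (((Sm h v : ℝ) : ℂ) * Complex.exp (-((⟨c, -t⟩ : ℂ) * v))) =
        (((Sm h v : ℝ) : ℂ) * ((Real.exp (-(2 * c * v)) : ℝ) : ℂ)) * GG h v (⟨c, t⟩ : ℂ) := by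
      intro t
      rw [GG_shift h v, Complex.ofReal_exp]
      have e7 : Complex.exp (-((⟨c, -t⟩ : ℂ) * v)) = Complex.exp ((-(2 * c * v) : ℝ) : ℂ) *
          Complex.exp ((⟨c, t⟩ : ℂ) * v) := by
        rw [← Complex.exp_add, mk_eq, mk_eq]
        congr 1
        push_cast
        ring
      rw [e7]
      ring
    simp only [e6]
    rw [integral_const_mul]
    have e8 := (hinv v).2
    rw [pow_two, Complex.ofReal_mul, Complex.ofReal_mul]
    nth_rewrite 2 [e8]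
    ring

end Pool.Agent.H313.ZC.Msq
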