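import Pool.Agent.H313.ZC.Stm
import Pool.Graph.R_seed8.W280.WM.EF
import Pool.Graph.R_seed8.W565.WM.Res
import Pool.Graph.R_seed8.W191.WM.Left
import Pool.Graph.R_seed8.W915.WM.Hor

/-!
# ZC-SHIFT: shift of the line of integration from `Re s = c` to `Re s = -1/2` (helper264)
-/

set_option autoImplicit false

open MeasureTheory Filter Topology Set

namespace Pool.Agent.H313.ZC.Shift

open Pool.Agent.W120.WM H370
open Pool.Agent.W280.WM (Fz gz Fz_diff gz_diff quot Fz_zero deriv_Fz_zero deriv_Fz fin_NT norm_EE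
  lim_bot GG_bound)
open Pool.Agent.W565.WM (dds factor)

/-! ### the residue theorem for a quotient `g / F`, `g` analytic in a neighbourhood -/

theorem ddsOn {f : ℂ → ℂ} {U : Set ℂ} {p : ℂ} (hU : IsOpen U) (hp : p ∈ U)
    (hf : DifferentiableOn ℂ f U) : DifferentiableOn ℂ (dslope f p) U :=
  (Complex.differentiableOn_dslope (hU.mem_nhds hp)).2 hf

theorem aux (a b c d : ℝ) (hab : a < b) (hcd : c < d) (U : Set ℂ) (hU : IsOpen U)
    (hsub : Icc a b ×ℂ Icc c d ⊆ U) : ∀ (Z : Finset ℂ) (F g : ℂ → ℂ),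
    Differentiable ℂ F → DifferentiableOn ℂ g U →
    (∀ s ∈ Icc a b ×ℂ Icc c d, F s = 0 ↔ s ∈ Z) →
    (∀ ρ ∈ Z, ρ ∈ Ioo a b ×ℂ Ioo c d ∧ deriv F ρ ≠ 0) →
    RI a b c d (fun s => g s / F s) = 2 * Real.pi * Complex.I * ∑ ρ ∈ Z, g ρ / deriv F ρ := by
  classical
  intro Z
  induction Z using Finset.induction_on with
  | empty =>
    intro F g hF hg hz _
    rw [Finset.sum_empty, mul_zero]
    apply RI_zero hab.le hcd.le
    apply (hg.mono hsub).div hF.differentiableOn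
    intro s hs h0
    have h1 := (hz s hs).1 h0
    simp at h1
  | insert ρ Z hρZ ih =>
    intro F g hF hg hz hd
    obtain ⟨hρ, hρ'⟩ := hd ρ (Finset.mem_insert_self _ _)
    have hρR : ρ ∈ Icc a b ×ℂ Icc c d := ⟨⟨hρ.1.1.le, hρ.1.2.le⟩, ⟨hρ.2.1.le, hρ.2.2.le⟩⟩
    have hρU : ρ ∈ U := hsub hρR
    have hFρ : F ρ = 0 := (hz ρ hρR).2 (Finset.mem_insert_self _ _)
    obtain ⟨G, hGdef⟩ : ∃ G : ℂ → ℂ, G = dslope F ρ := ⟨_, rfl⟩
    have hG : Differentiable ℂ G := by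
      rw [hGdef]
      exact dds hF ρ
    have hFG : ∀ s, F s = (s - ρ) * G s := by
      intro s
      rw [hGdef]
      exact factor hFρ s
    have hGρ : G ρ = deriv F ρ := by rw [hGdef, dslope_same]
    have hGρ0 : G ρ ≠ 0 := by rw [hGρ]; exact hρ'
    have hzG : ∀ s ∈ Icc a b ×ℂ Icc c d, G s = 0 ↔ s ∈ Z := by
      intro s hs
      by_cases hsρ : s = ρ
      · rw [hsρ]
        exact ⟨fun h => absurd h hGρ0, fun h => absurd h hρZ⟩
      · have h1 := hz s hs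
        rw [hFG s, mul_eq_zero, Finset.mem_insert] at h1
        constructor
        · intro h
          exact (h1.1 (Or.inr h)).resolve_left hsρ
        · intro h
          exact (h1.2 (Or.inr h)).resolve_left (sub_ne_zero.2 hsρ)
    have hIoo : ∀ σ ∈ Z, σ ∈ Ioo a b ×ℂ Ioo c d := fun σ hσ =>
      (hd σ (Finset.mem_insert_of_mem hσ)).1
    have hG0 : ∀ σ ∈ Z, G σ = 0 := by
      intro σ hσ
      have h1 := hIoo σ hσ
      exact (hzG σ ⟨⟨h1.1.1.le, h1.1.2.le⟩, ⟨h1.2.1.le, h1.2.2.le⟩⟩).2 hσ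
    have hder : ∀ σ ∈ Z, deriv F σ = (σ - ρ) * deriv G σ := by
      intro σ hσ
      have h1 : HasDerivAt (fun s => (s - ρ) * G s) (1 * G σ + (σ - ρ) * deriv G σ) σ :=
        ((hasDerivAt_id σ).sub_const ρ).mul (hG σ).hasDerivAt
      have h2 : F = fun s => (s - ρ) * G s := funext hFG
      rw [h2, h1.deriv, hG0 σ hσ]
      ring
    have hdG : ∀ σ ∈ Z, σ ∈ Ioo a b ×ℂ Ioo c d ∧ deriv G σ ≠ 0 := by
      intro σ hσ
      refine ⟨hIoo σ hσ, fun h0 => ?_⟩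
      apply (hd σ (Finset.mem_insert_of_mem hσ)).2
      rw [hder σ hσ, h0, mul_zero]
    obtain ⟨k, hk⟩ : ∃ k : ℂ, k = g ρ / G ρ := ⟨_, rfl⟩
    have hkd : DifferentiableOn ℂ (fun s => g s - k * G s) U :=
      hg.sub (hG.const_mul k).differentiableOn
    have hk0 : (fun s => g s - k * G s) ρ = 0 := by
      simp only
      rw [hk, div_mul_cancel₀ _ hGρ0, sub_self]
    obtain ⟨g2, hg2⟩ : ∃ g2 : ℂ → ℂ, g2 = dslope (fun s => g s - k * G s) ρ := ⟨_, rfl⟩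
    have hg2d : DifferentiableOn ℂ g2 U := by
      rw [hg2]
      exact ddsOn hU hρU hkd
    have hfac : ∀ s, g s - k * G s = (s - ρ) * g2 s := by
      intro s
      rw [hg2]
      exact factor (f := fun s => g s - k * G s) (p := ρ) hk0 s
    have hBρ : ∀ s ∈ Bd a b c d, s ≠ ρ := fun s hs he => Bd_not_Ioo hs (he ▸ hρ)
    have hBG : ∀ s ∈ Bd a b c d, G s ≠ 0 := by
      intro s hs h0
      exact Bd_not_Ioo hs (hIoo s ((hzG s (Bd_sub hab.le hcd.le hs)).1 h0))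
    have e1 : RI a b c d (fun s => g s / F s) =
        RI a b c d (fun s => g2 s / G s + k * (s - ρ)⁻¹) := by
      apply RI_congr hab.le hcd.le
      intro s hs
      have h1 := sub_ne_zero.2 (hBρ s hs)
      have h2 := hBG s hs
      have h3 : g s = (s - ρ) * g2 s + k * G s := by
        rw [← hfac s]
        ring
      rw [hFG s, h3]
      field_simp
    have c1 : ContinuousOn (fun s => g2 s / G s) (Bd a b c d) :=
      (hg2d.continuousOn.mono ((Bd_sub hab.le hcd.le).trans hsub)).div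
        hG.continuous.continuousOn hBG
    have c2 : ContinuousOn (fun s : ℂ => (s - ρ)⁻¹) (Bd a b c d) := by
      apply ContinuousOn.inv₀ (by fun_prop)
      intro s hs
      exact sub_ne_zero.2 (hBρ s hs)
    rw [e1, RI_add hab.le hcd.le (g := fun s => k * (s - ρ)⁻¹) c1 (continuousOn_const.mul c2),
      RI_const_mul, RI_inv hρ, ih G g2 hG hg2d hzG hdG, Finset.sum_insert hρZ]
    have e2 : ∑ σ ∈ Z, g2 σ / deriv G σ = ∑ σ ∈ Z, g σ / deriv F σ := by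
      refine Finset.sum_congr rfl fun σ hσ => ?_
      have h1 : σ - ρ ≠ 0 := by
        rw [sub_ne_zero]
        rintro rfl
        exact hρZ hσ
      have h2 := hfac σ
      rw [hG0 σ hσ, mul_zero, sub_zero] at h2
      rw [hder σ hσ, h2, mul_div_mul_left _ _ h1]
    rw [e2, hk, hGρ]
    ring

/-! ### the integrand -/

/-- the integrand -/
noncomputable def PP (h c : ℝ) (s : ℂ) : ℂ := GG h 0 s * GG h 0 (2 * c - s)

/-- the numerator -/
noncomputable def gg (h c : ℝ) (s : ℂ) : ℂ := gz h 0 s * (gz h 0 (2 * c - s) / Fz (2 * c - s))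

theorem gg_diff (hRH : RHz) (h c : ℝ) :
    DifferentiableOn ℂ (gg h c) {s : ℂ | s.re < 2 * c - 1 / 2} := by
  unfold gg
  have h1 : Differentiable ℂ (fun s : ℂ => 2 * (c : ℂ) - s) := by fun_prop
  refine (gz_diff h 0).differentiableOn.mul (DifferentiableOn.div
    ((gz_diff h 0).comp h1).differentiableOn ((Fz_diff.comp h1).differentiableOn) ?_)
  intro s hs h0
  have hs' : s.re < 2 * c - 1 / 2 := hs
  have hre : (2 * (c : ℂ) - s).re = 2 * c - s.re := by simp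
  have h2 : Fz (2 * (c : ℂ) - s) = 0 := h0
  rw [Fz_zero _ (by rw [hre]; linarith)] at h2
  rcases h2 with h2 | h2
  · have h3 := congrArg Complex.re h2
    rw [hre, Complex.zero_re] at h3
    linarith
  · have h3 := hRH _ h2
    rw [hre] at h3
    linarith

theorem gg_quot (h c : ℝ) (s : ℂ) (hs : s ≠ 1) (hs2 : 2 * (c : ℂ) - s ≠ 1) :
    gg h c s / Fz s = PP h c s := by
  unfold gg PP
  rw [quot h 0 _ hs2, mul_div_right_comm, quot h 0 s hs]

theorem rect (hHS : HS) (h c : ℝ) (hc1 : 1 / 2 < c) (hc2 : c < 3 / 4) (U : ℝ) (hU : 1 ≤ U)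
    (hz : ∀ σ ∈ Icc (-1 / 2 : ℝ) (3 / 2), ∀ t : ℝ, |t| = U → riemannZeta (⟨σ, t⟩ : ℂ) ≠ 0)
    (Z : Finset ℂ) (hZ : ∀ ρ, ρ ∈ Z ↔ ρ ∈ NT ∧ |ρ.im| ≤ U) :
    ∑ ρ ∈ Z, EE h 0 ρ * GG h 0 (2 * c - ρ) / (ρ * deriv riemannZeta ρ) =
      2 * GG h 0 (2 * c) + (2 * Real.pi * Complex.I)⁻¹ *
        ((∫ x in (-1 / 2 : ℝ)..c, PP h c (⟨x, -U⟩ : ℂ)) -
          ∫ x in (-1 / 2 : ℝ)..c, PP h c (⟨x, U⟩ : ℂ)) +
      ((2 * Real.pi : ℝ) : ℂ)⁻¹ * ((∫ y in (-U)..U, PP h c (⟨c, y⟩ : ℂ)) -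
          ∫ y in (-U)..U, PP h c (⟨-1 / 2, y⟩ : ℂ)) := by
  have hRH : RHz := fun ρ hρ => (hHS ρ hρ).1
  have h0Z : (0 : ℂ) ∉ Z := by
    intro h0
    have := ((hZ 0).mp h0).1.2.1
    simp at this
  have hUo : IsOpen {s : ℂ | s.re < 2 * c - 1 / 2} :=
    isOpen_lt Complex.continuous_re continuous_const
  have hUs : Icc (-1 / 2 : ℝ) c ×ℂ Icc (-U) U ⊆ {s : ℂ | s.re < 2 * c - 1 / 2} := by
    intro s hs
    rw [Complex.mem_reProdIm] at hs
    have h1 := hs.1.2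
    change s.re < 2 * c - 1 / 2
    linarith
  have key := aux (-1 / 2) c (-U) U (by linarith) (by linarith) _ hUo hUs (insert 0 Z) Fz (gg h c)
    Fz_diff (gg_diff hRH h c) (by
      intro s hs
      rw [Complex.mem_reProdIm] at hs
      rw [Fz_zero s hs.1.1, Finset.mem_insert, hZ]
      have : |s.im| ≤ U := abs_le.mpr hs.2
      tauto) (by
      intro ρ hρ
      rw [Finset.mem_insert] at hρ
      rcases hρ with rfl | hρ
      · refine ⟨?_, ?_⟩
        · rw [Complex.mem_reProdIm]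
          constructor
          · rw [Complex.zero_re]; constructor <;> linarith
          · rw [Complex.zero_im]; constructor <;> linarith
        · rw [deriv_Fz_zero]; norm_num
      · rw [hZ] at hρ
        have hne : |ρ.im| ≠ U := by
          intro he
          have h1 := hz ρ.re ⟨by linarith [hρ.1.2.1], by linarith [hρ.1.2.2]⟩ ρ.im he
          exact h1 hρ.1.1
        have hlt : |ρ.im| < U := lt_of_le_of_ne hρ.2 hne
        have hre := hRH ρ hρ.1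
        refine ⟨?_, ?_⟩
        · rw [Complex.mem_reProdIm]
          refine ⟨⟨by linarith, by linarith⟩, abs_lt.mp hlt⟩
        · rw [deriv_Fz ρ hρ.1]
          refine mul_ne_zero ?_ (mul_ne_zero ?_ (hHS ρ hρ.1).2)
          · intro h1
            have h2 : ρ = 1 := sub_eq_zero.mp h1
            have := hρ.1.2.2
            rw [h2] at this
            simp at this
          · intro h1
            have := hρ.1.2.1
            rw [h1] at this
            simp at this)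
  have hsum : ∑ ρ ∈ insert 0 Z, gg h c ρ / deriv Fz ρ =
      -2 * GG h 0 (2 * c) + ∑ ρ ∈ Z, EE h 0 ρ * GG h 0 (2 * c - ρ) / (ρ * deriv riemannZeta ρ) := by
    rw [Finset.sum_insert h0Z]
    congr 1
    · rw [deriv_Fz_zero]
      unfold gg
      have h1 : 2 * (c : ℂ) - 0 ≠ 1 := by
        intro h1
        have h2 := congrArg Complex.re h1
        simp at h2
        linarith
      rw [quot h 0 _ h1, sub_zero]
      unfold gz EE
      simp
      ring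
    · apply Finset.sum_congr rfl
      intro ρ hρ
      rw [hZ] at hρ
      rw [deriv_Fz ρ hρ.1]
      have h1 : ρ - 1 ≠ 0 := by
        intro h1
        have h2 : ρ = 1 := sub_eq_zero.mp h1
        have := hρ.1.2.2
        rw [h2] at this
        simp at this
      have h2 : 2 * (c : ℂ) - ρ ≠ 1 := by
        intro h2
        have h3 := congrArg Complex.re h2
        have h4 := hRH ρ hρ.1
        simp [h4] at h3
        linarith
      unfold gg
      rw [quot h 0 _ h2]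
      unfold gz
      rw [mul_assoc, mul_div_mul_left _ _ h1]
  have hcc : ∀ (t : ℝ), t ≠ 0 → (∫ x in (-1 / 2 : ℝ)..c, gg h c (⟨x, t⟩ : ℂ) / Fz ⟨x, t⟩) =
      ∫ x in (-1 / 2 : ℝ)..c, PP h c (⟨x, t⟩ : ℂ) := by
    intro t ht
    apply intervalIntegral.integral_congr
    intro x _
    apply gg_quot
    · intro h1
      have h2 := congrArg Complex.im h1
      exact ht h2
    · intro h1
      have h2 := congrArg Complex.im h1
      simp at h2
      exact ht h2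
  have hr : ∀ (σ : ℝ), σ ≠ 1 → 2 * c - σ ≠ 1 →
      (∫ y in (-U)..U, gg h c (⟨σ, y⟩ : ℂ) / Fz ⟨σ, y⟩) =
      ∫ y in (-U)..U, PP h c (⟨σ, y⟩ : ℂ) := by
    intro σ hσ hσ2
    apply intervalIntegral.integral_congr
    intro y _
    apply gg_quot
    · intro h1
      have h2 := congrArg Complex.re h1
      exact hσ h2
    · intro h1
      have h2 := congrArg Complex.re h1
      simp at h2
      exact hσ2 h2
  unfold RI at key
  rw [hcc (-U) (by linarith), hcc U (by linarith), hr c (by linarith) (by linarith),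
    hr (-1 / 2) (by norm_num) (by linarith), hsum] at key
  have hpi : (Real.pi : ℂ) ≠ 0 := by exact_mod_cast Real.pi_ne_zero
  have hI := Complex.I_ne_zero
  generalize (∫ x in (-1 / 2 : ℝ)..c, PP h c (⟨x, -U⟩ : ℂ)) = A1 at key ⊢
  generalize (∫ x in (-1 / 2 : ℝ)..c, PP h c (⟨x, U⟩ : ℂ)) = A2 at key ⊢
  generalize (∫ y in (-U)..U, PP h c (⟨c, y⟩ : ℂ)) = A3 at key ⊢
  generalize (∫ y in (-U)..U, PP h c (⟨-1 / 2, y⟩ : ℂ)) = A4 at key ⊢
  generalize (∑ ρ ∈ Z, EE h 0 ρ * GG h 0 (2 * c - ρ) / (ρ * deriv riemannZeta ρ)) = A5 at key ⊢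
  generalize GG h 0 (2 * (c : ℂ)) = A6 at key ⊢
  push_cast
  field_simp
  linear_combination (-1 : ℂ) * key

/-! ### estimates -/

theorem zeta_real (x : ℝ) (hx : 1 < x) : ‖(riemannZeta (x : ℂ))⁻¹‖ ≤ 1 := by
  have h1 : riemannZeta (x : ℂ) = ((∑' n : ℕ, 1 / ((n : ℝ) + 1) ^ x : ℝ) : ℂ) := by
    rw [zeta_eq_tsum_one_div_nat_add_one_cpow (by simpa using hx), Complex.ofReal_tsum]
    refine tsum_congr fun n => ?_
    push_cast
    congr 1
    have h2 : ((n : ℂ) + 1) = (((n : ℝ) + 1 : ℝ) : ℂ) := by push_cast; rfl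
    rw [h2, ← Complex.ofReal_cpow (by positivity)]
  have hs : Summable (fun n : ℕ => 1 / ((n : ℝ) + 1) ^ x) := by
    have h2 := (summable_nat_add_iff 1).2 (Real.summable_one_div_nat_rpow.2 hx)
    refine h2.congr fun n => ?_
    push_cast
    rfl
  have h3 : 1 ≤ ∑' n : ℕ, 1 / ((n : ℝ) + 1) ^ x := by
    have h4 := hs.le_tsum 0 (fun n _ => by positivity)
    simpa using h4
  rw [norm_inv, h1, Complex.norm_real, Real.norm_of_nonneg (by linarith)]
  exact inv_le_one_of_one_le₀ h3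

theorem GG_right (h x t K : ℝ) (hh : 0 < h) (hh1 : h ≤ 1) (hx : x ^ 2 ≤ 4)
    (h1 : 1 ≤ ‖(⟨x, t⟩ : ℂ)‖) (hK : ‖(riemannZeta (⟨x, t⟩ : ℂ))⁻¹‖ ≤ K) :
    ‖GG h 0 (⟨x, t⟩ : ℂ)‖ ≤ Real.exp 2 * K := by
  unfold GG
  rw [norm_div, norm_mul, norm_EE, div_eq_mul_inv, mul_inv, ← norm_inv (riemannZeta _)]
  have h2 : ‖(⟨x, t⟩ : ℂ)‖⁻¹ ≤ 1 := inv_le_one_of_one_le₀ h1
  have h3 : Real.exp (h ^ 2 / 2 * (x ^ 2 - t ^ 2) + 0 * x) ≤ Real.exp 2 := by
    apply Real.exp_le_exp.mpr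
    have h4 : h ^ 2 ≤ 1 := by nlinarith
    have h5 : h ^ 2 / 2 * (x ^ 2 - t ^ 2) ≤ 1 / 2 * 4 := by
      have h6 : h ^ 2 / 2 * (x ^ 2 - t ^ 2) ≤ h ^ 2 / 2 * 4 :=
        mul_le_mul_of_nonneg_left (by nlinarith [sq_nonneg t]) (by positivity)
      nlinarith
    linarith
  have h4 : ‖(⟨x, t⟩ : ℂ)‖⁻¹ * ‖(riemannZeta (⟨x, t⟩ : ℂ))⁻¹‖ ≤ 1 * K :=
    mul_le_mul h2 hK (norm_nonneg _) zero_le_one
  rw [one_mul] at h4
  exact mul_le_mul h3 h4 (by positivity) (Real.exp_pos _).le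

theorem two_sub (c x t : ℝ) : 2 * (c : ℂ) - (⟨x, t⟩ : ℂ) = (⟨2 * c - x, -t⟩ : ℂ) := by
  apply Complex.ext <;> simp

theorem PP_hor (h c x t U L B : ℝ) (hh : 0 < h) (hh1 : h ≤ 1) (hc1 : 1 / 2 < c) (hc2 : c < 3 / 4)
    (hx : x ∈ Icc (-1 / 2 : ℝ) c) (ht : |t| = U) (hU : 1 ≤ U) (hL : 0 ≤ L) (hB : 1 ≤ B)
    (hz : ∀ σ ∈ Icc (-1 / 2 : ℝ) (3 / 2), ∀ t : ℝ, |t| = U →
      ‖(riemannZeta (⟨σ, t⟩ : ℂ))⁻¹‖ ≤ Real.exp L)
    (hr : ∀ s : ℂ, 3 / 2 ≤ s.re → riemannZeta s ≠ 0 ∧ ‖(riemannZeta s)⁻¹‖ ≤ B) :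
    ‖PP h c (⟨x, t⟩ : ℂ)‖ ≤
      Real.exp (h ^ 2 / 2 * (9 / 4 - U ^ 2) + 2 * L) * (Real.exp 2 * (1 + B)) := by
  unfold PP
  rw [norm_mul, two_sub]
  have h1 := GG_bound h 0 x t U L ⟨hx.1, by linarith [hx.2]⟩ ht hU
    (hz x ⟨hx.1, by linarith [hx.2]⟩ t ht)
  rw [abs_zero, mul_zero, add_zero] at h1
  have hexp : 1 ≤ Real.exp L := Real.one_le_exp hL
  have ht' : |(-t)| = U := by rw [abs_neg, ht]
  have h2 : ‖GG h 0 (⟨2 * c - x, -t⟩ : ℂ)‖ ≤ Real.exp 2 * ((1 + B) * Real.exp L) := by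
    refine GG_right h _ _ _ hh hh1 ?_ ?_ ?_
    · have h3 := hx.1
      have h4 := hx.2
      nlinarith
    · have h3 := Complex.abs_im_le_norm (⟨2 * c - x, -t⟩ : ℂ)
      have h4 : |(⟨2 * c - x, -t⟩ : ℂ).im| = U := ht'
      linarith
    · rcases le_total (2 * c - x) (3 / 2) with h3 | h3
      · refine (hz (2 * c - x) ⟨by linarith [hx.2], h3⟩ (-t) ht').trans ?_
        nlinarith
      · refine (hr (⟨2 * c - x, -t⟩ : ℂ) h3).2.trans ?_
        nlinarith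
  refine (mul_le_mul h1 h2 (norm_nonneg _) (Real.exp_pos _).le).trans (le_of_eq ?_)
  rw [show h ^ 2 / 2 * (9 / 4 - U ^ 2) + 2 * L = (h ^ 2 / 2 * (9 / 4 - U ^ 2) + L) + L by ring,
    Real.exp_add (h ^ 2 / 2 * (9 / 4 - U ^ 2) + L) L]
  ring

theorem PP_hor_int (h c t U L B : ℝ) (hh : 0 < h) (hh1 : h ≤ 1) (hc1 : 1 / 2 < c)
    (hc2 : c < 3 / 4) (ht : |t| = U) (hU : 1 ≤ U) (hL : 0 ≤ L) (hB : 1 ≤ B)
    (hz : ∀ σ ∈ Icc (-1 / 2 : ℝ) (3 / 2), ∀ t : ℝ, |t| = U →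
      ‖(riemannZeta (⟨σ, t⟩ : ℂ))⁻¹‖ ≤ Real.exp L)
    (hr : ∀ s : ℂ, 3 / 2 ≤ s.re → riemannZeta s ≠ 0 ∧ ‖(riemannZeta s)⁻¹‖ ≤ B) :
    ‖∫ x in (-1 / 2 : ℝ)..c, PP h c (⟨x, t⟩ : ℂ)‖ ≤
      Real.exp (h ^ 2 / 2 * (9 / 4 - U ^ 2) + 2 * L) * (Real.exp 2 * (1 + B)) * 2 := by
  have h1 := intervalIntegral.norm_integral_le_of_norm_le_const (a := (-1 / 2 : ℝ)) (b := c)
    (f := fun x => PP h c (⟨x, t⟩ : ℂ))
    (C := Real.exp (h ^ 2 / 2 * (9 / 4 - U ^ 2) + 2 * L) * (Real.exp 2 * (1 + B))) (by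
      intro x hx
      have hx' : x ∈ Icc (-1 / 2 : ℝ) c := by
        rw [uIoc_of_le (by linarith)] at hx
        exact ⟨hx.1.le, hx.2⟩
      exact PP_hor h c x t U L B hh hh1 hc1 hc2 hx' ht hU hL hB hz hr)
  refine h1.trans (mul_le_mul_of_nonneg_left ?_ (by positivity))
  rw [abs_of_nonneg (by linarith)]
  linarith

/-- the line `Re s = -1/2` -/
theorem line : ∃ B₁ : ℝ, 0 < B₁ ∧ ∀ h c : ℝ, 0 < h → h ≤ 1 → 1 / 2 < c → c < 3 / 4 →
    Integrable (fun t : ℝ => PP h c (⟨-1 / 2, t⟩ : ℂ)) ∧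
    ‖∫ t : ℝ, PP h c (⟨-1 / 2, t⟩ : ℂ)‖ ≤ B₁ := by
  obtain ⟨B, hB, hl⟩ := Pool.Agent.W191.WM.left
  obtain ⟨B', hB', hr⟩ := Pool.Agent.W191.WM.zeta_inv_right
  have hint0 : Integrable (fun t : ℝ => B / (1 / 4 + t ^ 2)) := by
    have h1 : Integrable (fun t : ℝ => (1 + t ^ 2)⁻¹) := integrable_inv_one_add_sq
    have h2 := (h1.comp_mul_left' (R := (2 : ℝ)) (by norm_num)).const_mul (4 * B)
    refine h2.congr (Filter.Eventually.of_forall fun t => ?_)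
    simp only
    have : (0 : ℝ) < 1 + (2 * t) ^ 2 := by positivity
    have : (0 : ℝ) < 1 / 4 + t ^ 2 := by positivity
    field_simp
    ring
  set J : ℝ := ∫ t : ℝ, B / (1 / 4 + t ^ 2) with hJ
  have hJ0 : 0 ≤ J := integral_nonneg fun t => by positivity
  refine ⟨(Real.exp (1 / 8) * (Real.exp 2 * B')) * J + 1, by positivity, fun h c hh hh1 hc1 hc2 => ?_⟩
  have hbd : ∀ t : ℝ, ‖PP h c (⟨-1 / 2, t⟩ : ℂ)‖ ≤
      (Real.exp (1 / 8) * (Real.exp 2 * B')) * (B / (1 / 4 + t ^ 2)) := by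
    intro t
    unfold PP
    rw [norm_mul, two_sub]
    have h1 : ‖GG h 0 (⟨-1 / 2, t⟩ : ℂ)‖ ≤ Real.exp (1 / 8) * (B / (1 / 4 + t ^ 2)) := by
      unfold GG
      rw [div_eq_mul_inv, norm_mul]
      have h2 := Pool.Agent.W191.WM.norm_EE_left h 0 t hh hh1
      rw [neg_zero, zero_div, Real.exp_zero, mul_one] at h2
      exact mul_le_mul h2 (hl t).2 (norm_nonneg _) (by positivity)
    have h2 : ‖GG h 0 (⟨2 * c - -1 / 2, -t⟩ : ℂ)‖ ≤ Real.exp 2 * B' := by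
      refine GG_right h _ _ _ hh hh1 (by nlinarith) ?_ ?_
      · have h3 := Complex.abs_re_le_norm (⟨2 * c - -1 / 2, -t⟩ : ℂ)
        have h4 : (⟨2 * c - -1 / 2, -t⟩ : ℂ).re = 2 * c - -1 / 2 := rfl
        rw [h4, abs_of_nonneg (by linarith)] at h3
        linarith
      · refine (hr _ ?_).2
        change (3 : ℝ) / 2 ≤ 2 * c - -1 / 2
        linarith
    refine (mul_le_mul h1 h2 (norm_nonneg _) (by positivity)).trans (le_of_eq ?_)
    ring
  have hint1 : Integrable (fun t : ℝ =>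
      (Real.exp (1 / 8) * (Real.exp 2 * B')) * (B / (1 / 4 + t ^ 2))) := hint0.const_mul _
  have hcont : Continuous (fun t : ℝ => PP h c (⟨-1 / 2, t⟩ : ℂ)) := by
    have hc1' := Pool.Agent.W191.WM.cont_line h 0 (fun t => (hl t).1)
    have hcl : Continuous (fun t : ℝ => 2 * (c : ℂ) - (⟨-1 / 2, t⟩ : ℂ)) := by
      have h5 : (fun t : ℝ => 2 * (c : ℂ) - (⟨-1 / 2, t⟩ : ℂ)) =
          fun t : ℝ => 2 * (c : ℂ) - (((-1 / 2 : ℝ) : ℂ) + t * Complex.I) := by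
        funext t
        congr 1
        apply Complex.ext <;> simp
      rw [h5]
      fun_prop
    have hre : ∀ t : ℝ, (2 * (c : ℂ) - (⟨-1 / 2, t⟩ : ℂ)).re = 2 * c + 1 / 2 := by
      intro t
      rw [two_sub]
      change 2 * c - -1 / 2 = 2 * c + 1 / 2
      ring
    have hzc : Continuous (fun t : ℝ => riemannZeta (2 * (c : ℂ) - (⟨-1 / 2, t⟩ : ℂ))) := by
      rw [continuous_iff_continuousAt]
      intro t
      have h1 : ContinuousAt riemannZeta (2 * (c : ℂ) - (⟨-1 / 2, t⟩ : ℂ)) := by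
        apply (differentiableAt_riemannZeta _).continuousAt
        intro h2
        have h3 := congrArg Complex.re h2
        rw [hre, Complex.one_re] at h3
        linarith
      exact ContinuousAt.comp (f := fun t : ℝ => 2 * (c : ℂ) - (⟨-1 / 2, t⟩ : ℂ)) h1
        hcl.continuousAt
    have h2 : Continuous (fun t : ℝ => GG h 0 (2 * (c : ℂ) - (⟨-1 / 2, t⟩ : ℂ))) := by
      unfold GG EE
      refine Continuous.div (by fun_prop) (hcl.mul hzc) ?_
      intro t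
      refine mul_ne_zero ?_ (hr _ (by rw [hre]; linarith)).1
      intro h2
      have h3 := congrArg Complex.re h2
      rw [hre, Complex.zero_re] at h3
      linarith
    unfold PP
    exact hc1'.mul h2
  constructor
  · exact hint1.mono' hcont.aestronglyMeasurable (Filter.Eventually.of_forall hbd)
  · refine (norm_integral_le_of_norm_le hint1 (Filter.Eventually.of_forall hbd)).trans ?_
    rw [integral_const_mul, ← hJ]
    linarith

/-- JOB SHIFT -/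
theorem t_shift : S_SHIFT := by
  intro hHS
  obtain ⟨C, hC, hgood⟩ := Pool.Agent.W915.WM.hor
  obtain ⟨B, hB, hright⟩ := Pool.Agent.W915.WM.zeta_inv_right
  obtain ⟨B₁, hB₁, hline⟩ := line
  have hk : ∀ k : ℕ, ∃ U ∈ Icc ((k : ℝ) + 3) ((k : ℝ) + 3 + 1),
      ∀ σ ∈ Icc (-1 / 2 : ℝ) (3 / 2), ∀ t : ℝ, |t| = U →
        riemannZeta (⟨σ, t⟩ : ℂ) ≠ 0 ∧
          ‖(riemannZeta (⟨σ, t⟩ : ℂ))⁻¹‖ ≤ Real.exp (C * Real.log ((k : ℝ) + 3) ^ 2) := by
    intro k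
    apply hgood
    have : (0 : ℝ) ≤ k := Nat.cast_nonneg k
    linarith
  choose U hUI hUz using hk
  have hU1 : ∀ k, 1 ≤ U k := by
    intro k
    have h1 : (0 : ℝ) ≤ k := Nat.cast_nonneg k
    have h2 := (hUI k).1
    linarith
  have hU0 : ∀ k, 0 ≤ U k := fun k => le_trans zero_le_one (hU1 k)
  have hZmem : ∀ k ρ, ρ ∈ (fin_NT (U k)).toFinset ↔ ρ ∈ NT ∧ |ρ.im| ≤ U k := by
    intro k ρ
    rw [Set.Finite.mem_toFinset]
    exact Iff.rfl
  refine ⟨2 * Real.exp 2 + (2 * Real.pi)⁻¹ * B₁, by positivity,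
    fun k => (fin_NT (U k)).toFinset, fun k ρ hρ => ((hZmem k ρ).mp hρ).1, ?_⟩
  intro c h hc1 hc2 hh hh1 hint
  refine ⟨2 * GG h 0 (2 * c) - ((2 * Real.pi : ℝ) : ℂ)⁻¹ * ∫ t : ℝ, PP h c (⟨-1 / 2, t⟩ : ℂ),
    ?_, ?_⟩
  · -- the bound
    have h1 : ‖GG h 0 (2 * (c : ℂ))‖ ≤ Real.exp 2 * 1 := by
      have h2 : 2 * (c : ℂ) = (⟨2 * c, 0⟩ : ℂ) := by apply Complex.ext <;> simp
      rw [h2]
      refine GG_right h _ _ _ hh hh1 (by nlinarith) ?_ ?_
      · have h3 := Complex.abs_re_le_norm (⟨2 * c, 0⟩ : ℂ)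
        have h4 : (⟨2 * c, 0⟩ : ℂ).re = 2 * c := rfl
        rw [h4, abs_of_nonneg (by linarith)] at h3
        linarith
      · have h3 : (⟨2 * c, 0⟩ : ℂ) = ((2 * c : ℝ) : ℂ) := by apply Complex.ext <;> simp
        rw [h3]
        exact zeta_real _ (by linarith)
    have h2 := (hline h c hh hh1 hc1 hc2).2
    refine (norm_sub_le _ _).trans (add_le_add ?_ ?_)
    · rw [norm_mul, Complex.norm_ofNat]
      linarith
    · rw [norm_mul, norm_inv, Complex.norm_real, Real.norm_of_nonneg (by positivity)]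
      exact mul_le_mul_of_nonneg_left h2 (by positivity)
  have hrect := fun k => rect hHS h c hc1 hc2 (U k) (hU1 k) (fun σ hσ t ht => (hUz k σ hσ t ht).1)
    (fin_NT (U k)).toFinset (hZmem k)
  have hUtop : Tendsto U atTop atTop := by
    apply tendsto_atTop_mono (fun k => (hUI k).1)
    exact tendsto_atTop_add_const_right atTop 3 tendsto_natCast_atTop_atTop
  have hUbot : Tendsto (fun k => -U k) atTop atBot := tendsto_neg_atTop_atBot.comp hUtop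
  -- horizontal integrals
  have hexp : Tendsto (fun k : ℕ => Real.exp (h ^ 2 / 2 * (9 / 4 - U k ^ 2) +
      2 * (C * Real.log ((k : ℝ) + 3) ^ 2)) * (Real.exp 2 * (1 + B)) * 2) atTop (𝓝 0) := by
    have h1 : Tendsto (fun k : ℕ => h ^ 2 / 2 * (9 / 4 - U k ^ 2) +
      2 * (C * Real.log ((k : ℝ) + 3) ^ 2)) atTop atBot := by
      have h2 := (lim_bot (h ^ 2 / 2 * (9 / 4)) (2 * C) (h ^ 2 / 2) (by positivity)
        (by positivity)).comp
        (tendsto_atTop_add_const_right atTop (3 : ℝ) tendsto_natCast_atTop_atTop)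
      refine tendsto_atBot_mono (fun k => ?_) h2
      have h3 : (0 : ℝ) ≤ k := Nat.cast_nonneg k
      have h4 : ((k : ℝ) + 3) ^ 2 ≤ U k ^ 2 := by
        have := (hUI k).1
        exact pow_le_pow_left₀ (by linarith) this 2
      have h5 := mul_le_mul_of_nonneg_left h4 (by positivity : (0 : ℝ) ≤ h ^ 2 / 2)
      change h ^ 2 / 2 * (9 / 4 - U k ^ 2) + 2 * (C * Real.log ((k : ℝ) + 3) ^ 2) ≤
        h ^ 2 / 2 * (9 / 4) + 2 * C * Real.log ((k : ℝ) + 3) ^ 2 - h ^ 2 / 2 * ((k : ℝ) + 3) ^ 2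
      linarith
    have h2 := ((Real.tendsto_exp_atBot.comp h1).mul_const (Real.exp 2 * (1 + B))).mul_const 2
    rw [zero_mul, zero_mul] at h2
    exact h2
  have hB1 : Tendsto (fun k => ∫ x in (-1 / 2 : ℝ)..c, PP h c (⟨x, -U k⟩ : ℂ)) atTop (𝓝 0) := by
    apply squeeze_zero_norm _ hexp
    intro k
    have ht : |-U k| = U k := by rw [abs_neg, abs_of_nonneg (hU0 k)]
    exact PP_hor_int h c (-U k) (U k) _ B hh hh1 hc1 hc2 ht (hU1 k) (by positivity) hB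
      (fun σ hσ t ht => (hUz k σ hσ t ht).2) hright
  have hB2 : Tendsto (fun k => ∫ x in (-1 / 2 : ℝ)..c, PP h c (⟨x, U k⟩ : ℂ)) atTop (𝓝 0) := by
    apply squeeze_zero_norm _ hexp
    intro k
    have ht : |U k| = U k := abs_of_nonneg (hU0 k)
    exact PP_hor_int h c (U k) (U k) _ B hh hh1 hc1 hc2 ht (hU1 k) (by positivity) hB
      (fun σ hσ t ht => (hUz k σ hσ t ht).2) hright
  have hR : Tendsto (fun k => ∫ y in (-U k)..(U k), PP h c (⟨c, y⟩ : ℂ)) atTop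
      (𝓝 (∫ t : ℝ, PP h c (⟨c, t⟩ : ℂ))) :=
    intervalIntegral_tendsto_integral hint hUbot hUtop
  have hL : Tendsto (fun k => ∫ y in (-U k)..(U k), PP h c (⟨-1 / 2, y⟩ : ℂ)) atTop
      (𝓝 (∫ t : ℝ, PP h c (⟨-1 / 2, t⟩ : ℂ))) :=
    intervalIntegral_tendsto_integral (hline h c hh hh1 hc1 hc2).1 hUbot hUtop
  have hlim := ((hB1.sub hB2).const_mul ((2 * Real.pi * Complex.I)⁻¹)).const_add
    (2 * GG h 0 (2 * (c : ℂ))) |>.add ((hR.sub hL).const_mul (((2 * Real.pi : ℝ) : ℂ)⁻¹))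
  have hfin : 2 * GG h 0 (2 * (c : ℂ)) + (2 * Real.pi * Complex.I)⁻¹ * (0 - 0) +
      ((2 * Real.pi : ℝ) : ℂ)⁻¹ *
        ((∫ t : ℝ, PP h c (⟨c, t⟩ : ℂ)) - ∫ t : ℝ, PP h c (⟨-1 / 2, t⟩ : ℂ)) =
      ((2 * Real.pi : ℝ) : ℂ)⁻¹ * (∫ t : ℝ, PP h c (⟨c, t⟩ : ℂ)) + (2 * GG h 0 (2 * (c : ℂ)) -
        ((2 * Real.pi : ℝ) : ℂ)⁻¹ * ∫ t : ℝ, PP h c (⟨-1 / 2, t⟩ : ℂ)) := by
    ring
  rw [hfin] at hlim
  refine hlim.congr (fun k => ?_)
  exact (hrect k).symm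

end Pool.Agent.H313.ZC.Shift

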