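import Mathlib
import Pool.Agent.H313.ZC.Stm

set_option autoImplicit false

/-!
# Project ZC: the termwise bound (helper376 for helper313)
-/

namespace Pool.Agent.H313.ZC.Term

open MeasureTheory Filter Topology Set Complex
open Pool.Agent.W120.WM (Mx gk Sm EE GG NT)
open Pool.Agent.H313.ZC

lemma X_diff : Differentiable ℂ X := by
  unfold X
  have h : Differentiable ℂ (fun z : ℂ => completedRiemannZeta₀ (1 / 2 + z)) :=
    differentiable_completedZeta₀.comp (by fun_prop)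
  fun_prop

lemma X_even (z : ℂ) : X (-z) = X z := by
  unfold X
  have h : completedRiemannZeta₀ (1 / 2 + -z) = completedRiemannZeta₀ (1 / 2 + z) := by
    rw [← completedRiemannZeta₀_one_sub]
    congr 1
    ring
  rw [h]
  ring

lemma X_half : X (1 / 2) = 1 := by
  unfold X
  simp

lemma X_neg_half : X (-(1 / 2)) = 1 := by
  rw [X_even, X_half]

/-- `X` in terms of `ζ` -/
lemma X_zeta {s : ℂ} (h0 : s ≠ 0) (h1 : s ≠ 1) :
    (Gammaℝ s)⁻¹ * X (s - 1 / 2) = s * (s - 1) * riemannZeta s := by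
  have h2 : X (s - 1 / 2) = s * (s - 1) * completedRiemannZeta s := by
    unfold X
    rw [completedRiemannZeta_eq]
    have e1 : (1 / 2 + (s - 1 / 2) : ℂ) = s := by ring
    rw [e1]
    have h3 : (1 - s : ℂ) ≠ 0 := sub_ne_zero.mpr (Ne.symm h1)
    field_simp
    ring
  rw [h2, riemannZeta_def_of_ne_zero h0]
  ring

lemma X_zeta' {s : ℂ} (hs : 0 < s.re) (h1 : s ≠ 1) :
    X (s - 1 / 2) = s * (s - 1) * Gammaℝ s * riemannZeta s := by
  have h0 : s ≠ 0 := by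
    rintro rfl
    simp at hs
  have hG := Gammaℝ_ne_zero_of_re_pos hs
  have h := X_zeta h0 h1
  have h2 : X (s - 1 / 2) = Gammaℝ s * ((Gammaℝ s)⁻¹ * X (s - 1 / 2)) := by
    rw [mul_inv_cancel_left₀ hG]
  rw [h2, h]
  ring

/-- the zeros of `X` are purely imaginary under RH -/
lemma X_zero_re (hRH : RHz) (z : ℂ) (hz : X z = 0) : z.re = 0 := by
  have key : ∀ z : ℂ, X z = 0 → 0 ≤ z.re → z.re = 0 := by
    intro z hz hre
    have hs : 0 < (z + 1 / 2).re := by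
      have : (z + 1 / 2).re = z.re + 1 / 2 := by simp
      rw [this]
      linarith
    have h1 : z + 1 / 2 ≠ 1 := by
      intro h
      have h2 : z = 1 / 2 := by
        calc z = (z + 1 / 2) - 1 / 2 := by ring
          _ = 1 / 2 := by rw [h]; norm_num
      rw [h2, X_half] at hz
      exact one_ne_zero hz
    have h0 : z + 1 / 2 ≠ 0 := by
      intro h
      rw [h] at hs
      simp at hs
    have h2 := X_zeta' hs h1
    have e1 : z + 1 / 2 - 1 / 2 = z := by ring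
    rw [e1, hz] at h2
    have h3 : riemannZeta (z + 1 / 2) = 0 := by
      have h4 := h2.symm
      rcases mul_eq_zero.mp h4 with h5 | h5
      · rcases mul_eq_zero.mp h5 with h6 | h6
        · rcases mul_eq_zero.mp h6 with h7 | h7
          · exact absurd h7 h0
          · exact absurd (sub_eq_zero.mp h7) h1
        · exact absurd h6 (Gammaℝ_ne_zero_of_re_pos hs)
      · exact h5
    have h4 : (z + 1 / 2).re < 1 := by
      by_contra h
      push Not at h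
      exact riemannZeta_ne_zero_of_one_le_re h h3
    have h5 := hRH (z + 1 / 2) ⟨h3, hs, h4⟩
    have h6 : (z + 1 / 2).re = z.re + 1 / 2 := by simp
    rw [h6] at h5
    linarith
  rcases le_total 0 z.re with h | h
  · exact key z hz h
  · have h1 : X (-z) = 0 := by rw [X_even]; exact hz
    have h2 := key (-z) h1 (by rw [Complex.neg_re]; linarith)
    rw [Complex.neg_re] at h2
    linarith

/-- the derivative of `X` at a zero -/
lemma X_deriv {ρ : ℂ} (h0 : ρ ≠ 0) (h1 : ρ ≠ 1) (hz : riemannZeta ρ = 0) (hX : X (ρ - 1 / 2) = 0) :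
    (Gammaℝ ρ)⁻¹ * deriv X (ρ - 1 / 2) = ρ * (ρ - 1) * deriv riemannZeta ρ := by
  have hA : HasDerivAt (fun s : ℂ => (Gammaℝ s)⁻¹ * X (s - 1 / 2))
      (deriv (fun s => (Gammaℝ s)⁻¹) ρ * X (ρ - 1 / 2) + (Gammaℝ ρ)⁻¹ * deriv X (ρ - 1 / 2)) ρ := by
    have hG : HasDerivAt (fun s => (Gammaℝ s)⁻¹) (deriv (fun s => (Gammaℝ s)⁻¹) ρ) ρ :=
      (differentiable_Gammaℝ_inv ρ).hasDerivAt
    have hX : HasDerivAt (fun s : ℂ => X (s - 1 / 2)) (deriv X (ρ - 1 / 2)) ρ :=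
      HasDerivAt.comp_sub_const ρ (1 / 2) (X_diff (ρ - 1 / 2)).hasDerivAt
    exact hG.mul hX
  have hB : HasDerivAt (fun s : ℂ => s * (s - 1) * riemannZeta s)
      ((1 * (ρ - 1) + ρ * 1) * riemannZeta ρ + ρ * (ρ - 1) * deriv riemannZeta ρ) ρ := by
    have hZ := (differentiableAt_riemannZeta h1).hasDerivAt
    exact ((hasDerivAt_id ρ).mul ((hasDerivAt_id ρ).sub_const 1)).mul hZ
  have hE : (fun s : ℂ => (Gammaℝ s)⁻¹ * X (s - 1 / 2)) =ᶠ[𝓝 ρ]
      (fun s : ℂ => s * (s - 1) * riemannZeta s) := by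
    filter_upwards [isOpen_ne.mem_nhds h0, isOpen_ne.mem_nhds h1] with s hs0 hs1
    exact X_zeta hs0 hs1
  have h := (hE.hasDerivAt_iff.mp hA).unique hB
  rw [hX, hz] at h
  simpa using h

/-- JOB TERM -/
theorem t_term (h1 : S_GROW) (h2 : S_HAD) (h3 : S_GAM) : S_TERM := by
  intro hRH
  obtain ⟨C, hC⟩ := h1
  obtain ⟨G, hG0, hG⟩ := h3
  have hH := h2 X C X_diff hC X_even (X_zero_re hRH)
  set C₂ : ℝ := ‖deriv riemannZeta (1 / 2)‖ / ((1 / 2 : ℝ) ^ ((1 / 2 : ℝ) / 2) * ‖riemannZeta 1‖) with hC₂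
  refine ⟨max (4 * G) C₂, lt_max_of_lt_left (by linarith), ?_⟩
  intro ρ hρ τ hτ0 hτ
  have hre := hRH ρ hρ
  have hρ0 : ρ ≠ 0 := by
    rintro rfl
    simp at hre
  have hρ1 : ρ ≠ 1 := by
    rintro rfl
    norm_num at hre
  by_cases hone : ρ + τ = 1
  · -- the (impossible) exceptional case
    have hre1 : ρ.re + τ = 1 := by
      have := congrArg Complex.re hone
      simpa using this
    have him1 : ρ.im = 0 := by
      have := congrArg Complex.im hone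
      simpa using this
    have hτe : τ = 1 / 2 := by linarith
    have hρe : ρ = 1 / 2 := by
      apply Complex.ext
      · rw [hre]
        simp
      · rw [him1]
        simp
    have hZ1 : riemannZeta 1 ≠ 0 := riemannZeta_ne_zero_of_one_le_re (by simp)
    have hZ1' : 0 < ‖riemannZeta 1‖ := norm_pos_iff.mpr hZ1
    have hp : 0 < (1 / 2 : ℝ) ^ ((1 / 2 : ℝ) / 2) := by positivity
    rw [hone, hρe, hτe]
    have hn : ‖(1 / 2 : ℂ)‖ = 1 / 2 := by norm_num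
    rw [hn]
    have hb : C₂ * (1 / 2 : ℝ) ^ ((1 / 2 : ℝ) / 2) * ‖riemannZeta 1‖ = ‖deriv riemannZeta (1 / 2)‖ := by
      rw [hC₂]
      field_simp
    have hc : C₂ * (1 / 2 : ℝ) ^ ((1 / 2 : ℝ) / 2) * ‖riemannZeta 1‖ ≤
        max (4 * G) C₂ * (1 / 2 : ℝ) ^ ((1 / 2 : ℝ) / 2) * ‖riemannZeta 1‖ := by
      have := le_max_right (4 * G) C₂
      gcongr
    have hd := norm_nonneg (deriv riemannZeta (1 / 2))
    linarith
  · -- the main case
    set γ : ℝ := ρ.im with hγ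
    have hργ : ρ - 1 / 2 = γ * Complex.I := by
      apply Complex.ext
      · simp [hre]
      · simp [hγ]
    have hρτ : (ρ + τ) - 1 / 2 = γ * Complex.I + τ := by
      rw [← hργ]
      ring
    have hre2 : (ρ + τ).re = 1 / 2 + τ := by
      rw [Complex.add_re, hre, Complex.ofReal_re]
    have hpos : 0 < (ρ + τ).re := by
      rw [hre2]
      linarith
    have hposρ : 0 < ρ.re := by
      rw [hre]
      norm_num
    have hXρ : X (ρ - 1 / 2) = 0 := by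
      rw [X_zeta' hposρ hρ1, hρ.1, mul_zero]
    have hXρ' : X (γ * Complex.I) = 0 := by
      rw [← hργ]
      exact hXρ
    have hmain := hH γ τ hτ0.le hXρ'
    rw [← hρτ, ← hργ, X_zeta' hpos hone] at hmain
    have hder := X_deriv hρ0 hρ1 hρ.1 hXρ
    have hGρ : Gammaℝ ρ ≠ 0 := Gammaℝ_ne_zero_of_re_pos hposρ
    have hder2 : deriv X (ρ - 1 / 2) = Gammaℝ ρ * (ρ * (ρ - 1) * deriv riemannZeta ρ) := by
      rw [← hder, mul_inv_cancel_left₀ hGρ]
    rw [hder2] at hmain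
    simp only [norm_mul] at hmain
    have hGam := hG γ τ hτ0.le hτ
    have e1 : (⟨1 / 2 + τ, γ⟩ : ℂ) = ρ + τ := by
      apply Complex.ext
      · rw [hre2]
      · simp [hγ]
    have e2 : (⟨1 / 2, γ⟩ : ℂ) = ρ := by
      apply Complex.ext
      · rw [hre]
      · rw [hγ]
    rw [e1, e2] at hGam
    -- sizes
    have hn1 : 1 / 2 ≤ ‖ρ‖ := by
      have := Complex.re_le_norm ρ
      rw [hre] at this
      exact this
    have hn2 : 1 / 2 ≤ ‖ρ - 1‖ := by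
      have h := Complex.abs_re_le_norm (ρ - 1)
      have h' : (ρ - 1).re = -(1 / 2) := by
        rw [Complex.sub_re, hre, Complex.one_re]
        norm_num
      rw [h', abs_neg, abs_of_pos (by norm_num)] at h
      exact h
    have hτn : ‖(τ : ℂ)‖ = τ := by
      rw [Complex.norm_real, Real.norm_eq_abs, abs_of_pos hτ0]
    have hn3 : ‖ρ + τ‖ ≤ 2 * ‖ρ‖ := by
      have := norm_add_le ρ (τ : ℂ)
      rw [hτn] at this
      linarith
    have hn4 : ‖ρ + τ - 1‖ ≤ 2 * ‖ρ - 1‖ := by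
      have h := norm_add_le (ρ - 1) (τ : ℂ)
      rw [hτn] at h
      have h' : ρ - 1 + (τ : ℂ) = ρ + τ - 1 := by ring
      rw [h'] at h
      linarith
    have hGn : 0 < ‖Gammaℝ ρ‖ := norm_pos_iff.mpr hGρ
    have hζn := norm_nonneg (riemannZeta (ρ + τ))
    have hpw : 0 ≤ ‖ρ‖ ^ (τ / 2) := by positivity
    have hbound : ‖ρ + τ‖ * ‖ρ + τ - 1‖ * ‖Gammaℝ (ρ + τ)‖ * ‖riemannZeta (ρ + τ)‖ ≤
        (2 * ‖ρ‖) * (2 * ‖ρ - 1‖) * (G * ‖ρ‖ ^ (τ / 2) * ‖Gammaℝ ρ‖) * ‖riemannZeta (ρ + τ)‖ := by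
      gcongr
    have hkey : (‖Gammaℝ ρ‖ * (‖ρ‖ * ‖ρ - 1‖)) * (τ * ‖deriv riemannZeta ρ‖) ≤
        (‖Gammaℝ ρ‖ * (‖ρ‖ * ‖ρ - 1‖)) * (4 * G * ‖ρ‖ ^ (τ / 2) * ‖riemannZeta (ρ + τ)‖) := by
      calc (‖Gammaℝ ρ‖ * (‖ρ‖ * ‖ρ - 1‖)) * (τ * ‖deriv riemannZeta ρ‖)
          = τ * (‖Gammaℝ ρ‖ * (‖ρ‖ * ‖ρ - 1‖ * ‖deriv riemannZeta ρ‖)) := by ring
        _ ≤ ‖ρ + τ‖ * ‖ρ + τ - 1‖ * ‖Gammaℝ (ρ + τ)‖ * ‖riemannZeta (ρ + τ)‖ := hmain
        _ ≤ (2 * ‖ρ‖) * (2 * ‖ρ - 1‖) * (G * ‖ρ‖ ^ (τ / 2) * ‖Gammaℝ ρ‖) *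
            ‖riemannZeta (ρ + τ)‖ := hbound
        _ = (‖Gammaℝ ρ‖ * (‖ρ‖ * ‖ρ - 1‖)) * (4 * G * ‖ρ‖ ^ (τ / 2) * ‖riemannZeta (ρ + τ)‖) := by
            ring
    have hfac : 0 < ‖Gammaℝ ρ‖ * (‖ρ‖ * ‖ρ - 1‖) := by
      have : 0 < ‖ρ‖ := by linarith
      have : 0 < ‖ρ - 1‖ := by linarith
      positivity
    have hfin := le_of_mul_le_mul_left hkey hfac
    refine le_trans hfin ?_
    have := le_max_left (4 * G) C₂
    gcongr

end Pool.Agent.H313.ZC.Term
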