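import Pool.Agent.H313.ZC.Up3
import Pool.Agent.H313.ZC.Msq
import Pool.Agent.H313.ZC.Shift
import Pool.Agent.H313.ZC.Had
import Pool.Agent.H313.ZC.Lap
import Pool.Agent.H313.ZC.Grow
import Pool.Agent.H313.ZC.Gam
import Pool.Agent.H313.ZC.Term
import Pool.Agent.H313.ZC.Conj
import Pool.Graph.R_seed8.W143.WM.Uns
import Pool.Graph.R_seed8.W120.WM.Taub
import Pool.Graph.R_seed8.H295R2.WM8

set_option autoImplicit false

/-! # The limit of `(log x)^(-1) ∫_1^x (M(u)/u)² du` -/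

namespace Pool.Agent.H313.ZC

open MeasureTheory Filter Topology Set
open Pool.Agent.W120.WM (Mx gk Sm EE GG NT T_UNS)
open Pool.Agent.H295R2 (II JJ ww)

lemma JJ_eq (V : ℝ) : JJ V = ∫ v in Ioc 0 V, FF v := rfl

lemma aa_eq (ρ : ℂ) : aa ρ = ‖ww ρ‖ ^ 2 := by
  unfold aa ww
  rw [norm_div, norm_one, div_pow, one_pow]

/-- the Laplace means, all pieces put together -/
theorem up_final (hHS : HS) (hsum : Summable (fun ρ : NT => aa ρ)) {ε : ℝ} (hε : 0 < ε) :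
    ∀ᶠ V : ℝ in atTop, ∫⁻ v in Ioi (0 : ℝ), ENNReal.ofReal (FF v * Real.exp (-(v / V))) ≤
      ENNReal.ofReal ((∑' ρ : NT, aa ρ + ε) * V) :=
  up Pool.Agent.W143.WM.main (Msq.t_msq Lap.t_lap) Shift.t_shift (Term.t_term Grow.t_grow Had.t_had Gam.t_gam)
    Conj.t_conj hHS hsum hε

theorem JJ_bound (hHS : HS) (hsum : Summable (fun ρ : NT => aa ρ)) :
    ∃ A : ℝ, 0 < A ∧ ∀ᶠ V : ℝ in atTop, JJ V ≤ A * V := by
  obtain ⟨A, hA, h⟩ := JV_bound Pool.Agent.W143.WM.main (Msq.t_msq Lap.t_lap) Shift.t_shift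
    (Term.t_term Grow.t_grow Had.t_had Gam.t_gam) Conj.t_conj hHS hsum
  refine ⟨A, hA, ?_⟩
  filter_upwards [h, eventually_gt_atTop (0 : ℝ)] with V hV hV0
  rw [← ofReal_integral_eq_lintegral_ofReal (FF_loc V) (Eventually.of_forall fun v => FF_nonneg v)] at hV
  rw [JJ_eq]
  exact (ENNReal.ofReal_le_ofReal_iff (by positivity)).1 hV

theorem low_fin (Z : Finset ℂ) (hZ : ∀ ρ ∈ Z, ρ.re = 1 / 2 ∧ riemannZeta ρ = 0 ∧ deriv riemannZeta ρ ≠ 0)
    {A : ℝ} (hA : ∀ᶠ V : ℝ in atTop, JJ V ≤ A * V) {ε : ℝ} (hε : 0 < ε) :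
    ∀ᶠ V : ℝ in atTop, (∑ ρ ∈ Z, ‖ww ρ‖ ^ 2 - ε) * V ≤ JJ V := by
  obtain ⟨K, hK, hb⟩ := Pool.Agent.H295R2.bessel_fin Z hZ
  have hlim := (Pool.Agent.H295R2.sqrt_lim K A).eventually (gt_mem_nhds hε)
  filter_upwards [hA, hlim, eventually_gt_atTop (0 : ℝ)] with V h1 h2 h3
  have h4 := hb V h3.le
  rw [div_lt_iff₀ h3] at h2
  have h5 : Real.sqrt (JJ V) ≤ Real.sqrt (|A| * V) := by
    apply Real.sqrt_le_sqrt
    exact h1.trans (by have := le_abs_self A; nlinarith)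
  nlinarith

/-- **the limit under RH, simplicity and convergence** -/
theorem lim_JJ (hHS : HS) (hsum : Summable (fun ρ : NT => aa ρ)) :
    Tendsto (fun V : ℝ => JJ V / V) atTop (𝓝 (∑' ρ : NT, aa ρ)) := by
  obtain ⟨A, hA, hAb⟩ := JJ_bound hHS hsum
  refine Pool.Agent.W553.WM.taub FF FF_nonneg FF_meas FF_loc _ (tsum_nonneg fun ρ => aa_nonneg ρ) ?_
    (fun ε hε => up_final hHS hsum hε)
  intro ε hε
  have h1 : ∀ᶠ s : Finset NT in atTop, (∑' ρ : NT, aa ρ) - ε / 2 < ∑ ρ ∈ s, aa ρ :=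
    hsum.hasSum.eventually (lt_mem_nhds (by linarith))
  obtain ⟨s, hs⟩ := h1.exists
  have h2 := low_fin (s.map ⟨Subtype.val, Subtype.val_injective⟩) (by
    intro ρ hρ
    rw [Finset.mem_map] at hρ
    obtain ⟨⟨z, hz⟩, _, rfl⟩ := hρ
    exact ⟨(hHS z hz).1, hz.1, (hHS z hz).2⟩) hAb (half_pos hε)
  filter_upwards [h2, eventually_gt_atTop (0 : ℝ)] with V h3 h4
  rw [Finset.sum_map] at h3
  simp only [Function.Embedding.coeFn_mk] at h3
  have h5 : ∑ ρ ∈ s, ‖ww (ρ : ℂ)‖ ^ 2 = ∑ ρ ∈ s, aa (ρ : ℂ) := Finset.sum_congr rfl fun ρ _ => (aa_eq _).symm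
  rw [h5, JJ_eq] at h3
  nlinarith

/-- the limit for the integral of the problem -/
theorem lim_II (hHS : HS) (hsum : Summable (fun ρ : NT => aa ρ)) :
    Tendsto (fun x : ℝ => II x / Real.log x) atTop (𝓝 (∑' ρ : NT, aa ρ)) := by
  have h1 := (lim_JJ hHS hsum).comp Real.tendsto_log_atTop
  refine h1.congr' ?_
  filter_upwards [eventually_ge_atTop (1 : ℝ)] with x hx
  simp only [Function.comp]
  rw [Pool.Agent.H295R2.II_eq hx]

/-- a bound at arbitrarily large `x` gives everything -/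
theorem conv {C : ℝ} (h : ∃ᶠ x in atTop, II x ≤ C * Real.log x) :
    HS ∧ Summable (fun ρ : NT => aa ρ) ∧ ∑' ρ : NT, aa ρ ≤ C := by
  have h1 : ∃ᶠ x in atTop, Pool.Agent.H295R2.IW 1 x ≤ C * Real.log x := by
    refine h.mono fun x hx => ?_
    have : Pool.Agent.H295R2.IW 1 x = II x := by
      unfold Pool.Agent.H295R2.IW Pool.Agent.H295R2.II
      norm_num
    rw [this]; exact hx
  obtain ⟨h2, h3⟩ := Pool.Agent.H295R2.weak_mertens_windows one_pos le_rfl h1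
  have h4 : ∀ s : Finset NT, ∑ ρ ∈ s, aa (ρ : ℂ) ≤ C := by
    intro s
    have h5 := h3 (s.map ⟨Subtype.val, Subtype.val_injective⟩) (by
      intro ρ hρ
      rw [Finset.mem_map] at hρ
      obtain ⟨⟨z, hz⟩, _, rfl⟩ := hρ
      exact hz)
    rw [Finset.sum_map] at h5
    simp only [Function.Embedding.coeFn_mk, div_one] at h5
    exact h5
  have h6 : Summable (fun ρ : NT => aa ρ) := summable_of_sum_le (fun ρ => aa_nonneg ρ) h4
  exact ⟨fun ρ hρ => h2 ρ hρ, h6, h6.tsum_le_of_sum_le h4⟩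

/-- the failure case -/
theorem lim_top (h : ¬ (HS ∧ Summable (fun ρ : NT => aa ρ))) :
    Tendsto (fun x : ℝ => II x / Real.log x) atTop atTop := by
  rw [tendsto_atTop]
  intro C
  by_contra hcon
  rw [not_eventually] at hcon
  apply h
  have h1 : ∃ᶠ x in atTop, II x ≤ C * Real.log x := by
    refine (hcon.and_eventually (eventually_gt_atTop (1 : ℝ))).mono fun x hx => ?_
    have h2 := Real.log_pos hx.2
    have h3 := hx.1
    push Not at h3
    rw [div_lt_iff₀ h2] at h3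
    exact h3.le
  obtain ⟨h4, h5, _⟩ := conv h1
  exact ⟨h4, h5⟩

end Pool.Agent.H313.ZC
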