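import Pool.Agent.H313.ZC.Stm
import Pool.Graph.R_pool_sql_team_seeded_3997aac3.Q299.FA.W3A

set_option autoImplicit false

/-!
# Project ZC, second part (helper313): Franel's integral and the weak Mertens hypothesis; the short interval pieces

The project FA (part 4) of an earlier run (`Pool.Graph.R_pool_sql_team_seeded_3997aac3.Q120.FA.Stm4`) lacks only the pieces `J_W2` (done by
helper313) and `J_W3` (below).
-/

namespace Pool.Agent.H313.ZC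

open MeasureTheory Filter Topology Set
open Pool.Agent.W120.WM (Mx NT)
open Pool.Agent.Q299.FA.WO (D)

/-- JOB INC. Mean square of the increments of `M(e^v)` under RH.
Proof. Fix `σ` with `1/2 < σ < c`. Let `k(v) = M(e^v)` (complex valued), `Nice k C σ 0` (`Pool.Agent.H313.ZC.Lap.nice`, module
`Pool.Agent.H313.ZC.Lap`, store file helper313_ZC_Lap.lean, or `Pool.Agent.H295R2.mertens_bound`). `G(v) = k(v+h) - k(v)` is `Nice` with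
`u₀ = -1` (`0 < h ≤ 1`), and `Lap G s = (e^(hs) - 1) Lap k s = (e^(hs) - 1)/(s ζ(s))` for `Re s = c`, `s ≠ 1` (`S_LAP`, theorem
`Pool.Agent.H313.ZC.Lap.t_lap`; `Lap k s = ∫ k(u) e^(-su) du`, translate the integral). By Plancherel (`plancherel_Lap` in
`Pool.Graph.R_seed8.H295R2.Avg`) `∫ |G|² e^(-2cv) dv = ∫ |Lap G (c + 2πiξ)|² dξ`. Littlewood's bound
`|1/ζ(s)| ≤ C (1+|Im s|)^ε'` (`Pool.Agent.H295R2.fz_bound` in `Pool.Graph.R_seed8.H295R2.L`, `θ = 1/2`, for `c ≤ 2`; look at the definition of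
`fz`) and `|e^(hs) - 1| ≤ min (C h |s|) C` `≤ C (h |s|)^(β)` for `0 ≤ β ≤ 1`; take `β = (1-ε)/2` and `ε' = ε/8`: the integrand is
`≤ C h^(1-ε) |s|^(1-ε) |s|^(-2) (1+|t|)^(ε/4)`, integrable. (`|s| ≥ c ≥ 1/2`, so `|s|` and `1+|t|` are comparable.) -/
def S_INC : Prop := RHz → ∀ c ε : ℝ, 1 / 2 < c → c < 1 → 0 < ε → ε < 1 → ∃ C : ℝ, 0 < C ∧ ∀ h : ℝ, 0 < h → h ≤ 1 →
  ∫⁻ v : ℝ, ENNReal.ofReal ((Mx (Real.exp (v + h)) - Mx (Real.exp v)) ^ 2 * Real.exp (-(2 * c * v))) ≤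
    ENNReal.ofReal (C * h ^ (1 - ε))

/-- JOB MAX (uses `S_INC` as a hypothesis). The oscillation of `M` on `[u - u^θ, u + u^θ]` is square integrable against `du/u²`
(`D θ u`, the maximum of `|M(n) - M(n')|` over the integers `n, n' ∈ [⌊u - u^θ⌋, ⌊u + u^θ⌋]`, and lemmas on it are in the library module
`Pool.Graph.R_pool_sql_team_seeded_3997aac3.Q299.FA.W3A`: `D_meas`, `D_att`, `D_nonneg`; `Mr = Mx`).
Proof. In the variable `v = log u`: `∫_1^∞ (D(u)/u)² du = ∫_0^∞ D(e^v)² e^(-v) dv`. Put the half line into the intervals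
`[a, a+1]`, `a = 0, 1, 2, ...` (bounded `a` trivially: `D θ u ≤ 2u + 2`, all integrals over bounded sets are finite). For `v ∈ [a, a+1]`, `u = e^v`,
`y ∈ [u - u^θ, u + u^θ]` one has `|log y - v| ≤ K`, `K = 4 e^((θ-1) a)` (a large, so that `u^(θ-1) ≤ 1/2`), so
`D θ u ≤ 2 max_{|w| ≤ K} |g(v+w) - g(v)|`, `g(w) = M(e^w)`, `≤ 4 max_{0 ≤ w ≤ 2K} |g(v - K + w) - g(v - K)|`. CHAINING: let `J` be such that
`2K/2^J ≤ e^(-a-3)` (`2^J ≤ 64 e^(θ a)`-like, so `J ≤ C (a+1)`). For `0 ≤ w ≤ 2K`: `w = (2K) (∑_{j=1}^J b_j 2^(-j)) + r`, `b_j ∈ {0,1}`, `0 ≤ r ≤ 2K/2^J`,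
(or: the dyadic floor `w_j = (2K/2^j) ⌊w 2^j/(2K)⌋` has `w_{j+1} - w_j ∈ {0, 2K/2^(j+1)}`), hence
`|g(x + w) - g(x)| ≤ 1 + ∑_{j=1}^J max_{0 ≤ i < 2^j} |g(x + (i+1) h_j) - g(x + i h_j)|`, `h_j = 2K/2^j` (the `1`: in `[e^(x+w_J), e^(x+w)]` there is at
most one integer, `|μ| ≤ 1`). So the square is `≤ 2 + 2 J ∑_j ∑_{i<2^j} |g(x+(i+1)h_j) - g(x+i h_j)|²`; with `S_INC` for `c = 1/2 + η`, `ε = η`:
`∫_a^(a+1) |g(v-K+(i+1)h_j) - g(v-K+ih_j)|² dv ≤ e^(2c(a+3)) C h_j^(1-η)`. Sum: `∑_j 2^j h_j^(1-η) ≤ (2K)^(1-η) ∑_j 2^(jη) ≤ C K^(1-η) J 2^(Jη)`, so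
`∫_a^(a+1) D(e^v)² e^(-v) dv ≤ C e^(-a) (1 + (a+1)² e^(2ca) e^((θ-1)(1-η)a) e^(θηa)) = C (e^(-a) + (a+1)² e^((2η + (θ-1)(1-η) + θη) a))`, which is
summable over `a` if `η > 0` is small (`θ < 1`). -/
def S_MAX : Prop := RHz → ∀ θ : ℝ, 0 ≤ θ → θ < 1 → IntegrableOn (fun u => (D θ u / u) ^ 2) (Ioi 1)

end Pool.Agent.H313.ZC
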