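import Pool.Agent.H313.ZC.Stm

set_option autoImplicit false

/-! # The terms of the residue sum: bound and limit -/

namespace Pool.Agent.H313.ZC

open MeasureTheory Filter Topology Set
open Pool.Agent.W120.WM (Mx gk Sm EE GG NT)

/-- the term of the zero `ρ`, at the point `1 + τ` -/
noncomputable def Tm (h τ : ℝ) (ρ : ℂ) : ℂ :=
  EE h 0 ρ * GG h 0 ((1 + τ : ℝ) - ρ) / (ρ * deriv riemannZeta ρ)

/-- `1/|ρ ζ'(ρ)|²` -/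
noncomputable def aa (ρ : ℂ) : ℝ := 1 / ‖ρ * deriv riemannZeta ρ‖ ^ 2

lemma norm_EE0 (h : ℝ) (s : ℂ) : ‖EE h 0 s‖ = Real.exp (h ^ 2 / 2 * (s.re ^ 2 - s.im ^ 2)) := by
  unfold EE
  rw [Complex.norm_exp]
  congr 1
  have e1 : ((h : ℂ) ^ 2 / 2 * s ^ 2 + ((0 : ℝ) : ℂ) * s) = ((h ^ 2 / 2 : ℝ) : ℂ) * s ^ 2 := by
    push_cast; ring
  rw [e1, Complex.re_ofReal_mul, sq s, Complex.mul_re]
  ring

lemma refl {ρ : ℂ} (hρ : ρ.re = 1 / 2) (τ : ℝ) :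
    ((1 + τ : ℝ) : ℂ) - ρ = (starRingEnd ℂ) (ρ + (τ : ℂ)) := by
  apply Complex.ext
  · simp [hρ]; ring
  · simp

lemma norm_w (hc : S_CONJ) {ρ : ℂ} (hρ : ρ.re = 1 / 2) (τ : ℝ) :
    ‖((1 + τ : ℝ) : ℂ) - ρ‖ = ‖ρ + (τ : ℂ)‖ ∧
    ‖riemannZeta (((1 + τ : ℝ) : ℂ) - ρ)‖ = ‖riemannZeta (ρ + (τ : ℂ))‖ := by
  rw [refl hρ, hc.1, Complex.norm_conj, Complex.norm_conj]
  exact ⟨rfl, rfl⟩

lemma norm_ge {ρ : ℂ} (hρ : ρ.re = 1 / 2) {τ : ℝ} (hτ : 0 ≤ τ) : ‖ρ‖ ≤ ‖ρ + (τ : ℂ)‖ := by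
  have h1 : ‖ρ‖ ^ 2 ≤ ‖ρ + (τ : ℂ)‖ ^ 2 := by
    rw [← Complex.normSq_eq_norm_sq, ← Complex.normSq_eq_norm_sq, Complex.normSq_apply,
      Complex.normSq_apply]
    simp only [Complex.add_re, Complex.ofReal_re, Complex.add_im, Complex.ofReal_im, add_zero, hρ]
    nlinarith
  exact (pow_le_pow_iff_left₀ (norm_nonneg _) (norm_nonneg _) (by norm_num)).1 h1

lemma norm_Tm (hc : S_CONJ) {ρ : ℂ} (hρ : ρ.re = 1 / 2) (h τ : ℝ) :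
    ‖Tm h τ ρ‖ = Real.exp (h ^ 2 / 2 * (1 / 4 - ρ.im ^ 2)) *
      (Real.exp (h ^ 2 / 2 * ((1 / 2 + τ) ^ 2 - ρ.im ^ 2)) /
        (‖ρ + (τ : ℂ)‖ * ‖riemannZeta (ρ + (τ : ℂ))‖)) / (‖ρ‖ * ‖deriv riemannZeta ρ‖) := by
  unfold Tm GG
  rw [norm_div, norm_mul, norm_div, norm_mul, norm_mul, (norm_w hc hρ τ).1, (norm_w hc hρ τ).2,
    norm_EE0, norm_EE0, hρ]
  have e1 : (((1 + τ : ℝ) : ℂ) - ρ).re = 1 / 2 + τ := by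
    simp [hρ]; ring
  have e2 : (((1 + τ : ℝ) : ℂ) - ρ).im = -ρ.im := by simp
  rw [e1, e2]
  congr 2
  · congr 1
    norm_num
  · congr 2
    ring

lemma rho_pow {ρ : ℂ} (hρ : ρ.re = 1 / 2) {h τ : ℝ} (hh : 0 < h) (hh1 : h ≤ 1) (hτ : 0 < τ) (hτ1 : τ ≤ 1 / 2) :
    ‖ρ‖ ^ (τ / 2) * Real.exp (-(h ^ 2 * ρ.im ^ 2)) ≤ 2 * h ^ (-(τ / 2)) := by
  have hρ0 : 0 ≤ ‖ρ‖ := norm_nonneg _
  have h1 : ‖ρ‖ ≤ 1 / 2 + |ρ.im| := by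
    have := Complex.norm_le_abs_re_add_abs_im ρ
    rw [hρ] at this
    have h2 : |(1 / 2 : ℝ)| = 1 / 2 := abs_of_pos (by norm_num)
    linarith
  have h2 : ‖ρ‖ ^ (τ / 2) = h ^ (-(τ / 2)) * (h * ‖ρ‖) ^ (τ / 2) := by
    rw [Real.mul_rpow hh.le hρ0, ← mul_assoc, ← Real.rpow_add hh, neg_add_cancel, Real.rpow_zero, one_mul]
  have h3 : (h * ‖ρ‖) ^ (τ / 2) ≤ 3 / 2 + h * |ρ.im| := by
    have h4 : h * ‖ρ‖ ≤ 1 / 2 + h * |ρ.im| := by nlinarith [abs_nonneg ρ.im]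
    rcases le_total (h * ‖ρ‖) 1 with h5 | h5
    · have h6 : (h * ‖ρ‖) ^ (τ / 2) ≤ 1 := Real.rpow_le_one (by positivity) h5 (by positivity)
      have : 0 ≤ h * |ρ.im| := by positivity
      linarith
    · have h6 : (h * ‖ρ‖) ^ (τ / 2) ≤ (h * ‖ρ‖) ^ (1 : ℝ) :=
        Real.rpow_le_rpow_of_exponent_le h5 (by linarith)
      rw [Real.rpow_one] at h6
      linarith
  have h4 : (3 / 2 + h * |ρ.im|) * Real.exp (-(h ^ 2 * ρ.im ^ 2)) ≤ 2 := by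
    rw [Real.exp_neg, ← div_eq_mul_inv, div_le_iff₀ (Real.exp_pos _)]
    have h5 := Real.add_one_le_exp (h ^ 2 * ρ.im ^ 2)
    have h6 : (h * |ρ.im|) ^ 2 = h ^ 2 * ρ.im ^ 2 := by rw [mul_pow, sq_abs]
    nlinarith [sq_nonneg (h * |ρ.im| - 1 / 4)]
  have h5 : 0 < h ^ (-(τ / 2)) := Real.rpow_pos_of_pos hh _
  calc ‖ρ‖ ^ (τ / 2) * Real.exp (-(h ^ 2 * ρ.im ^ 2))
      = h ^ (-(τ / 2)) * ((h * ‖ρ‖) ^ (τ / 2) * Real.exp (-(h ^ 2 * ρ.im ^ 2))) := by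
        rw [h2]; ring
    _ ≤ h ^ (-(τ / 2)) * ((3 / 2 + h * |ρ.im|) * Real.exp (-(h ^ 2 * ρ.im ^ 2))) := by
        gcongr
    _ ≤ h ^ (-(τ / 2)) * 2 := by gcongr
    _ = _ := by ring

/-- the bound of the terms -/
lemma Tm_le (hc : S_CONJ) {C : ℝ} (hC : 0 < C) {ρ : ℂ} (hρ : ρ.re = 1 / 2) (hd : deriv riemannZeta ρ ≠ 0)
    {h τ : ℝ} (hh : 0 < h) (hh1 : h ≤ 1) (hτ : 0 < τ) (hτ1 : τ ≤ 1 / 2)
    (hT : τ * ‖deriv riemannZeta ρ‖ ≤ C * ‖ρ‖ ^ (τ / 2) * ‖riemannZeta (ρ + τ)‖) :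
    τ * ‖Tm h τ ρ‖ ≤ 4 * C * h ^ (-(τ / 2)) * aa ρ := by
  have hd0 : 0 < ‖deriv riemannZeta ρ‖ := norm_pos_iff.2 hd
  have hρ0 : 0 < ‖ρ‖ := by
    have := Complex.abs_re_le_norm ρ
    rw [hρ, abs_of_pos (by norm_num : (0:ℝ) < 1 / 2)] at this
    linarith
  have hz0 : 0 < ‖riemannZeta (ρ + τ)‖ := by
    rcases (norm_nonneg (riemannZeta (ρ + τ))).lt_or_eq with h1 | h1
    · exact h1
    · rw [← h1, mul_zero] at hT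
      have : 0 < τ * ‖deriv riemannZeta ρ‖ := by positivity
      linarith
  have hge := norm_ge hρ hτ.le
  have hw0 : 0 < ‖ρ + (τ : ℂ)‖ := hρ0.trans_le hge
  rw [norm_Tm hc hρ]
  have h1 : τ / ‖riemannZeta (ρ + τ)‖ ≤ C * ‖ρ‖ ^ (τ / 2) / ‖deriv riemannZeta ρ‖ := by
    rw [div_le_div_iff₀ hz0 hd0]
    exact hT
  have h2 : Real.exp (h ^ 2 / 2 * (1 / 4 - ρ.im ^ 2)) * Real.exp (h ^ 2 / 2 * ((1 / 2 + τ) ^ 2 - ρ.im ^ 2)) ≤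
      2 * Real.exp (-(h ^ 2 * ρ.im ^ 2)) := by
    rw [← Real.exp_add]
    have e1 : h ^ 2 / 2 * (1 / 4 - ρ.im ^ 2) + h ^ 2 / 2 * ((1 / 2 + τ) ^ 2 - ρ.im ^ 2) =
        h ^ 2 / 2 * (1 / 4 + (1 / 2 + τ) ^ 2) + -(h ^ 2 * ρ.im ^ 2) := by ring
    rw [e1, Real.exp_add]
    apply mul_le_mul_of_nonneg_right _ (Real.exp_pos _).le
    have h3 : h ^ 2 / 2 * (1 / 4 + (1 / 2 + τ) ^ 2) ≤ 5 / 8 := by
      have h4 : h ^ 2 ≤ 1 := by nlinarith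
      have h5 : 1 / 4 + (1 / 2 + τ) ^ 2 ≤ 5 / 4 := by nlinarith
      have h6 : 0 ≤ 1 / 4 + (1 / 2 + τ) ^ 2 := by positivity
      nlinarith
    have h4 : Real.exp (5 / 8 : ℝ) ≤ 2 := by
      have h5 : Real.exp (5 / 8 : ℝ) ^ 8 = Real.exp 1 ^ 5 := by
        rw [← Real.exp_nat_mul, ← Real.exp_nat_mul]
        norm_num
      have h6 := Real.exp_one_lt_d9
      by_contra hcon
      push Not at hcon
      have h7 : (2 : ℝ) ^ 8 < Real.exp (5 / 8 : ℝ) ^ 8 := by gcongr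
      have h8 : Real.exp 1 ^ 5 < (2.7182818286 : ℝ) ^ 5 := by gcongr
      rw [h5] at h7
      norm_num at h7 h8
      linarith
    exact (Real.exp_le_exp.2 h3).trans h4
  have h3 := rho_pow hρ hh hh1 hτ hτ1
  have ha : aa ρ = 1 / (‖ρ‖ * ‖deriv riemannZeta ρ‖) ^ 2 := by unfold aa; rw [norm_mul]
  rw [ha]
  set E1 := Real.exp (h ^ 2 / 2 * (1 / 4 - ρ.im ^ 2)) with hE1
  set E2 := Real.exp (h ^ 2 / 2 * ((1 / 2 + τ) ^ 2 - ρ.im ^ 2)) with hE2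
  have hE1p : 0 < E1 := Real.exp_pos _
  have hE2p : 0 < E2 := Real.exp_pos _
  calc τ * (E1 * (E2 / (‖ρ + (τ : ℂ)‖ * ‖riemannZeta (ρ + (τ : ℂ))‖)) / (‖ρ‖ * ‖deriv riemannZeta ρ‖))
      = (E1 * E2) * (τ / ‖riemannZeta (ρ + (τ : ℂ))‖) / (‖ρ + (τ : ℂ)‖ * (‖ρ‖ * ‖deriv riemannZeta ρ‖)) := by
        field_simp
    _ ≤ (E1 * E2) * (C * ‖ρ‖ ^ (τ / 2) / ‖deriv riemannZeta ρ‖) / (‖ρ‖ * (‖ρ‖ * ‖deriv riemannZeta ρ‖)) := by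
        gcongr
    _ = C * (‖ρ‖ ^ (τ / 2) * (E1 * E2)) * (1 / (‖ρ‖ * ‖deriv riemannZeta ρ‖) ^ 2) := by
        field_simp
    _ ≤ C * (‖ρ‖ ^ (τ / 2) * (2 * Real.exp (-(h ^ 2 * ρ.im ^ 2)))) * (1 / (‖ρ‖ * ‖deriv riemannZeta ρ‖) ^ 2) := by
        gcongr
    _ = 2 * C * (‖ρ‖ ^ (τ / 2) * Real.exp (-(h ^ 2 * ρ.im ^ 2))) * (1 / (‖ρ‖ * ‖deriv riemannZeta ρ‖) ^ 2) := by
        ring
    _ ≤ 2 * C * (2 * h ^ (-(τ / 2))) * (1 / (‖ρ‖ * ‖deriv riemannZeta ρ‖) ^ 2) := by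
        gcongr
    _ = _ := by ring

/-- the limit of the terms -/
lemma Tm_lim (hc : S_CONJ) {ρ : ℂ} (hρ : ρ.re = 1 / 2) (hz : riemannZeta ρ = 0) (hd : deriv riemannZeta ρ ≠ 0)
    {ι : Type*} {l : Filter ι} {h τ : ι → ℝ} (hh : Tendsto h l (𝓝 0)) (hτ : Tendsto τ l (𝓝[>] 0)) :
    Tendsto (fun i => τ i * ‖Tm (h i) (τ i) ρ‖) l (𝓝 (aa ρ)) := by
  have hd0 : 0 < ‖deriv riemannZeta ρ‖ := norm_pos_iff.2 hd
  have hρ0 : 0 < ‖ρ‖ := by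
    have := Complex.abs_re_le_norm ρ
    rw [hρ, abs_of_pos (by norm_num : (0:ℝ) < 1 / 2)] at this
    linarith
  have hρ1 : ρ ≠ 1 := by
    intro h1
    rw [h1] at hρ
    norm_num at hρ
  have hτ0 : Tendsto τ l (𝓝 0) := hτ.mono_right nhdsWithin_le_nhds
  have hpos : ∀ᶠ i in l, 0 < τ i := hτ.eventually self_mem_nhdsWithin
  -- the difference quotient
  have hdq : Tendsto (fun i => ‖riemannZeta (ρ + (τ i : ℂ))‖ / τ i) l (𝓝 ‖deriv riemannZeta ρ‖) := by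
    have h1 := (hasDerivAt_iff_tendsto_slope_zero.1 (differentiableAt_riemannZeta hρ1).hasDerivAt)
    have h2 : Tendsto (fun i => ((τ i : ℝ) : ℂ)) l (𝓝[≠] 0) := by
      rw [tendsto_nhdsWithin_iff]
      refine ⟨?_, hpos.mono fun i hi => ?_⟩
      · have h5 : Tendsto (fun i => ((τ i : ℝ) : ℂ)) l (𝓝 ((0 : ℝ) : ℂ)) :=
          (Complex.continuous_ofReal.tendsto 0).comp hτ0
        rwa [Complex.ofReal_zero] at h5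
      · simp only [mem_compl_iff, mem_singleton_iff, Complex.ofReal_eq_zero]
        exact hi.ne'
    have h3 := (h1.comp h2).norm
    refine h3.congr' (hpos.mono fun i hi => ?_)
    simp only [Function.comp]
    rw [hz, sub_zero, norm_smul, norm_inv, Complex.norm_real, Real.norm_of_nonneg hi.le]
    field_simp
  have hE1 : Tendsto (fun i => Real.exp (h i ^ 2 / 2 * (1 / 4 - ρ.im ^ 2))) l (𝓝 1) := by
    have h1 : Tendsto (fun i => h i ^ 2 / 2 * (1 / 4 - ρ.im ^ 2)) l (𝓝 (0 ^ 2 / 2 * (1 / 4 - ρ.im ^ 2))) :=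
      ((hh.pow 2).div_const 2).mul_const _
    have h2 := (Real.continuous_exp.tendsto _).comp h1
    have h3 : Real.exp ((0 : ℝ) ^ 2 / 2 * (1 / 4 - ρ.im ^ 2)) = 1 := by norm_num
    rw [h3] at h2
    exact h2
  have hE2 : Tendsto (fun i => Real.exp (h i ^ 2 / 2 * ((1 / 2 + τ i) ^ 2 - ρ.im ^ 2))) l (𝓝 1) := by
    have h1 : Tendsto (fun i => h i ^ 2 / 2 * ((1 / 2 + τ i) ^ 2 - ρ.im ^ 2)) l
        (𝓝 (0 ^ 2 / 2 * ((1 / 2 + 0) ^ 2 - ρ.im ^ 2))) :=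
      ((hh.pow 2).div_const 2).mul (((hτ0.const_add _).pow 2).sub_const _)
    have h2 := (Real.continuous_exp.tendsto _).comp h1
    have h3 : Real.exp ((0 : ℝ) ^ 2 / 2 * ((1 / 2 + 0) ^ 2 - ρ.im ^ 2)) = 1 := by norm_num
    rw [h3] at h2
    exact h2
  have hw : Tendsto (fun i => ‖ρ + (τ i : ℂ)‖) l (𝓝 ‖ρ‖) := by
    have h1 : Tendsto (fun i => ρ + ((τ i : ℝ) : ℂ)) l (𝓝 (ρ + ((0 : ℝ) : ℂ))) :=
      ((Complex.continuous_ofReal.tendsto 0).comp hτ0).const_add ρ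
    rw [Complex.ofReal_zero, add_zero] at h1
    exact h1.norm
  have hfin : Tendsto (fun i => Real.exp (h i ^ 2 / 2 * (1 / 4 - ρ.im ^ 2)) *
      (Real.exp (h i ^ 2 / 2 * ((1 / 2 + τ i) ^ 2 - ρ.im ^ 2)) /
        (‖ρ + (τ i : ℂ)‖ * (‖riemannZeta (ρ + (τ i : ℂ))‖ / τ i))) / (‖ρ‖ * ‖deriv riemannZeta ρ‖)) l
      (𝓝 (1 * (1 / (‖ρ‖ * ‖deriv riemannZeta ρ‖)) / (‖ρ‖ * ‖deriv riemannZeta ρ‖))) :=
    (hE1.mul (hE2.div (hw.mul hdq) (by positivity))).div_const _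
  have ha : 1 * (1 / (‖ρ‖ * ‖deriv riemannZeta ρ‖)) / (‖ρ‖ * ‖deriv riemannZeta ρ‖) = aa ρ := by
    unfold aa
    rw [norm_mul]
    field_simp
  rw [ha] at hfin
  refine hfin.congr' (hpos.mono fun i hi => ?_)
  simp only
  rw [norm_Tm hc hρ]
  have hi' : τ i ≠ 0 := hi.ne'
  rcases eq_or_ne (‖riemannZeta (ρ + (τ i : ℂ))‖) 0 with h0 | h0
  · rw [h0]; simp
  · have h1 : ‖ρ + (τ i : ℂ)‖ ≠ 0 := (hρ0.trans_le (norm_ge hρ hi.le)).ne'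
    field_simp

end Pool.Agent.H313.ZC
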