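import Pool.Agent.H313.ZC.Up1

set_option autoImplicit false

/-! # The Laplace means of the smoothed Mertens function -/

namespace Pool.Agent.H313.ZC

open MeasureTheory Filter Topology Set
open Pool.Agent.W120.WM (Mx gk Sm EE GG NT)

lemma aa_nonneg (ρ : ℂ) : 0 ≤ aa ρ := by unfold aa; positivity

theorem sm_bound (hM : S_MSQ) (hS : S_SHIFT) (hT : S_TERM) (hc : S_CONJ) (hHS : HS)
    (hsum : Summable (fun ρ : NT => aa ρ)) :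
    ∃ B C : ℝ, 0 < B ∧ 0 < C ∧ ∀ τ h : ℝ, 0 < τ → τ < 1 / 2 → 0 < h → h ≤ 1 →
      (∀ ρ : NT, τ * ‖Tm h τ ρ‖ ≤ 4 * C * h ^ (-(τ / 2)) * aa ρ) ∧
      Integrable (fun v : ℝ => Sm h v ^ 2 * Real.exp (-((1 + τ) * v))) ∧
      ∫ v : ℝ, Sm h v ^ 2 * Real.exp (-((1 + τ) * v)) ≤ ∑' ρ : NT, ‖Tm h τ ρ‖ + B := by
  have hRH : RHz := fun ρ hρ => (hHS ρ hρ).1
  obtain ⟨B, hB, Z, hZ, hlim⟩ := hS hHS
  obtain ⟨C, hC, hCT⟩ := hT hRH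
  refine ⟨B, C, hB, hC, fun τ h hτ hτ1 hh hh1 => ?_⟩
  have hb : ∀ ρ : NT, τ * ‖Tm h τ ρ‖ ≤ 4 * C * h ^ (-(τ / 2)) * aa ρ := fun ρ =>
    Tm_le hc hC (hHS ρ ρ.2).1 (hHS ρ ρ.2).2 hh hh1 hτ hτ1.le (hCT ρ ρ.2 τ hτ hτ1.le)
  have hsumT : Summable (fun ρ : NT => ‖Tm h τ ρ‖) := by
    refine Summable.of_nonneg_of_le (fun ρ => norm_nonneg _) (fun ρ => ?_)
      (hsum.mul_left (τ⁻¹ * (4 * C * h ^ (-(τ / 2)))))
    have h1 := hb ρ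
    calc ‖Tm h τ ρ‖ = τ⁻¹ * (τ * ‖Tm h τ ρ‖) := by field_simp
      _ ≤ τ⁻¹ * (4 * C * h ^ (-(τ / 2)) * aa ρ) := by gcongr
      _ = _ := by ring
  obtain ⟨c, hcd⟩ : ∃ c : ℝ, c = (1 + τ) / 2 := ⟨_, rfl⟩
  have hc1 : 1 / 2 < c := by rw [hcd]; linarith
  have hc2 : c < 3 / 4 := by rw [hcd]; linarith
  have h2c : 2 * c = 1 + τ := by rw [hcd]; ring
  have h2c' : (2 * (c : ℂ)) = ((1 + τ : ℝ) : ℂ) := by rw [← h2c]; push_cast; ring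
  obtain ⟨hI1, hI2, heq⟩ := hM hRH c h hc1 (by linarith) hh
  obtain ⟨E, hE, hl⟩ := hlim c h hc1 hc2 hh hh1 hI2
  rw [← heq] at hl
  rw [h2c] at hI1 hl
  refine ⟨hb, hI1, ?_⟩
  have hl2 : Tendsto (fun k => ‖∑ ρ ∈ Z k, EE h 0 ρ * GG h 0 (2 * c - ρ) / (ρ * deriv riemannZeta ρ)‖) atTop
      (𝓝 ‖((∫ v : ℝ, Sm h v ^ 2 * Real.exp (-((1 + τ) * v)) : ℝ) : ℂ) + E‖) := hl.norm
  have hle : ∀ k, ‖∑ ρ ∈ Z k, EE h 0 ρ * GG h 0 (2 * c - ρ) / (ρ * deriv riemannZeta ρ)‖ ≤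
      ∑' ρ : NT, ‖Tm h τ ρ‖ := by
    classical
    intro k
    refine (norm_sum_le _ _).trans ?_
    have e1 : ∑ ρ ∈ Z k, ‖EE h 0 ρ * GG h 0 (2 * c - ρ) / (ρ * deriv riemannZeta ρ)‖ =
        ∑ ρ ∈ (Z k).subtype (fun ρ => ρ ∈ NT), ‖Tm h τ ρ‖ := by
      rw [Finset.sum_subtype_of_mem (fun ρ : ℂ => ‖Tm h τ ρ‖) (hZ k)]
      refine Finset.sum_congr rfl fun ρ _ => ?_
      rw [h2c']
      rfl
    rw [e1]
    exact hsumT.sum_le_tsum _ (fun ρ _ => norm_nonneg _)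
  have h3 := le_of_tendsto hl2 (Eventually.of_forall hle)
  have h4 : |∫ v : ℝ, Sm h v ^ 2 * Real.exp (-((1 + τ) * v))| ≤
      ‖((∫ v : ℝ, Sm h v ^ 2 * Real.exp (-((1 + τ) * v)) : ℝ) : ℂ) + E‖ + ‖E‖ := by
    have h5 := norm_sub_le (((∫ v : ℝ, Sm h v ^ 2 * Real.exp (-((1 + τ) * v)) : ℝ) : ℂ) + E) E
    rw [add_sub_cancel_right, Complex.norm_real, Real.norm_eq_abs] at h5
    exact h5
  have h5 := le_abs_self (∫ v : ℝ, Sm h v ^ 2 * Real.exp (-((1 + τ) * v)))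
  linarith

/-- the sum over the zeros tends to `SS` -/
theorem sum_lim (hT : S_TERM) (hc : S_CONJ) (hHS : HS)
    (hsum : Summable (fun ρ : NT => aa ρ)) {K : ℝ} (hK : 0 < K) :
    Tendsto (fun V : ℝ => V⁻¹ * ∑' ρ : NT, ‖Tm (Real.exp (-(K * V))) V⁻¹ ρ‖) atTop
      (𝓝 (∑' ρ : NT, aa ρ)) := by
  have hRH : RHz := fun ρ hρ => (hHS ρ hρ).1
  obtain ⟨C, hC, hCT⟩ := hT hRH
  have hinv : Tendsto (fun V : ℝ => V⁻¹) atTop (𝓝[>] 0) := tendsto_inv_atTop_nhdsGT_zero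
  have hexp : Tendsto (fun V : ℝ => Real.exp (-(K * V))) atTop (𝓝 0) := by
    refine Real.tendsto_exp_atBot.comp ?_
    exact tendsto_neg_atTop_atBot.comp (tendsto_id.const_mul_atTop hK)
  have h1 : Tendsto (fun V : ℝ => ∑' ρ : NT, V⁻¹ * ‖Tm (Real.exp (-(K * V))) V⁻¹ ρ‖) atTop
      (𝓝 (∑' ρ : NT, aa ρ)) := by
    refine tendsto_tsum_of_dominated_convergence (bound := fun ρ : NT => 4 * C * Real.exp (K / 2) * aa ρ)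
      (hsum.mul_left _) (fun ρ => ?_) ?_
    · exact Tm_lim hc (hHS ρ ρ.2).1 ρ.2.1 (hHS ρ ρ.2).2 hexp hinv
    · filter_upwards [eventually_ge_atTop (2 : ℝ)] with V hV ρ
      have hV0 : 0 < V := by linarith
      have hVi : 0 < V⁻¹ := inv_pos.2 hV0
      have hV2 : V⁻¹ ≤ 1 / 2 := by
        rw [inv_le_comm₀ hV0 (by norm_num)]
        norm_num
        exact hV
      rw [Real.norm_of_nonneg (mul_nonneg hVi.le (norm_nonneg _))]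
      have h2 := Tm_le hc hC (hHS ρ ρ.2).1 (hHS ρ ρ.2).2 (h := Real.exp (-(K * V))) (τ := V⁻¹)
        (Real.exp_pos _) (Real.exp_le_one_iff.2 (by nlinarith)) hVi hV2 (hCT ρ ρ.2 V⁻¹ hVi hV2)
      refine h2.trans (le_of_eq ?_)
      rw [← Real.exp_mul]
      congr 3
      field_simp
  refine h1.congr fun V => ?_
  rw [tsum_mul_left]

/-- the smoothed Laplace means -/
theorem sm_mean (hM : S_MSQ) (hS : S_SHIFT) (hT : S_TERM) (hc : S_CONJ) (hHS : HS)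
    (hsum : Summable (fun ρ : NT => aa ρ)) {K : ℝ} (hK : 0 < K) {ε : ℝ} (hε : 0 < ε) :
    ∀ᶠ V : ℝ in atTop,
      Integrable (fun v : ℝ => Sm (Real.exp (-(K * V))) v ^ 2 * Real.exp (-((1 + V⁻¹) * v))) ∧
      ∫ v : ℝ, Sm (Real.exp (-(K * V))) v ^ 2 * Real.exp (-((1 + V⁻¹) * v)) ≤
        (∑' ρ : NT, aa ρ + ε) * V := by
  obtain ⟨B, C, hB, hC, hb⟩ := sm_bound hM hS hT hc hHS hsum
  have h1 := sum_lim hT hc hHS hsum hK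
  have h2 := h1.eventually (gt_mem_nhds (lt_add_of_pos_right (∑' ρ : NT, aa ρ) (half_pos hε)))
  filter_upwards [h2, eventually_gt_atTop (2 : ℝ), eventually_ge_atTop (2 * B / ε)] with V h3 hV hVB
  have hV0 : 0 < V := by linarith
  have hVi : 0 < V⁻¹ := inv_pos.2 hV0
  have hV2 : V⁻¹ < 1 / 2 := by
    rw [inv_lt_comm₀ hV0 (by norm_num)]
    norm_num
    exact hV
  obtain ⟨-, h4, h5⟩ := hb V⁻¹ (Real.exp (-(K * V))) hVi hV2 (Real.exp_pos _)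
    (Real.exp_le_one_iff.2 (by nlinarith))
  refine ⟨h4, h5.trans ?_⟩
  have h6 : ∑' ρ : NT, ‖Tm (Real.exp (-(K * V))) V⁻¹ ρ‖ ≤ (∑' ρ : NT, aa ρ + ε / 2) * V := by
    have h7 : V * (V⁻¹ * ∑' ρ : NT, ‖Tm (Real.exp (-(K * V))) V⁻¹ ρ‖) ≤
        V * (∑' ρ : NT, aa ρ + ε / 2) := by gcongr
    rw [← mul_assoc, mul_inv_cancel₀ hV0.ne', one_mul] at h7
    linarith
  have h7 : B ≤ ε / 2 * V := by
    rw [div_le_iff₀ hε] at hVB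
    linarith
  linarith

end Pool.Agent.H313.ZC
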