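import Pool.Agent.H313.ZC.Up2

set_option autoImplicit false

/-! # Unsmoothing and the tail -/

namespace Pool.Agent.H313.ZC

open MeasureTheory Filter Topology Set
open Pool.Agent.W120.WM (Mx gk Sm EE GG NT T_UNS)

/-- `M(e^v)² e^(-v)` -/
noncomputable def FF (v : ℝ) : ℝ := Mx (Real.exp v) ^ 2 * Real.exp (-v)

lemma FF_nonneg (v : ℝ) : 0 ≤ FF v := by unfold FF; positivity

lemma Mx_meas : Measurable Mx := by
  have h1 : Mx = (fun n : ℕ => ∑ k ∈ Finset.Icc 1 n, ((ArithmeticFunction.moebius k : ℤ) : ℝ)) ∘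
      (fun u : ℝ => ⌊u⌋₊) := rfl
  rw [h1]
  exact (measurable_from_nat).comp Nat.measurable_floor

lemma FF_meas : Measurable FF := ((Mx_meas.comp Real.measurable_exp).pow_const 2).mul (by fun_prop)

lemma abs_Mx_le (u : ℝ) (hu : 0 ≤ u) : |Mx u| ≤ u := by
  unfold Mx
  calc |∑ n ∈ Finset.Icc 1 ⌊u⌋₊, ((ArithmeticFunction.moebius n : ℤ) : ℝ)|
      ≤ ∑ n ∈ Finset.Icc 1 ⌊u⌋₊, |((ArithmeticFunction.moebius n : ℤ) : ℝ)| :=
        Finset.abs_sum_le_sum_abs _ _
    _ ≤ ∑ n ∈ Finset.Icc 1 ⌊u⌋₊, (1 : ℝ) := Finset.sum_le_sum fun n _ => by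
        have := ArithmeticFunction.abs_moebius_le_one (n := n)
        exact_mod_cast this
    _ = ⌊u⌋₊ := by simp
    _ ≤ u := Nat.floor_le hu

lemma FF_le (v : ℝ) : FF v ≤ Real.exp v := by
  unfold FF
  have h1 := abs_Mx_le (Real.exp v) (Real.exp_pos v).le
  have h2 : Mx (Real.exp v) ^ 2 ≤ Real.exp v ^ 2 := by
    rw [← sq_abs (Mx (Real.exp v))]
    gcongr
  calc Mx (Real.exp v) ^ 2 * Real.exp (-v) ≤ Real.exp v ^ 2 * Real.exp (-v) := by gcongr
    _ = Real.exp v := by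
      rw [sq, mul_assoc, ← Real.exp_add, add_neg_cancel, Real.exp_zero, mul_one]

lemma FF_loc (V : ℝ) : IntegrableOn FF (Ioc 0 V) := by
  have h1 : IntegrableOn (fun v : ℝ => Real.exp v) (Ioc 0 V) :=
    (Real.continuous_exp.integrableOn_Icc (a := 0) (b := V)).mono_set Ioc_subset_Icc_self
  refine h1.mono' FF_meas.aestronglyMeasurable (Eventually.of_forall fun v => ?_)
  rw [Real.norm_of_nonneg (FF_nonneg v)]
  exact FF_le v

lemma sq_split {a b η C : ℝ} (hη : 0 < η) (h : |a - b| ≤ C) :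
    a ^ 2 ≤ (1 + η) * b ^ 2 + (1 + 1 / η) * C ^ 2 := by
  have h1 : (a - b) ^ 2 ≤ C ^ 2 := by
    rw [← sq_abs (a - b)]
    gcongr
  have h2 : a ^ 2 ≤ (1 + η) * b ^ 2 + (1 + 1 / η) * (a - b) ^ 2 := by
    have h3 : (1 + η) * b ^ 2 + (1 + 1 / η) * (a - b) ^ 2 - a ^ 2 = η * (b - (a - b) / η) ^ 2 := by
      field_simp
      ring
    have h4 : 0 ≤ η * (b - (a - b) / η) ^ 2 := by positivity
    linarith
  have h3 : (1 + 1 / η) * (a - b) ^ 2 ≤ (1 + 1 / η) * C ^ 2 := by gcongr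
  linarith

theorem trunc (hU : T_UNS) (hM : S_MSQ) (hS : S_SHIFT) (hT : S_TERM) (hc : S_CONJ) (hHS : HS)
    (hsum : Summable (fun ρ : NT => aa ρ)) {K : ℝ} (hK : 0 < K) {ε : ℝ} (hε : 0 < ε) :
    ∀ᶠ V : ℝ in atTop, ∫⁻ v in Ioc (0 : ℝ) (K * V), ENNReal.ofReal (FF v * Real.exp (-(v / V))) ≤
      ENNReal.ofReal ((∑' ρ : NT, aa ρ + ε) * V) := by
  obtain ⟨C, hC, hU⟩ := hU
  set S : ℝ := ∑' ρ : NT, aa ρ with hSd
  have hS0 : 0 ≤ S := tsum_nonneg fun ρ => aa_nonneg ρ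
  obtain ⟨η, hη, hηS⟩ : ∃ η : ℝ, 0 < η ∧ η * (S + ε / 3) ≤ ε / 3 := by
    refine ⟨ε / 3 / (S + ε / 3), by positivity, ?_⟩
    rw [div_mul_cancel₀ _ (by positivity)]
  obtain ⟨D, hD⟩ : ∃ D : ℝ, D = (1 + 1 / η) * C ^ 2 := ⟨_, rfl⟩
  have hD0 : 0 ≤ D := by rw [hD]; positivity
  have h1 := sm_mean hM hS hT hc hHS hsum hK (ε := ε / 3) (by positivity)
  filter_upwards [h1, eventually_gt_atTop (0 : ℝ), eventually_ge_atTop (3 * D / ε)] with V h2 hV hVD
  obtain ⟨hI, hle⟩ := h2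
  rw [← hSd] at hle
  set h : ℝ := Real.exp (-(K * V)) with hh
  have hh0 : 0 < h := Real.exp_pos _
  have hpt : ∀ v ∈ Ioc (0 : ℝ) (K * V), FF v * Real.exp (-(v / V)) ≤
      (1 + η) * (Sm h v ^ 2 * Real.exp (-((1 + V⁻¹) * v))) + D * Real.exp (-v) := by
    intro v hv
    have hhv : h ≤ Real.exp (-v) := by
      rw [hh]
      exact Real.exp_le_exp.2 (by linarith [hv.2])
    have h3 := sq_split hη (hU v h hv.1.le hh0 hhv)
    have e1 : FF v * Real.exp (-(v / V)) = Mx (Real.exp v) ^ 2 * Real.exp (-((1 + V⁻¹) * v)) := by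
      unfold FF
      rw [mul_assoc, ← Real.exp_add]
      congr 2
      rw [div_eq_mul_inv]
      ring
    have h4 : Real.exp (-((1 + V⁻¹) * v)) ≤ Real.exp (-v) := by
      apply Real.exp_le_exp.2
      have : 0 ≤ V⁻¹ * v := mul_nonneg (inv_nonneg.2 hV.le) hv.1.le
      nlinarith
    have h5 : 0 < Real.exp (-((1 + V⁻¹) * v)) := Real.exp_pos _
    rw [e1]
    calc Mx (Real.exp v) ^ 2 * Real.exp (-((1 + V⁻¹) * v))
        ≤ ((1 + η) * Sm h v ^ 2 + (1 + 1 / η) * C ^ 2) * Real.exp (-((1 + V⁻¹) * v)) := by gcongr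
      _ = (1 + η) * (Sm h v ^ 2 * Real.exp (-((1 + V⁻¹) * v))) + D * Real.exp (-((1 + V⁻¹) * v)) := by
          rw [hD]; ring
      _ ≤ (1 + η) * (Sm h v ^ 2 * Real.exp (-((1 + V⁻¹) * v))) + D * Real.exp (-v) := by gcongr
  have hnn : ∀ v : ℝ, 0 ≤ (1 + η) * (Sm h v ^ 2 * Real.exp (-((1 + V⁻¹) * v))) := fun v => by positivity
  have hJ : IntegrableOn (fun v : ℝ => D * Real.exp (-v)) (Ioi 0) := by
    have h3 : IntegrableOn (fun v : ℝ => Real.exp (-v)) (Ioi 0) := by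
      have h4 := exp_neg_integrableOn_Ioi (0 : ℝ) (b := 1) one_pos
      refine h4.congr_fun (fun v _ => ?_) measurableSet_Ioi
      simp only
      congr 1
      ring
    exact h3.const_mul D
  have hJv : ∫ v in Ioi (0 : ℝ), D * Real.exp (-v) = D := by
    rw [integral_const_mul, integral_exp_neg_Ioi_zero, mul_one]
  calc ∫⁻ v in Ioc (0 : ℝ) (K * V), ENNReal.ofReal (FF v * Real.exp (-(v / V)))
      ≤ ∫⁻ v in Ioc (0 : ℝ) (K * V), (ENNReal.ofReal ((1 + η) * (Sm h v ^ 2 * Real.exp (-((1 + V⁻¹) * v)))) +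
          ENNReal.ofReal (D * Real.exp (-v))) := by
        refine setLIntegral_mono' measurableSet_Ioc fun v hv => ?_
        refine (ENNReal.ofReal_le_ofReal (hpt v hv)).trans ?_
        exact ENNReal.ofReal_add_le
    _ = (∫⁻ v in Ioc (0 : ℝ) (K * V), ENNReal.ofReal ((1 + η) * (Sm h v ^ 2 * Real.exp (-((1 + V⁻¹) * v))))) +
          ∫⁻ v in Ioc (0 : ℝ) (K * V), ENNReal.ofReal (D * Real.exp (-v)) := by
        apply lintegral_add_right
        exact ENNReal.measurable_ofReal.comp (by fun_prop)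
    _ ≤ (∫⁻ v : ℝ, ENNReal.ofReal ((1 + η) * (Sm h v ^ 2 * Real.exp (-((1 + V⁻¹) * v))))) +
          ∫⁻ v in Ioi (0 : ℝ), ENNReal.ofReal (D * Real.exp (-v)) := by
        gcongr
        · exact Measure.restrict_le_self
        · exact Ioc_subset_Ioi_self
    _ = ENNReal.ofReal ((1 + η) * ∫ v : ℝ, Sm h v ^ 2 * Real.exp (-((1 + V⁻¹) * v))) + ENNReal.ofReal D := by
        congr 1
        · rw [← integral_const_mul, ofReal_integral_eq_lintegral_ofReal (hI.const_mul _)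
            (Eventually.of_forall hnn)]
        · rw [← hJv, ofReal_integral_eq_lintegral_ofReal hJ
            (Eventually.of_forall fun v => by positivity), hJv]
    _ = ENNReal.ofReal ((1 + η) * (∫ v : ℝ, Sm h v ^ 2 * Real.exp (-((1 + V⁻¹) * v))) + D) := by
        rw [ENNReal.ofReal_add (mul_nonneg (by positivity) (integral_nonneg fun v => by positivity)) hD0]
    _ ≤ ENNReal.ofReal ((S + ε) * V) := by
        apply ENNReal.ofReal_le_ofReal
        have h6 : D ≤ ε / 3 * V := by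
          rw [div_le_iff₀ hε] at hVD
          linarith
        have h7 : (1 + η) * (∫ v : ℝ, Sm h v ^ 2 * Real.exp (-((1 + V⁻¹) * v))) ≤
            (1 + η) * ((S + ε / 3) * V) := by gcongr
        have h8 : η * (S + ε / 3) * V ≤ ε / 3 * V := by gcongr
        nlinarith

/-- the mean square is bounded -/
theorem JV_bound (hU : T_UNS) (hM : S_MSQ) (hS : S_SHIFT) (hT : S_TERM) (hc : S_CONJ) (hHS : HS)
    (hsum : Summable (fun ρ : NT => aa ρ)) :
    ∃ A : ℝ, 0 < A ∧ ∀ᶠ V : ℝ in atTop, ∫⁻ v in Ioc (0 : ℝ) V, ENNReal.ofReal (FF v) ≤ ENNReal.ofReal (A * V) := by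
  set S : ℝ := ∑' ρ : NT, aa ρ with hSd
  have hS0 : 0 ≤ S := tsum_nonneg fun ρ => aa_nonneg ρ
  refine ⟨Real.exp 1 * (S + 1), by positivity, ?_⟩
  filter_upwards [trunc hU hM hS hT hc hHS hsum one_pos one_pos, eventually_gt_atTop (0 : ℝ)] with V h1 hV
  rw [one_mul, ← hSd] at h1
  calc ∫⁻ v in Ioc (0 : ℝ) V, ENNReal.ofReal (FF v)
      ≤ ∫⁻ v in Ioc (0 : ℝ) V, ENNReal.ofReal (Real.exp 1) * ENNReal.ofReal (FF v * Real.exp (-(v / V))) := by
        refine setLIntegral_mono' measurableSet_Ioc fun v hv => ?_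
        rw [← ENNReal.ofReal_mul (Real.exp_pos _).le]
        apply ENNReal.ofReal_le_ofReal
        have h2 : v / V ≤ 1 := (div_le_one hV).2 hv.2
        have h3 : (1 : ℝ) ≤ Real.exp 1 * Real.exp (-(v / V)) := by
          rw [← Real.exp_add]
          exact Real.one_le_exp (by linarith)
        have h4 := FF_nonneg v
        calc FF v = FF v * 1 := by ring
          _ ≤ FF v * (Real.exp 1 * Real.exp (-(v / V))) := by gcongr
          _ = _ := by ring
    _ = ENNReal.ofReal (Real.exp 1) * ∫⁻ v in Ioc (0 : ℝ) V, ENNReal.ofReal (FF v * Real.exp (-(v / V))) := by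
        rw [lintegral_const_mul']
        exact ENNReal.ofReal_ne_top
    _ ≤ ENNReal.ofReal (Real.exp 1) * ENNReal.ofReal ((S + 1) * V) := by gcongr
    _ = ENNReal.ofReal (Real.exp 1 * (S + 1) * V) := by
        rw [← ENNReal.ofReal_mul (Real.exp_pos _).le]
        congr 1
        ring

theorem up (hU : T_UNS) (hM : S_MSQ) (hS : S_SHIFT) (hT : S_TERM) (hc : S_CONJ) (hHS : HS)
    (hsum : Summable (fun ρ : NT => aa ρ)) {ε : ℝ} (hε : 0 < ε) :
    ∀ᶠ V : ℝ in atTop, ∫⁻ v in Ioi (0 : ℝ), ENNReal.ofReal (FF v * Real.exp (-(v / V))) ≤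
      ENNReal.ofReal ((∑' ρ : NT, aa ρ + ε) * V) := by
  set S : ℝ := ∑' ρ : NT, aa ρ with hSd
  have hS0 : 0 ≤ S := tsum_nonneg fun ρ => aa_nonneg ρ
  obtain ⟨A, hA, hAb⟩ := JV_bound hU hM hS hT hc hHS hsum
  obtain ⟨V₀, hV₀⟩ := (eventually_atTop.1 hAb)
  -- the numerical series
  set f : ℕ → ℝ := fun j => A * (((j : ℝ) + 1) * Real.exp (-(j : ℝ))) with hf
  have hf0 : ∀ j, 0 ≤ f j := fun j => by rw [hf]; positivity
  have hfs : Summable f := by
    have h1 := Real.summable_pow_mul_exp_neg_nat_mul 1 (r := 1) one_pos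
    have h2 := Real.summable_pow_mul_exp_neg_nat_mul 0 (r := 1) one_pos
    have h3 := (h1.add h2).mul_left A
    refine h3.congr fun j => ?_
    rw [hf]
    simp only [pow_one, pow_zero, one_mul, neg_mul]
    ring
  have htail := tendsto_sum_nat_add f
  obtain ⟨K, hK1, hK⟩ : ∃ K : ℕ, 1 ≤ K ∧ ∑' k, f (k + K) < ε / 2 := by
    have h1 := (htail.eventually (gt_mem_nhds (half_pos hε))).and (eventually_ge_atTop 1)
    obtain ⟨K, h2, h3⟩ := h1.exists
    exact ⟨K, h3, h2⟩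
  have hKpos : (0 : ℝ) < K := by exact_mod_cast hK1
  filter_upwards [trunc hU hM hS hT hc hHS hsum hKpos (half_pos hε), eventually_gt_atTop (0 : ℝ),
    eventually_ge_atTop V₀] with V h1 hV hVV
  rw [← hSd] at h1
  set g : ℝ → ENNReal := fun v => ENNReal.ofReal (FF v * Real.exp (-(v / V))) with hg
  -- the pieces
  have hpiece : ∀ j : ℕ, ∫⁻ v in Ioc ((j : ℝ) * V) (((j : ℝ) + 1) * V), g v ≤ ENNReal.ofReal (f j * V) := by
    intro j
    have hj : (0 : ℝ) ≤ j := j.cast_nonneg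
    calc ∫⁻ v in Ioc ((j : ℝ) * V) (((j : ℝ) + 1) * V), g v
        ≤ ∫⁻ v in Ioc ((j : ℝ) * V) (((j : ℝ) + 1) * V),
            ENNReal.ofReal (Real.exp (-(j : ℝ))) * ENNReal.ofReal (FF v) := by
          refine setLIntegral_mono' measurableSet_Ioc fun v hv => ?_
          rw [hg, ← ENNReal.ofReal_mul (Real.exp_pos _).le]
          apply ENNReal.ofReal_le_ofReal
          have h2 : (j : ℝ) ≤ v / V := (le_div_iff₀ hV).2 hv.1.le
          have h3 : Real.exp (-(v / V)) ≤ Real.exp (-(j : ℝ)) := Real.exp_le_exp.2 (by linarith)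
          have h4 := FF_nonneg v
          calc FF v * Real.exp (-(v / V)) ≤ FF v * Real.exp (-(j : ℝ)) := by gcongr
            _ = _ := by ring
      _ ≤ ∫⁻ v in Ioc (0 : ℝ) (((j : ℝ) + 1) * V),
            ENNReal.ofReal (Real.exp (-(j : ℝ))) * ENNReal.ofReal (FF v) := by
          apply lintegral_mono_set
          exact Ioc_subset_Ioc_left (by positivity)
      _ = ENNReal.ofReal (Real.exp (-(j : ℝ))) * ∫⁻ v in Ioc (0 : ℝ) (((j : ℝ) + 1) * V), ENNReal.ofReal (FF v) := by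
          rw [lintegral_const_mul']
          exact ENNReal.ofReal_ne_top
      _ ≤ ENNReal.ofReal (Real.exp (-(j : ℝ))) * ENNReal.ofReal (A * (((j : ℝ) + 1) * V)) := by
          gcongr
          apply hV₀
          nlinarith
      _ = ENNReal.ofReal (f j * V) := by
          rw [← ENNReal.ofReal_mul (Real.exp_pos _).le]
          congr 1
          rw [hf]
          ring
  have hcover : Ioi (0 : ℝ) ⊆ Ioc (0 : ℝ) (K * V) ∪
      ⋃ k : ℕ, Ioc (((k + K : ℕ) : ℝ) * V) ((((k + K : ℕ) : ℝ) + 1) * V) := by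
    intro v hv
    have hv0 : 0 < v := hv
    rcases le_or_gt v (K * V) with h2 | h2
    · left
      exact ⟨hv0, h2⟩
    · right
      rw [mem_iUnion]
      have h3 : 0 < v / V := by positivity
      obtain ⟨n, hn1, hn2⟩ : ∃ n : ℕ, (n : ℝ) < v / V ∧ v / V ≤ n + 1 := by
        refine ⟨⌈v / V⌉₊ - 1, ?_, ?_⟩
        · have h4 : 1 ≤ ⌈v / V⌉₊ := Nat.one_le_ceil_iff.2 h3
          have h5 := Nat.ceil_lt_add_one h3.le
          rw [Nat.cast_sub h4]
          push_cast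
          linarith
        · have h4 : 1 ≤ ⌈v / V⌉₊ := Nat.one_le_ceil_iff.2 h3
          rw [Nat.cast_sub h4]
          push_cast
          have := Nat.le_ceil (v / V)
          linarith
      have hnK : K ≤ n := by
        have h4 : (K : ℝ) < v / V := by rwa [lt_div_iff₀ hV]
        have h5 : (K : ℝ) < n + 1 := lt_of_lt_of_le h4 hn2
        have h6 : K < n + 1 := by exact_mod_cast h5
        omega
      refine ⟨n - K, ?_⟩
      rw [Nat.sub_add_cancel hnK]
      refine ⟨?_, ?_⟩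
      · rwa [lt_div_iff₀ hV] at hn1
      · rwa [div_le_iff₀ hV] at hn2
  have hfK : Summable fun k => f (k + K) := (summable_nat_add_iff K).2 hfs
  calc ∫⁻ v in Ioi (0 : ℝ), g v
      ≤ ∫⁻ v in Ioc (0 : ℝ) (K * V) ∪
          ⋃ k : ℕ, Ioc (((k + K : ℕ) : ℝ) * V) ((((k + K : ℕ) : ℝ) + 1) * V), g v := lintegral_mono_set hcover
    _ ≤ (∫⁻ v in Ioc (0 : ℝ) (K * V), g v) +
          ∫⁻ v in ⋃ k : ℕ, Ioc (((k + K : ℕ) : ℝ) * V) ((((k + K : ℕ) : ℝ) + 1) * V), g v :=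
        lintegral_union_le _ _ _
    _ ≤ ENNReal.ofReal ((S + ε / 2) * V) +
          ∑' k : ℕ, ∫⁻ v in Ioc (((k + K : ℕ) : ℝ) * V) ((((k + K : ℕ) : ℝ) + 1) * V), g v := by
        gcongr
        exact lintegral_iUnion_le _ _
    _ ≤ ENNReal.ofReal ((S + ε / 2) * V) + ∑' k : ℕ, ENNReal.ofReal (f (k + K) * V) := by
        gcongr with k
        exact hpiece (k + K)
    _ = ENNReal.ofReal ((S + ε / 2) * V) + ENNReal.ofReal (∑' k : ℕ, f (k + K) * V) := by
        rw [ENNReal.ofReal_tsum_of_nonneg (fun k => mul_nonneg (hf0 _) hV.le) (hfK.mul_right V)]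
    _ = ENNReal.ofReal ((S + ε / 2) * V + (∑' k : ℕ, f (k + K)) * V) := by
        rw [tsum_mul_right, ENNReal.ofReal_add (by positivity)
          (mul_nonneg (tsum_nonneg fun k => hf0 _) hV.le)]
    _ ≤ ENNReal.ofReal ((S + ε) * V) := by
        apply ENNReal.ofReal_le_ofReal
        have : (∑' k : ℕ, f (k + K)) * V ≤ ε / 2 * V := by gcongr
        linarith

end Pool.Agent.H313.ZC
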