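import Pool.Agent.H313.ZC.AP2
import Pool.Graph.R_pool_sql_team_seeded_3997aac3.Q124.FA.W2a
import Pool.Graph.R_pool_sql_team_seeded_3997aac3.Q120.FA.Stm5

set_option autoImplicit false

/-! # The mean square of `h(y) = ∑_{m ≤ y} M(y/m)/m` -/

namespace Pool.Agent.H313.ZC.W2

open MeasureTheory Filter Topology Set
open Pool.Agent.W120.WM (NT)
open Pool.Agent.H295R2 (II JJ ww ee GR)
open Pool.Agent.TH223.AP
open Pool.Agent.Q124.FA
open Pool.Agent.Q120.FA (Mr hh H2 ZC zs NTZ J_W2 J_W8)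

lemma fv_ft : fv = ft := rfl

/-- `∫_0^V f² ≤ ζ(3/2)² ∫_0^V k²` -/
lemma JJ_le {V : ℝ} (hV : 0 ≤ V) : JJ V ≤ cc ^ 2 * H2 (Real.exp V) := by
  have hk : LB (fun v => ‖((kt v : ℝ) : ℂ)‖ ^ 2) := by
    have e : (fun v => ‖((kt v : ℝ) : ℂ)‖ ^ 2) = fun v => kt v ^ 2 := by
      funext v
      rw [Complex.norm_real, Real.norm_eq_abs, sq_abs]
    rw [e]
    exact kt_LB.sq
  obtain ⟨Φ, h1, h2, h3⟩ := TT_major (fun m => ((ArithmeticFunction.moebius m : ℤ) : ℝ)) moebius_le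
    (fun v => ((kt v : ℝ) : ℂ)) hk hV
  have e1 : ∫ v in Ioc 0 V, ‖((kt v : ℝ) : ℂ)‖ ^ 2 = H2 (Real.exp V) := by
    rw [H2_eq hV, intervalIntegral.integral_of_le hV]
    refine integral_congr_ae (Eventually.of_forall fun v => ?_)
    simp only
    rw [Complex.norm_real, Real.norm_eq_abs, sq_abs]
  rw [e1] at h3
  refine le_trans ?_ h3
  have e2 : JJ V = ∫ v in Ioc 0 V, ft v ^ 2 := by
    unfold Pool.Agent.H295R2.JJ
    refine integral_congr_ae (Eventually.of_forall fun v => ?_)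
    exact (ft_sq v).symm
  rw [e2]
  refine setIntegral_mono_on ?_ h1 measurableSet_Ioc fun v hv => ?_
  · exact (intervalIntegrable_iff_integrableOn_Ioc_of_le hV).1 (ft_LB.sq.ii hV)
  · have h4 := h2 v hv
    rw [← fv_eq, Complex.norm_real, Real.norm_eq_abs, sq_abs] at h4
    exact h4

theorem t_w8 : J_W8 := by
  refine ⟨cc ^ 2, pow_pos cc_pos 2, fun x hx => ?_⟩
  have h1 := JJ_le (Real.log_nonneg hx)
  rw [Real.exp_log (by linarith)] at h1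
  rw [← Pool.Agent.H295R2.II_eq hx] at h1
  exact h1

/-- the tail of `∑ m^(-3/2)` -/
lemma cf_tele {m : ℕ} (hm : 1 ≤ m) : cf (m + 1) ≤ 2 / √(m : ℝ) - 2 / √((m : ℝ) + 1) := by
  have h0 : (0 : ℝ) < m := by exact_mod_cast hm
  set a := √(m : ℝ) with ha
  set b := √((m : ℝ) + 1) with hb
  have ha0 : 0 < a := Real.sqrt_pos.2 h0
  have hb0 : 0 < b := Real.sqrt_pos.2 (by linarith)
  have ha2 : a ^ 2 = m := Real.sq_sqrt h0.le
  have hb2 : b ^ 2 = (m : ℝ) + 1 := Real.sq_sqrt (by linarith)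
  have hab : a ≤ b := Real.sqrt_le_sqrt (by linarith)
  have e1 : cf (m + 1) = 1 / b ^ 3 := by
    unfold cf
    push_cast
    rw [hb, Real.sqrt_eq_rpow, ← Real.rpow_natCast, ← Real.rpow_mul (by linarith), Real.rpow_neg (by linarith)]
    norm_num
  have e2 : 2 / a - 2 / b - 1 / b ^ 3 = ((b - a) * (2 * b ^ 2) - a) / (a * b ^ 3) := by
    field_simp
  have e3 : 0 ≤ (b - a) * (2 * b ^ 2) - a := by
    have e4 : (b - a) * (b + a) = 1 := by nlinarith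
    have e5 : a ≤ a * ((b - a) * (b + a)) := by rw [e4, mul_one]
    have e6 : a * ((b - a) * (b + a)) ≤ (b - a) * (2 * b ^ 2) := by
      have : 0 ≤ b - a := by linarith
      have e7 : a * (b + a) ≤ 2 * b ^ 2 := by nlinarith
      calc a * ((b - a) * (b + a)) = (b - a) * (a * (b + a)) := by ring
        _ ≤ (b - a) * (2 * b ^ 2) := mul_le_mul_of_nonneg_left e7 this
    linarith
  have e8 : 0 ≤ ((b - a) * (2 * b ^ 2) - a) / (a * b ^ 3) := div_nonneg e3 (by positivity)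
  rw [e1]
  linarith

lemma cf_tail {N : ℕ} (hN : 1 ≤ N) (n : ℕ) : ∑ m ∈ Finset.range n, cf (m + (N + 1)) ≤ 2 / √(N : ℝ) := by
  have h1 : ∑ m ∈ Finset.range n, cf (m + (N + 1)) ≤ 2 / √(N : ℝ) - 2 / √((N + n : ℕ) : ℝ) := by
    induction n with
    | zero => simp
    | succ n ih =>
      rw [Finset.sum_range_succ]
      have h2 := cf_tele (m := N + n) (by omega)
      have e : cf (n + (N + 1)) = cf (N + n + 1) := by congr 1; omega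
      rw [e]
      push_cast at h2 ih ⊢
      rw [← add_assoc]
      linarith
  have h3 : 0 ≤ 2 / √((N + n : ℕ) : ℝ) := by positivity
  linarith

/-- the Dirichlet series of `ζ(1+ρ)` on the line `Re ρ = 1/2` -/
lemma term_norm {ρ : ℂ} (hρ : ρ.re = 1 / 2) (m : ℕ) : ‖1 / (m : ℂ) ^ (1 + ρ)‖ = cf m := by
  rcases Nat.eq_zero_or_pos m with h | h
  · subst h
    unfold cf
    have h1 : (1 + ρ) ≠ 0 := by
      intro h0
      have := congrArg Complex.re h0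
      simp [hρ] at this
      norm_num at this
    simp only [Nat.cast_zero]
    rw [Complex.zero_cpow h1, Real.zero_rpow (by norm_num)]
    simp
  · rw [norm_div, norm_one, Complex.norm_natCast_cpow_of_pos h]
    unfold cf
    have e : (1 + ρ).re = 3 / 2 := by simp [hρ]; norm_num
    rw [e, Real.rpow_neg (Nat.cast_nonneg m), one_div]

lemma zeta_bound {ρ : ℂ} (hρ : ρ.re = 1 / 2) : ‖riemannZeta (1 + ρ)‖ ≤ cc := by
  rw [zeta_eq_tsum_one_div_nat_cpow (by simp [hρ])]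
  unfold cc
  have hs : Summable (fun m : ℕ => ‖1 / (m : ℂ) ^ (1 + ρ)‖) := by
    simp only [term_norm hρ]
    exact cf_summable
  refine (norm_tsum_le_tsum_norm hs).trans (le_of_eq ?_)
  exact tsum_congr fun m => term_norm hρ m

lemma zeta_tail {ρ : ℂ} (hρ : ρ.re = 1 / 2) {N : ℕ} (hN : 1 ≤ N) :
    ‖riemannZeta (1 + ρ) - ∑ m ∈ Finset.Icc 1 N, 1 / (m : ℂ) ^ (1 + ρ)‖ ≤ 2 / √(N : ℝ) := by
  obtain ⟨F, hF⟩ : ∃ F : ℕ → ℂ, F = fun m : ℕ => 1 / (m : ℂ) ^ (1 + ρ) := ⟨_, rfl⟩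
  have hFn : ∀ m, ‖F m‖ = cf m := fun m => by rw [hF]; exact term_norm hρ m
  have hz : riemannZeta (1 + ρ) = ∑' m, F m := by
    rw [zeta_eq_tsum_one_div_nat_cpow (by simp [hρ]), hF]
  have hS : ∑ m ∈ Finset.Icc 1 N, 1 / (m : ℂ) ^ (1 + ρ) = ∑ m ∈ Finset.Icc 1 N, F m := by rw [hF]
  rw [hz, hS]
  clear hz hS hF
  have hs : Summable (fun m : ℕ => ‖F m‖) := by
    simp only [hFn]
    exact cf_summable
  have h1 := hs.of_norm.sum_add_tsum_nat_add (N + 1)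
  have h2 : ∑ m ∈ Finset.range (N + 1), F m = ∑ m ∈ Finset.Icc 1 N, F m := by
    have h3 : Finset.range (N + 1) = insert 0 (Finset.Icc 1 N) := by
      ext m
      simp only [Finset.mem_range, Finset.mem_insert, Finset.mem_Icc]
      omega
    rw [h3, Finset.sum_insert (by simp)]
    have h4 : ‖F 0‖ = 0 := by
      rw [hFn 0]
      unfold cf
      rw [Nat.cast_zero, Real.zero_rpow (by norm_num)]
    rw [norm_eq_zero.1 h4, zero_add]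
  rw [← h1, h2, add_sub_cancel_left]
  have hs2 : Summable (fun m : ℕ => ‖F (m + (N + 1))‖) := (summable_nat_add_iff (f := fun m => ‖F m‖) (N + 1)).2 hs
  refine (norm_tsum_le_tsum_norm hs2).trans ?_
  refine hs2.tsum_le_of_sum_range_le fun n => ?_
  refine le_trans (le_of_eq ?_) (cf_tail hN n)
  exact Finset.sum_congr rfl fun m _ => hFn _

lemma floor_ge {v : ℝ} (hv : 0 ≤ v) : 1 ≤ ⌊Real.exp v⌋₊ ∧ 2 / √((⌊Real.exp v⌋₊ : ℕ) : ℝ) ≤ 4 * Real.exp (-(v / 2)) := by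
  have h1 : (1 : ℝ) ≤ Real.exp v := Real.one_le_exp hv
  have h2 : 1 ≤ ⌊Real.exp v⌋₊ := (Nat.le_floor_iff (by linarith)).2 (by simpa using h1)
  refine ⟨h2, ?_⟩
  have h3 : Real.exp v / 4 ≤ ((⌊Real.exp v⌋₊ : ℕ) : ℝ) := by
    have h4 := Nat.lt_floor_add_one (Real.exp v)
    have h5 : (1 : ℝ) ≤ ((⌊Real.exp v⌋₊ : ℕ) : ℝ) := by exact_mod_cast h2
    linarith
  have h6 : Real.exp (v / 2) / 2 ≤ √((⌊Real.exp v⌋₊ : ℕ) : ℝ) := by
    apply Real.le_sqrt_of_sq_le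
    have : (Real.exp (v / 2) / 2) ^ 2 = Real.exp v / 4 := by
      rw [div_pow, ← Real.exp_nat_mul]
      push_cast
      have : (2 : ℝ) * (v / 2) = v := by ring
      rw [this]
      norm_num
    rw [this]
    exact h3
  have h7 : 0 < Real.exp (v / 2) / 2 := by positivity
  calc 2 / √((⌊Real.exp v⌋₊ : ℕ) : ℝ) ≤ 2 / (Real.exp (v / 2) / 2) := by gcongr
    _ = 4 * Real.exp (-(v / 2)) := by
      rw [Real.exp_neg]
      field_simp
      norm_num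

lemma ee_sub {ρ : ℂ} (v : ℝ) {m : ℕ} (hm : 1 ≤ m) :
    ((1 * cf m : ℝ) : ℂ) * ee ρ (v - Real.log m) = ee ρ v * (1 / (m : ℂ) ^ (1 + ρ)) := by
  have h0 : (0 : ℝ) < m := by exact_mod_cast hm
  have hm0 : (m : ℂ) ≠ 0 := by exact_mod_cast h0.ne'
  have e1 : (1 : ℂ) / (m : ℂ) ^ (1 + ρ) = Complex.exp (-(Complex.log m * (1 + ρ))) := by
    rw [Complex.cpow_def_of_ne_zero hm0, Complex.exp_neg, one_div]
  rw [cf_exp hm, one_mul, e1]
  unfold Pool.Agent.H295R2.ee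
  rw [← Complex.exp_add, Complex.ofReal_exp, ← Complex.exp_add]
  congr 1
  rw [← Complex.natCast_log]
  push_cast
  ring

/-- the almost periodic part of `k` -/
noncomputable def Qs (Z : Finset ℂ) (v : ℝ) : ℂ := ∑ ρ ∈ Z, (ww ρ * riemannZeta (1 + ρ)) * ee ρ v

lemma norm_ee {ρ : ℂ} (hρ : ρ.re = 1 / 2) (v : ℝ) : ‖ee ρ v‖ = 1 := by
  unfold Pool.Agent.H295R2.ee
  rw [Complex.norm_exp]
  have : ((ρ - 1 / 2) * (v : ℂ)).re = 0 := by simp [hρ]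
  rw [this, Real.exp_zero]

lemma TT_P (Z : Finset ℂ) (hZ : ∀ ρ ∈ Z, ρ.re = 1 / 2) {v : ℝ} (hv : 0 ≤ v) :
    ‖TT (fun _ => 1) (fun v => ∑ ρ ∈ Z, ww ρ * ee ρ v) v - Qs Z v‖ ≤ 4 * (∑ ρ ∈ Z, ‖ww ρ‖) * Real.exp (-(v / 2)) := by
  obtain ⟨hN, hb⟩ := floor_ge hv
  have e1 : TT (fun _ => 1) (fun v => ∑ ρ ∈ Z, ww ρ * ee ρ v) v - Qs Z v =
      ∑ ρ ∈ Z, ww ρ * ee ρ v * (∑ m ∈ Finset.Icc 1 ⌊Real.exp v⌋₊, 1 / (m : ℂ) ^ (1 + ρ) - riemannZeta (1 + ρ)) := by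
    unfold TT Qs
    have e2 : ∑ m ∈ Finset.Icc 1 ⌊Real.exp v⌋₊, ((1 * cf m : ℝ) : ℂ) * ∑ ρ ∈ Z, ww ρ * ee ρ (v - Real.log m) =
        ∑ ρ ∈ Z, ww ρ * ee ρ v * ∑ m ∈ Finset.Icc 1 ⌊Real.exp v⌋₊, 1 / (m : ℂ) ^ (1 + ρ) := by
      simp_rw [Finset.mul_sum]
      rw [Finset.sum_comm]
      refine Finset.sum_congr rfl fun ρ _ => Finset.sum_congr rfl fun m hm => ?_
      have h3 := ee_sub (ρ := ρ) v (Finset.mem_Icc.1 hm).1
      calc ((1 * cf m : ℝ) : ℂ) * (ww ρ * ee ρ (v - Real.log m)) =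
          ww ρ * (((1 * cf m : ℝ) : ℂ) * ee ρ (v - Real.log m)) := by ring
        _ = _ := by rw [h3]; ring
    rw [e2, ← Finset.sum_sub_distrib]
    exact Finset.sum_congr rfl fun ρ _ => by ring
  rw [e1]
  refine (norm_sum_le _ _).trans ?_
  rw [Finset.mul_sum, Finset.sum_mul]
  refine Finset.sum_le_sum fun ρ hρ => ?_
  rw [norm_mul, norm_mul, norm_ee (hZ ρ hρ), mul_one, norm_sub_rev]
  have h4 := (zeta_tail (hZ ρ hρ) hN).trans hb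
  calc ‖ww ρ‖ * ‖riemannZeta (1 + ρ) - ∑ m ∈ Finset.Icc 1 ⌊Real.exp v⌋₊, 1 / (m : ℂ) ^ (1 + ρ)‖ ≤
      ‖ww ρ‖ * (4 * Real.exp (-(v / 2))) := by gcongr
    _ = 4 * ‖ww ρ‖ * Real.exp (-(v / 2)) := by ring

/-- the mean square of a finite sum -/
lemma sq_fin (w : ℂ → ℂ) (Z : Finset ℂ) (hZ : ∀ ρ ∈ Z, ρ.re = 1 / 2) :
    Tendsto (mn fun v => ‖∑ ρ ∈ Z, w ρ * ee ρ v‖ ^ 2) atTop (𝓝 (∑ ρ ∈ Z, ‖w ρ‖ ^ 2)) := by
  classical
  have h2 : Tendsto (fun V : ℝ => ∑ ρ ∈ Z, ∑ ρ' ∈ Z, (starRingEnd ℂ) (w ρ) * w ρ' * (GR (ρ' - ρ) V / V))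
      atTop (𝓝 (∑ ρ ∈ Z, ∑ ρ' ∈ Z, (starRingEnd ℂ) (w ρ) * w ρ' * (if ρ' - ρ = 0 then 1 else 0))) := by
    refine tendsto_finsetSum _ fun ρ hρ => tendsto_finsetSum _ fun ρ' hρ' => ?_
    refine (GR_lim ?_).const_mul _
    rw [Complex.sub_re, hZ ρ hρ, hZ ρ' hρ', sub_self]
  have h3 := (Complex.continuous_re.tendsto _).comp h2
  have e1 : (∑ ρ ∈ Z, ∑ ρ' ∈ Z, (starRingEnd ℂ) (w ρ) * w ρ' * (if ρ' - ρ = 0 then 1 else 0)).re =
      ∑ ρ ∈ Z, ‖w ρ‖ ^ 2 := by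
    rw [Complex.re_sum]
    refine Finset.sum_congr rfl fun ρ hρ => ?_
    have e2 : ∑ ρ' ∈ Z, (starRingEnd ℂ) (w ρ) * w ρ' * (if ρ' - ρ = 0 then 1 else 0) =
        (starRingEnd ℂ) (w ρ) * w ρ := by
      rw [Finset.sum_eq_single ρ]
      · simp
      · intro ρ' _ hne
        rw [if_neg (sub_ne_zero.2 hne), mul_zero]
      · exact fun h => absurd hρ h
    rw [e2, ← Complex.normSq_eq_conj_mul_self, Complex.normSq_eq_norm_sq, Complex.ofReal_re]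
  rw [e1] at h3
  refine h3.congr' ?_
  filter_upwards [eventually_gt_atTop (0 : ℝ)] with V hV
  simp only [Function.comp]
  have e4 : ∀ v : ℝ, ‖∑ ρ ∈ Z, w ρ * ee ρ v‖ ^ 2 =
      (∑ ρ ∈ Z, ∑ ρ' ∈ Z, (starRingEnd ℂ) (w ρ) * w ρ' * Complex.exp ((ρ' - ρ) * v)).re := by
    intro v
    rw [← Complex.normSq_eq_norm_sq, ← Complex.ofReal_re (Complex.normSq _), Complex.normSq_eq_conj_mul_self,
      map_sum, Finset.sum_mul_sum]
    congr 1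
    refine Finset.sum_congr rfl fun ρ hρ => Finset.sum_congr rfl fun ρ' hρ' => ?_
    have e6 := Pool.Agent.H295R2.ee_mul (ρ := ρ') (hZ ρ hρ) v
    rw [map_mul, ← e6]
    ring
  unfold mn
  have e8 : ∫ v in (0 : ℝ)..V, ‖∑ ρ ∈ Z, w ρ * ee ρ v‖ ^ 2 =
      (∑ ρ ∈ Z, ∑ ρ' ∈ Z, (starRingEnd ℂ) (w ρ) * w ρ' * GR (ρ' - ρ) V).re := by
    simp only [e4]
    rw [intervalIntegral.integral_of_le hV.le]
    have i2 : IntegrableOn (fun v : ℝ => ∑ ρ ∈ Z, ∑ ρ' ∈ Z,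
        (starRingEnd ℂ) (w ρ) * w ρ' * Complex.exp ((ρ' - ρ) * v)) (Ioc 0 V) :=
      Pool.Agent.H295R2.cont_iOn (by fun_prop) V
    have := integral_re i2
    simp only [RCLike.re_eq_complex_re] at this
    rw [this, integral_finsetSum]
    · congr 1
      refine Finset.sum_congr rfl fun ρ _ => ?_
      rw [integral_finsetSum]
      · refine Finset.sum_congr rfl fun ρ' _ => ?_
        rw [integral_const_mul]; rfl
      · exact fun ρ' _ => Pool.Agent.H295R2.cont_iOn (by fun_prop) V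
    · exact fun ρ _ => Pool.Agent.H295R2.cont_iOn (by fun_prop) V
  rw [e8]
  have h7 : (∑ ρ ∈ Z, ∑ ρ' ∈ Z, (starRingEnd ℂ) (w ρ) * w ρ' * (GR (ρ' - ρ) V / V)) =
      (∑ ρ ∈ Z, ∑ ρ' ∈ Z, (starRingEnd ℂ) (w ρ) * w ρ' * GR (ρ' - ρ) V) / ((V : ℝ) : ℂ) := by
    rw [Finset.sum_div]
    refine Finset.sum_congr rfl fun ρ _ => ?_
    rw [Finset.sum_div]
    exact Finset.sum_congr rfl fun ρ' _ => by ring
  rw [h7, Complex.div_ofReal_re]

/-- the summands of `zs` -/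
noncomputable def bb (ρ : ℂ) : ℝ := ‖riemannZeta (1 + ρ)‖ ^ 2 / ‖ρ * deriv riemannZeta ρ‖ ^ 2

lemma bb_nonneg (ρ : ℂ) : 0 ≤ bb ρ := by unfold bb; positivity

lemma bb_eq (ρ : ℂ) : bb ρ = ‖ww ρ * riemannZeta (1 + ρ)‖ ^ 2 := by
  unfold bb Pool.Agent.H295R2.ww
  rw [norm_mul (1 / (ρ * deriv riemannZeta ρ)), norm_div, norm_one, mul_pow, div_pow, one_pow]
  ring

lemma bb_le {ρ : ℂ} (hρ : ρ.re = 1 / 2) : bb ρ ≤ cc ^ 2 * aa ρ := by
  unfold bb aa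
  rw [mul_one_div]
  have := zeta_bound hρ
  gcongr

/-- the difference of `k` and its almost periodic part -/
lemma diff_le (Z : Finset ℂ) (hZ : ∀ ρ ∈ Z, ρ.re = 1 / 2) {V : ℝ} (hV : 0 < V) :
    mn (fun v => ‖((kt v : ℝ) : ℂ) - Qs Z v‖ ^ 2) V ≤
      2 * cc ^ 2 * mn (fun v => ‖((ft v : ℝ) : ℂ) - ∑ ρ ∈ Z, ww ρ * ee ρ v‖ ^ 2) V +
        32 * (∑ ρ ∈ Z, ‖ww ρ‖) ^ 2 / V := by
  set P : ℝ → ℂ := fun v => ∑ ρ ∈ Z, ww ρ * ee ρ v with hP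
  set B : ℝ := ∑ ρ ∈ Z, ‖ww ρ‖ with hB
  have hPc : Continuous P := by
    rw [hP]
    unfold Pool.Agent.H295R2.ee
    fun_prop
  have hQc : Continuous (Qs Z) := by
    unfold Qs Pool.Agent.H295R2.ee
    fun_prop
  have hR : LB (fun v => ‖((ft v : ℝ) : ℂ) - P v‖ ^ 2) := ft_LB.normsq hPc
  obtain ⟨Φ, h1, h2, h3⟩ := TT_major (fun _ => 1) (fun _ => by simp) (fun v => ((ft v : ℝ) : ℂ) - P v) hR hV.le
  have hpt : ∀ v ∈ Ioc 0 V, ‖((kt v : ℝ) : ℂ) - Qs Z v‖ ^ 2 ≤ 2 * Φ v + 32 * B ^ 2 * Real.exp (-v) := by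
    intro v hv
    have e1 : ((kt v : ℝ) : ℂ) - Qs Z v = TT (fun _ => 1) (fun v => ((ft v : ℝ) : ℂ) - P v) v +
        (TT (fun _ => 1) P v - Qs Z v) := by
      rw [kt_eq v]
      have e2 : TT (fun _ => 1) (fun v => ((ft v : ℝ) : ℂ) - P v) v =
          TT (fun _ => 1) (fun v => ((fv v : ℝ) : ℂ)) v - TT (fun _ => 1) P v := by
        unfold TT
        rw [← Finset.sum_sub_distrib]
        refine Finset.sum_congr rfl fun m _ => ?_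
        rw [fv_ft]
        ring
      rw [e2]
      ring
    have h4 := TT_P Z hZ hv.1.le
    have h5 := h2 v hv
    have h6 : ‖((kt v : ℝ) : ℂ) - Qs Z v‖ ≤ ‖TT (fun _ => 1) (fun v => ((ft v : ℝ) : ℂ) - P v) v‖ +
        4 * B * Real.exp (-(v / 2)) := by
      rw [e1]
      exact (norm_add_le _ _).trans (add_le_add le_rfl h4)
    have h7 : ‖((kt v : ℝ) : ℂ) - Qs Z v‖ ^ 2 ≤ (‖TT (fun _ => 1) (fun v => ((ft v : ℝ) : ℂ) - P v) v‖ +
        4 * B * Real.exp (-(v / 2))) ^ 2 := pow_le_pow_left₀ (norm_nonneg _) h6 2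
    have h8 : Real.exp (-(v / 2)) ^ 2 = Real.exp (-v) := by
      rw [← Real.exp_nat_mul]
      congr 1
      push_cast
      ring
    have h9 : (4 * B * Real.exp (-(v / 2))) ^ 2 = 16 * B ^ 2 * Real.exp (-v) := by
      rw [mul_pow, mul_pow, h8]
      ring
    have h10 := add_sq_le (a := ‖TT (fun _ => 1) (fun v => ((ft v : ℝ) : ℂ) - P v) v‖)
      (b := 4 * B * Real.exp (-(v / 2)))
    rw [h9] at h10
    linarith
  have hK : LB (fun v => ‖((kt v : ℝ) : ℂ) - Qs Z v‖ ^ 2) := kt_LB.normsq hQc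
  have hi : IntegrableOn (fun v : ℝ => Real.exp (-v)) (Ioc 0 V) :=
    (Continuous.integrableOn_Icc (by fun_prop)).mono_set Ioc_subset_Icc_self
  have hint : IntegrableOn (fun v : ℝ => 2 * Φ v + 32 * B ^ 2 * Real.exp (-v)) (Ioc 0 V) := by
    have hi1 : IntegrableOn (fun v : ℝ => 2 * Φ v) (Ioc 0 V) := h1.const_mul 2
    have hi2 : IntegrableOn (fun v : ℝ => 32 * B ^ 2 * Real.exp (-v)) (Ioc 0 V) := hi.const_mul _
    exact hi1.add hi2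
  have h11 : ∫ v in Ioc 0 V, ‖((kt v : ℝ) : ℂ) - Qs Z v‖ ^ 2 ≤
      2 * (cc ^ 2 * ∫ v in Ioc 0 V, ‖((ft v : ℝ) : ℂ) - P v‖ ^ 2) + 32 * B ^ 2 := by
    calc ∫ v in Ioc 0 V, ‖((kt v : ℝ) : ℂ) - Qs Z v‖ ^ 2 ≤ ∫ v in Ioc 0 V, (2 * Φ v + 32 * B ^ 2 * Real.exp (-v)) :=
          setIntegral_mono_on ((intervalIntegrable_iff_integrableOn_Ioc_of_le hV.le).1 (hK.ii hV.le))
            hint measurableSet_Ioc hpt
      _ = 2 * (∫ v in Ioc 0 V, Φ v) + 32 * B ^ 2 * ∫ v in Ioc 0 V, Real.exp (-v) := by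
          rw [integral_add (h1.const_mul 2) (hi.const_mul _), integral_const_mul, integral_const_mul]
      _ ≤ 2 * (cc ^ 2 * ∫ v in Ioc 0 V, ‖((ft v : ℝ) : ℂ) - P v‖ ^ 2) + 32 * B ^ 2 * 1 := by
          refine add_le_add (mul_le_mul_of_nonneg_left h3 (by norm_num)) (mul_le_mul_of_nonneg_left ?_ (by positivity))
          rw [← intervalIntegral.integral_of_le hV.le]
          have : ∫ v in (0 : ℝ)..V, Real.exp (-v) = 1 - Real.exp (-V) := by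
            rw [intervalIntegral.integral_comp_neg (fun v => Real.exp v), integral_exp]
            simp
          rw [this]
          linarith [Real.exp_pos (-V)]
      _ = _ := by ring
  unfold mn
  rw [intervalIntegral.integral_of_le hV.le, intervalIntegral.integral_of_le hV.le]
  calc (∫ v in Ioc 0 V, ‖((kt v : ℝ) : ℂ) - Qs Z v‖ ^ 2) / V ≤
      (2 * (cc ^ 2 * ∫ v in Ioc 0 V, ‖((ft v : ℝ) : ℂ) - P v‖ ^ 2) + 32 * B ^ 2) / V := by gcongr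
    _ = _ := by ring

lemma pw2 (x : ℝ) (Q : ℂ) {η : ℝ} (hη : 0 < η) :
    |x ^ 2 - ‖Q‖ ^ 2| ≤ η * ‖Q‖ ^ 2 + (1 + 1 / η) * ‖(x : ℂ) - Q‖ ^ 2 := by
  have h1 : |(|x|) - ‖Q‖| ≤ ‖(x : ℂ) - Q‖ := by
    have := abs_norm_sub_norm_le (x : ℂ) Q
    rwa [Complex.norm_real, Real.norm_eq_abs] at this
  set q := ‖Q‖
  set d := ‖(x : ℂ) - Q‖
  have hq : 0 ≤ q := norm_nonneg _
  have hd : 0 ≤ d := norm_nonneg _
  have h2 : 2 * (q * d) ≤ η * q ^ 2 + 1 / η * d ^ 2 := by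
    have h3 : η * q ^ 2 + 1 / η * d ^ 2 - 2 * (q * d) = η * (q - d / η) ^ 2 := by field_simp; ring
    have h4 : 0 ≤ η * (q - d / η) ^ 2 := by positivity
    linarith
  have h5 : |x ^ 2 - q ^ 2| = |(|x|) - q| * (|x| + q) := by
    rw [← sq_abs x, sq_sub_sq, abs_mul, abs_of_nonneg (by positivity : 0 ≤ |x| + q), mul_comm]
  have h6 : |x| + q ≤ 2 * q + d := by
    have := (abs_le.1 h1).2
    linarith
  rw [h5]
  calc |(|x|) - q| * (|x| + q) ≤ d * (2 * q + d) := mul_le_mul h1 h6 (by positivity) hd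
    _ = 2 * (q * d) + d ^ 2 := by ring
    _ ≤ _ := by linarith

theorem main_fin (hHS : HS) (hsum : Summable (fun ρ : NT => aa ρ)) :
    Tendsto (mn fun v => kt v ^ 2) atTop (𝓝 (∑' ρ : NT, bb ρ)) := by
  rw [Metric.tendsto_nhds]
  intro ε hε
  have hbb : Summable (fun ρ : NT => bb ρ) :=
    Summable.of_nonneg_of_le (fun ρ => bb_nonneg ρ) (fun ρ => bb_le (hHS ρ ρ.2).1) (hsum.mul_left (cc ^ 2))
  set S : ℝ := ∑' ρ : NT, bb ρ with hS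
  have hS0 : 0 ≤ S := tsum_nonneg fun ρ => bb_nonneg ρ
  have hcc := cc_pos
  obtain ⟨η, hη⟩ : ∃ η : ℝ, η = ε / (8 * (S + 1)) := ⟨_, rfl⟩
  have hη0 : 0 < η := by rw [hη]; positivity
  obtain ⟨κ, hκ⟩ : ∃ κ : ℝ, κ = 1 + 1 / η := ⟨_, rfl⟩
  have hκ0 : 0 < κ := by rw [hκ]; positivity
  have hκ1 : 1 ≤ κ := by rw [hκ]; have : 0 < 1 / η := by positivity
                         linarith
  obtain ⟨δ, hδ⟩ : ∃ δ : ℝ, δ = ε / (8 * κ * (2 * cc ^ 2 + 1)) := ⟨_, rfl⟩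
  have hδ0 : 0 < δ := by rw [hδ]; positivity
  have hδ1 : κ * ((2 * cc ^ 2 + 1) * δ) = ε / 8 := by rw [hδ]; field_simp
  have hδ2 : cc ^ 2 * δ ≤ ε / 8 := by
    have : cc ^ 2 * δ ≤ κ * ((2 * cc ^ 2 + 1) * δ) := by
      have h1 : 0 < cc ^ 2 := by positivity
      calc cc ^ 2 * δ ≤ (2 * cc ^ 2 + 1) * δ := by gcongr; linarith
        _ ≤ κ * ((2 * cc ^ 2 + 1) * δ) := le_mul_of_one_le_left (by positivity) hκ1
    linarith
  obtain ⟨s, hs⟩ := exists_fz hsum hδ0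
  have hsre : ∀ ρ ∈ fz s, ρ.re = 1 / 2 := fun ρ hρ => (hHS ρ (fz_mem hρ)).1
  have h1 := dist_fin hHS hsum (fz s) fun ρ hρ => fz_mem hρ
  have h2 := hs s subset_rfl
  rw [fz_sum] at h1
  have h3 := h1.eventually (gt_mem_nhds (show ∑' ρ : NT, aa ρ - ∑ ρ ∈ s, aa (ρ : ℂ) < δ by linarith))
  have h4 := sq_fin (fun ρ => ww ρ * riemannZeta (1 + ρ)) (fz s) hsre
  have e1 : ∑ ρ ∈ fz s, ‖ww ρ * riemannZeta (1 + ρ)‖ ^ 2 = ∑ ρ ∈ s, bb (ρ : ℂ) := by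
    unfold fz
    rw [Finset.sum_map]
    exact Finset.sum_congr rfl fun ρ _ => (bb_eq _).symm
  rw [e1] at h4
  have e2 : ∑ ρ ∈ s, bb (ρ : ℂ) ≤ S := hbb.sum_le_tsum s fun ρ _ => bb_nonneg ρ
  have e3 : S - ∑ ρ ∈ s, bb (ρ : ℂ) ≤ cc ^ 2 * δ := by
    have e4 := hbb.sum_add_tsum_compl (s := s)
    have e5 := hsum.sum_add_tsum_compl (s := s)
    have e6 : ∑' x : ((s : Set NT)ᶜ : Set NT), bb ((x : NT) : ℂ) ≤
        ∑' x : ((s : Set NT)ᶜ : Set NT), cc ^ 2 * aa ((x : NT) : ℂ) :=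
      Summable.tsum_le_tsum (fun x => bb_le (hHS _ (x : NT).2).1) (hbb.subtype _) ((hsum.mul_left _).subtype _)
    rw [tsum_mul_left] at e6
    have e7 : cc ^ 2 * ∑' x : ((s : Set NT)ᶜ : Set NT), aa ((x : NT) : ℂ) ≤ cc ^ 2 * δ := by
      have : ∑' x : ((s : Set NT)ᶜ : Set NT), aa ((x : NT) : ℂ) ≤ δ := by linarith
      gcongr
    linarith
  have h5 := Metric.tendsto_nhds.1 h4 (min (ε / 8) 1) (by positivity)
  have h6 : Tendsto (fun V : ℝ => 32 * (∑ ρ ∈ fz s, ‖ww ρ‖) ^ 2 / V) atTop (𝓝 0) :=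
    tendsto_const_nhds.div_atTop tendsto_id
  have h7 := h6.eventually (gt_mem_nhds hδ0)
  filter_upwards [h3, h5, h7, eventually_gt_atTop (0 : ℝ)] with V g1 g2 g3 hV
  have hQc : Continuous (Qs (fz s)) := by
    unfold Qs Pool.Agent.H295R2.ee
    fun_prop
  have hd : LB (fun v => ‖((kt v : ℝ) : ℂ) - Qs (fz s) v‖ ^ 2) := kt_LB.normsq hQc
  have hq : Continuous (fun v => ‖Qs (fz s) v‖ ^ 2) := (hQc.norm).pow 2
  have hqL : LB (fun v => ‖Qs (fz s) v‖ ^ 2) := LB.of_cont hq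
  have g4 := diff_le (fz s) hsre hV
  have g5 : mn (fun v => ‖((kt v : ℝ) : ℂ) - Qs (fz s) v‖ ^ 2) V ≤ (2 * cc ^ 2 + 1) * δ := by
    have : 2 * cc ^ 2 * mn (fun v => ‖((ft v : ℝ) : ℂ) - ∑ ρ ∈ fz s, ww ρ * ee ρ v‖ ^ 2) V ≤ 2 * cc ^ 2 * δ := by
      gcongr
    linarith
  have g6 := abs_mn_sub_le (g := fun v => kt v ^ 2) (h := fun v => ‖Qs (fz s) v‖ ^ 2)
    (k := fun v => η * ‖Qs (fz s) v‖ ^ 2 + κ * ‖((kt v : ℝ) : ℂ) - Qs (fz s) v‖ ^ 2) hV (kt_LB.sq.ii hV.le)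
    (hqL.ii hV.le) (((hqL.const_mul η).ii hV.le).add ((hd.const_mul κ).ii hV.le)) (fun v _ => by
      rw [hκ]
      exact pw2 (kt v) (Qs (fz s) v) hη0)
  rw [mn_add ((hqL.const_mul η).ii hV.le) ((hd.const_mul κ).ii hV.le), mn_const_mul, mn_const_mul] at g6
  have g7 : mn (fun v => ‖Qs (fz s) v‖ ^ 2) V = mn (fun v => ‖∑ ρ ∈ fz s, ww ρ * riemannZeta (1 + ρ) * ee ρ v‖ ^ 2) V := rfl
  rw [← g7, Real.dist_eq] at g2
  have g8 : |mn (fun v => ‖Qs (fz s) v‖ ^ 2) V - ∑ ρ ∈ s, bb (ρ : ℂ)| < ε / 8 := g2.trans_le (min_le_left _ _)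
  have g9 : |mn (fun v => ‖Qs (fz s) v‖ ^ 2) V - ∑ ρ ∈ s, bb (ρ : ℂ)| < 1 := g2.trans_le (min_le_right _ _)
  rw [abs_lt] at g8 g9
  have g10 : η * mn (fun v => ‖Qs (fz s) v‖ ^ 2) V ≤ ε / 8 := by
    calc η * mn (fun v => ‖Qs (fz s) v‖ ^ 2) V ≤ η * (S + 1) := by gcongr; linarith
      _ = ε / 8 := by rw [hη]; field_simp
  have g11 : κ * mn (fun v => ‖((kt v : ℝ) : ℂ) - Qs (fz s) v‖ ^ 2) V ≤ ε / 8 := by
    rw [← hδ1]
    gcongr
  rw [abs_le] at g6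
  rw [Real.dist_eq, abs_lt]
  constructor <;> linarith

theorem t_w2 : J_W2 := by
  constructor
  · rintro ⟨h1, h2⟩
    have h3 := (main_fin h1 h2).comp Real.tendsto_log_atTop
    refine h3.congr' ?_
    filter_upwards [eventually_ge_atTop (1 : ℝ)] with x hx
    simp only [Function.comp]
    unfold mn
    rw [← H2_eq (Real.log_nonneg hx), Real.exp_log (by linarith)]
  · intro h
    have h1 := lim_top h
    have hcc : 0 < cc ^ 2 := pow_pos cc_pos 2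
    have h2 : Tendsto (fun x : ℝ => (cc ^ 2)⁻¹ * (II x / Real.log x)) atTop atTop :=
      h1.const_mul_atTop (inv_pos.2 hcc)
    refine tendsto_atTop_mono' atTop ?_ h2
    filter_upwards [eventually_gt_atTop (1 : ℝ)] with x hx
    have h3 := JJ_le (Real.log_nonneg hx.le)
    rw [Real.exp_log (by linarith), ← Pool.Agent.H295R2.II_eq hx.le] at h3
    have h4 := Real.log_pos hx
    rw [inv_mul_le_iff₀ hcc, mul_div_assoc']
    gcongr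

end Pool.Agent.H313.ZC.W2
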